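import Mathlib
import Pool.Agent.Run7.h402.PD.D4

/-!
# The pair correlation of the model in a residue class: asymptotic formula
-/

set_option autoImplicit false

open Finset

namespace Run7.h402.PC

open Run7.h402.PX Run7.h402.PV Run7.h402.PD
open Pool.Agent.H373R2.T7 (Vz Vz_inv_small Vz_pos lamz lamz_nonneg pz mem_pz)

noncomputable section

/-- the primes in `(w, z]` -/
def pwz (w z : ℕ) : Finset ℕ := (pz z).filter (fun p => w < p)

theorem mem_pwz {w z p : ℕ} : p ∈ pwz w z ↔ p.Prime ∧ w < p ∧ p ≤ z := by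
  unfold pwz
  rw [mem_filter, mem_pz]
  tauto

/-- the correlation factor -/
def Gd (w z D : ℕ) : ℝ := ∏ p ∈ pwz w z, ((1 - 1 / (p : ℝ))⁻¹ ^ 2 * (1 - (if p ∣ D then 1 else 2) / (p : ℝ)))

theorem gp_le (z m : ℕ) : gp z m ≤ (Vz z)⁻¹ := by
  have := Vz_pos z
  unfold gp lamz
  split_ifs
  · exact le_rfl
  · positivity
  · positivity

theorem lamz_le (z m : ℕ) : lamz z m ≤ (Vz z)⁻¹ := by
  have := Vz_pos z
  unfold lamz
  split_ifs
  · exact le_rfl
  · positivity

/-- the asymptotic formula for the correlation -/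
theorem pair_asym (w z U ρ c1 c2 : ℕ) (h1 : Nat.Coprime (Wm w) c1) (h2 : Nat.Coprime (Wm w) c2) (hz : 1 ≤ z) (hwz : w ≤ z) :
    |∑ u ∈ range U, gp z (Wm w * u + c1) * gp z (Wm w * u + c2) - U * ((Vz w)⁻¹ ^ 2 * Gd w z ((c1 : ℤ) - c2).natAbs)| ≤
      (Vz z)⁻¹ ^ 2 * (((((z : ℝ) + 1) * (2 : ℕ)) ^ ρ + 2 * U * Real.exp (3 * ((2 : ℕ) * (1 + Real.log z)) - ρ)) + 2 * ((z : ℝ) + 1)) := by
  set W := Wm w with hW
  have hW0 : 0 < W := Wm_pos w
  set a : Fin 2 → ℤ := fun _ => W with ha
  set v : Fin 2 → ℤ := ![(c1 : ℤ) - W, (c2 : ℤ) - W] with hv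
  have hVz := Vz_pos z
  have hV2 : 0 ≤ (Vz z)⁻¹ ^ 2 := by positivity
  -- excluded classes
  have hAz : ∀ p n : ℕ, Az a v p n ↔ (p : ℤ) ∣ W * n + ((c1 : ℤ) - W) ∨ (p : ℤ) ∣ W * n + ((c2 : ℤ) - W) := by
    intro p n
    unfold Az
    rw [Fin.exists_fin_two]
    simp [ha, hv]
  have hsmall : ∀ p ∈ pz z, p ≤ w → nz a v p = 0 := by
    intro p hp hpw
    have hpp := (mem_pz.1 hp).2
    have hpW : p ∣ W := (dvd_Wm w p hpp).2 hpw
    unfold nz
    rw [card_eq_zero, filter_eq_empty_iff]
    intro n _ hn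
    rw [hAz] at hn
    have hpWz : (p : ℤ) ∣ (W : ℤ) := by exact_mod_cast hpW
    have key : ∀ c : ℕ, Nat.Coprime W c → ¬ (p : ℤ) ∣ W * n + ((c : ℤ) - W) := by
      intro c hc hd
      have e : (W : ℤ) * n + ((c : ℤ) - W) = (W : ℤ) * (n - 1) + c := by ring
      rw [e] at hd
      have h3 : (p : ℤ) ∣ c := (Int.dvd_add_right (dvd_mul_of_dvd_left hpWz _)).1 hd
      have h4 : p ∣ c := by exact_mod_cast h3
      have := Nat.dvd_gcd hpW h4
      rw [hc] at this
      exact hpp.one_lt.ne' (Nat.dvd_one.1 this)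
    rcases hn with h | h
    · exact key c1 h1 h
    · exact key c2 h2 h
  have hlarge : ∀ p ∈ pz z, w < p → nz a v p = if p ∣ ((c1 : ℤ) - c2).natAbs then 1 else 2 := by
    intro p hp hpw
    have hpp := (mem_pz.1 hp).2
    have hpW : ¬ p ∣ W := fun h => by
      have := (dvd_Wm w p hpp).1 h
      omega
    have hpWz : ¬ (p : ℤ) ∣ (W : ℤ) := fun h => hpW (by exact_mod_cast h)
    split_ifs with hd
    · have hd' : (p : ℤ) ∣ (c1 : ℤ) - c2 := by
        rw [← Int.dvd_natAbs]
        exact_mod_cast hd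
      have : (range p).filter (fun n => Az a v p n) = (range p).filter (fun n : ℕ => (p : ℤ) ∣ (W : ℤ) * n + ((c1 : ℤ) - W)) := by
        ext n
        rw [mem_filter, mem_filter, hAz]
        have e : (W : ℤ) * n + ((c1 : ℤ) - W) = ((W : ℤ) * n + ((c2 : ℤ) - W)) + ((c1 : ℤ) - c2) := by ring
        have : ((p : ℤ) ∣ (W : ℤ) * n + ((c1 : ℤ) - W)) ↔ ((p : ℤ) ∣ (W : ℤ) * n + ((c2 : ℤ) - W)) := by
          rw [e]
          exact Int.dvd_add_left hd'
        rw [this]
        tauto
      unfold nz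
      rw [this]
      exact one_form _ _ p hpp hpWz
    · apply nz_eq a v p hpp
      · intro i
        exact hpWz
      · intro i j hij hdd
        have hpZ : Prime (p : ℤ) := Nat.prime_iff_prime_int.1 hpp
        have h3 : (p : ℤ) ∣ (W : ℤ) * (v j - v i) := by
          have e : a i * v j - a j * v i = (W : ℤ) * (v j - v i) := by simp only [ha]; ring
          rwa [e] at hdd
        rcases hpZ.dvd_or_dvd h3 with h4 | h4
        · exact hpWz h4
        · apply hd
          have h5 : (p : ℤ) ∣ (c1 : ℤ) - c2 := by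
            fin_cases i <;> fin_cases j
            · exact absurd rfl hij
            · have e : v ⟨1, by norm_num⟩ - v ⟨0, by norm_num⟩ = -((c1 : ℤ) - c2) := by
                have e1 : v ⟨1, by norm_num⟩ = (c2 : ℤ) - W := rfl
                have e2 : v ⟨0, by norm_num⟩ = (c1 : ℤ) - W := rfl
                rw [e1, e2]; ring
              simp only at h4
              rw [e] at h4
              exact (Int.dvd_neg).1 h4
            · have e : v ⟨0, by norm_num⟩ - v ⟨1, by norm_num⟩ = ((c1 : ℤ) - c2) := by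
                have e1 : v ⟨1, by norm_num⟩ = (c2 : ℤ) - W := rfl
                have e2 : v ⟨0, by norm_num⟩ = (c1 : ℤ) - W := rfl
                rw [e1, e2]; ring
              simp only at h4
              rw [e] at h4
              exact h4
            · exact absurd rfl hij
          exact Int.natCast_dvd.1 h5
  have hν : ∀ p ∈ pz z, ((range p).filter (fun b => Az a v p b)).card ≤ 2 := by
    intro p hp
    rcases Nat.lt_or_ge w p with h | h
    · have := hlarge p hp h
      unfold nz at this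
      rw [this]
      split_ifs <;> norm_num
    · have := hsmall p hp h
      unfold nz at this
      rw [this]
      norm_num
  have key := multi_sieveG 2 (by norm_num) (Az a v) (fun p n => Az_mod a v p n) U z ρ hz hν
  -- the product
  have hprod : (Vz z)⁻¹ ^ 2 * ∏ p ∈ pz z, (1 - (((range p).filter (fun b => Az a v p b)).card : ℝ) / p) =
      (Vz w)⁻¹ ^ 2 * Gd w z ((c1 : ℤ) - c2).natAbs := by
    have h4 : (Vz z)⁻¹ ^ 2 * ∏ p ∈ pz z, (1 - (((range p).filter (fun b => Az a v p b)).card : ℝ) / p) =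
        ∏ p ∈ pz z, ((1 - 1 / (p : ℝ))⁻¹ ^ 2 * (1 - (((range p).filter (fun b => Az a v p b)).card : ℝ) / p)) := by
      unfold Vz
      rw [prod_mul_distrib, prod_pow, prod_inv_distrib]
    rw [h4, ← prod_filter_mul_prod_filter_not (pz z) (fun p => w < p), mul_comm]
    have e1 : ∏ p ∈ (pz z).filter (fun p => ¬ w < p), ((1 - 1 / (p : ℝ))⁻¹ ^ 2 * (1 - (((range p).filter (fun b => Az a v p b)).card : ℝ) / p)) = (Vz w)⁻¹ ^ 2 := by
      have e2 : (pz z).filter (fun p => ¬ w < p) = pz w := by
        ext p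
        rw [mem_filter, mem_pz, mem_pz]
        constructor
        · rintro ⟨⟨_, h8⟩, h9⟩
          exact ⟨by omega, h8⟩
        · rintro ⟨h8, h9⟩
          exact ⟨⟨h8.trans hwz, h9⟩, by omega⟩
      rw [e2]
      have e3 : ∀ p ∈ pz w, ((1 - 1 / (p : ℝ))⁻¹ ^ 2 * (1 - (((range p).filter (fun b => Az a v p b)).card : ℝ) / p)) = (1 - 1 / (p : ℝ))⁻¹ ^ 2 := by
        intro p hp
        rw [mem_pz] at hp
        have := hsmall p (mem_pz.2 ⟨hp.1.trans hwz, hp.2⟩) hp.1
        unfold nz at this
        rw [this]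
        simp
      rw [prod_congr rfl e3]
      unfold Vz
      rw [prod_pow, prod_inv_distrib]
    rw [e1]
    congr 1
    unfold Gd pwz
    apply prod_congr rfl
    intro p hp
    rw [mem_filter] at hp
    have := hlarge p hp.1 hp.2
    unfold nz at this
    rw [this]
    split_ifs <;> simp
  -- the sum
  have hsumeq : ∑ u ∈ range U, lamz z (W * u + c1) * lamz z (W * u + c2) =
      (Vz z)⁻¹ ^ 2 * ((((Icc 1 U).filter (fun n => ∀ p ∈ pz z, ¬ Az a v p n)).card : ℕ) : ℝ) := by
    have e1 : ∑ u ∈ range U, lamz z (W * u + c1) * lamz z (W * u + c2) = ∑ n ∈ Icc 1 U, lamz z (W * (n - 1) + c1) * lamz z (W * (n - 1) + c2) := by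
      symm
      refine sum_bij' (fun n _ => n - 1) (fun n _ => n + 1) ?_ ?_ ?_ ?_ ?_
      · intro n hn
        rw [mem_Icc] at hn
        rw [mem_range]
        omega
      · intro n hn
        rw [mem_range] at hn
        rw [mem_Icc]
        omega
      · intro n hn
        rw [mem_Icc] at hn
        omega
      · intro n hn
        omega
      · intro n hn
        rfl
    rw [e1]
    have h2 : ∀ n ∈ Icc 1 U, lamz z (W * (n - 1) + c1) * lamz z (W * (n - 1) + c2) =
        if (∀ p ∈ pz z, ¬ Az a v p n) then (Vz z)⁻¹ ^ 2 else 0 := by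
      intro n hn
      rw [mem_Icc] at hn
      have hcast : ∀ c : ℕ, ((W * (n - 1) + c : ℕ) : ℤ) = (W : ℤ) * n + ((c : ℤ) - W) := by
        intro c
        push_cast [Nat.cast_sub hn.1]
        ring
      have hdv : ∀ (c p : ℕ), p ∣ W * (n - 1) + c ↔ (p : ℤ) ∣ (W : ℤ) * n + ((c : ℤ) - W) := by
        intro c p
        rw [← hcast, Int.natCast_dvd_natCast]
      split_ifs with h3
      · have u1 : lamz z (W * (n - 1) + c1) = (Vz z)⁻¹ := by
          unfold lamz
          rw [if_pos]
          intro p hp hd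
          exact h3 p hp ((hAz p n).2 (Or.inl ((hdv c1 p).1 hd)))
        have u2 : lamz z (W * (n - 1) + c2) = (Vz z)⁻¹ := by
          unfold lamz
          rw [if_pos]
          intro p hp hd
          exact h3 p hp ((hAz p n).2 (Or.inr ((hdv c2 p).1 hd)))
        rw [u1, u2, pow_two]
      · push Not at h3
        obtain ⟨p, hp, hpA⟩ := h3
        rw [hAz] at hpA
        rcases hpA with h4 | h4
        · have : lamz z (W * (n - 1) + c1) = 0 := by
            unfold lamz
            rw [if_neg]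
            intro h6
            exact h6 p hp ((hdv c1 p).2 h4)
          rw [this, zero_mul]
        · have : lamz z (W * (n - 1) + c2) = 0 := by
            unfold lamz
            rw [if_neg]
            intro h6
            exact h6 p hp ((hdv c2 p).2 h4)
          rw [this, mul_zero]
    rw [sum_congr rfl h2, ← sum_filter, sum_const, nsmul_eq_mul, mul_comm]
  have hdiff : |∑ u ∈ range U, gp z (W * u + c1) * gp z (W * u + c2) - ∑ u ∈ range U, lamz z (W * u + c1) * lamz z (W * u + c2)| ≤
      (Vz z)⁻¹ ^ 2 * (2 * ((z : ℝ) + 1)) := by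
    rw [← sum_sub_distrib]
    refine (abs_sum_le_sum_abs _ _).trans ?_
    have hterm : ∀ u ∈ range U, |gp z (W * u + c1) * gp z (W * u + c2) - lamz z (W * u + c1) * lamz z (W * u + c2)| ≤
        (if W * u + c1 ≤ z then (Vz z)⁻¹ ^ 2 else 0) + (if W * u + c2 ≤ z then (Vz z)⁻¹ ^ 2 else 0) := by
      intro u _
      have l1 := lamz_le z (W * u + c1)
      have l2 := lamz_le z (W * u + c2)
      have l3 := lamz_nonneg z (W * u + c1)
      have l4 := lamz_nonneg z (W * u + c2)
      have l5 : lamz z (W * u + c1) * lamz z (W * u + c2) ≤ (Vz z)⁻¹ ^ 2 := by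
        rw [pow_two]
        exact mul_le_mul l1 l2 l4 (l3.trans l1)
      have l6 : 0 ≤ lamz z (W * u + c1) * lamz z (W * u + c2) := mul_nonneg l3 l4
      by_cases k1 : W * u + c1 ≤ z
      · have e1 : gp z (W * u + c1) = 0 := gp_zero z _ k1
        rw [e1, if_pos k1, zero_mul, zero_sub, abs_neg, abs_of_nonneg l6]
        have : (0 : ℝ) ≤ (if W * u + c2 ≤ z then (Vz z)⁻¹ ^ 2 else 0) := by split_ifs <;> positivity
        linarith
      · by_cases k2 : W * u + c2 ≤ z
        · have e1 : gp z (W * u + c2) = 0 := gp_zero z _ k2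
          rw [e1, if_pos k2, mul_zero, zero_sub, abs_neg, abs_of_nonneg l6]
          have : (0 : ℝ) ≤ (if W * u + c1 ≤ z then (Vz z)⁻¹ ^ 2 else 0) := by split_ifs <;> positivity
          linarith
        · have e1 : gp z (W * u + c1) = lamz z (W * u + c1) := by
            unfold gp
            rw [if_pos (by omega)]
          have e2 : gp z (W * u + c2) = lamz z (W * u + c2) := by
            unfold gp
            rw [if_pos (by omega)]
          rw [e1, e2, sub_self, abs_zero]
          split_ifs <;> positivity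
    refine (sum_le_sum hterm).trans ?_
    have hc : ∀ c : ℕ, ∑ u ∈ range U, (if W * u + c ≤ z then (Vz z)⁻¹ ^ 2 else 0) ≤ (Vz z)⁻¹ ^ 2 * ((z : ℝ) + 1) := by
      intro c
      rw [← sum_filter, sum_const, nsmul_eq_mul, mul_comm]
      apply mul_le_mul_of_nonneg_left _ hV2
      have : ((range U).filter (fun u => W * u + c ≤ z)).card ≤ (range (z + 1)).card := by
        apply card_le_card
        intro u hu
        rw [mem_filter] at hu
        rw [mem_range]
        have : u ≤ W * u := Nat.le_mul_of_pos_left _ hW0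
        omega
      rw [card_range] at this
      exact_mod_cast this
    rw [sum_add_distrib]
    have := hc c1
    have := hc c2
    linarith
  have e : ∑ u ∈ range U, gp z (W * u + c1) * gp z (W * u + c2) - U * ((Vz w)⁻¹ ^ 2 * Gd w z ((c1 : ℤ) - c2).natAbs) =
      (Vz z)⁻¹ ^ 2 * (((((Icc 1 U).filter (fun n => ∀ p ∈ pz z, ¬ Az a v p n)).card : ℕ) : ℝ) -
        U * ∏ p ∈ pz z, (1 - (((range p).filter (fun b => Az a v p b)).card : ℝ) / p)) +
      (∑ u ∈ range U, gp z (W * u + c1) * gp z (W * u + c2) - ∑ u ∈ range U, lamz z (W * u + c1) * lamz z (W * u + c2)) := by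
    rw [← hprod, hsumeq]
    ring
  rw [e]
  refine (abs_add_le _ _).trans ?_
  rw [abs_mul, abs_of_nonneg hV2, mul_add (((Vz z)⁻¹ ^ 2))]
  exact add_le_add (mul_le_mul_of_nonneg_left key hV2) hdiff

end

end Run7.h402.PC
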