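import Mathlib

/-!
# A quadratic form with a divisor-like kernel
-/

set_option autoImplicit false

open Finset

namespace Run7.h402.PC

noncomputable section

/-- the part of the quadratic form with a fixed divisor -/
def EqF (c : ℕ → ℝ) (T q : ℕ) : ℝ :=
  ∑ t ∈ range T, ∑ t' ∈ range T, if t = t' then 0 else c t * c t' * (if q ∣ ((t : ℤ) - t').natAbs then 1 else 0)

theorem mod_iff (q t t' : ℕ) : q ∣ ((t : ℤ) - t').natAbs ↔ t' % q = t % q := by
  rw [← Int.natCast_dvd, ← Nat.modEq_iff_dvd]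
  exact Iff.rfl

theorem EqF_small (c : ℕ → ℝ) (hc : ∀ t, |c t| ≤ 1) (T q : ℕ) (hq : 1 ≤ q) (δ : ℝ)
    (hcl : ∀ r < q, |∑ t ∈ (range T).filter (fun t => t % q = r), c t| ≤ δ) : |EqF c T q| ≤ q * δ ^ 2 + T := by
  have h1 : EqF c T q = ∑ r ∈ range q, (∑ t ∈ (range T).filter (fun t => t % q = r), c t) ^ 2 - ∑ t ∈ range T, c t ^ 2 := by
    have h2 : ∑ r ∈ range q, (∑ t ∈ (range T).filter (fun t => t % q = r), c t) ^ 2 =
        ∑ t ∈ range T, ∑ t' ∈ range T, c t * c t' * (if q ∣ ((t : ℤ) - t').natAbs then 1 else 0) := by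
      rw [← sum_fiberwise_of_maps_to (s := range T) (t := range q) (g := fun t => t % q) (fun t _ => mem_range.2 (Nat.mod_lt _ hq))]
      apply sum_congr rfl
      intro r _
      rw [pow_two, sum_mul]
      apply sum_congr rfl
      intro t ht
      rw [mem_filter] at ht
      rw [mul_sum, sum_filter]
      apply sum_congr rfl
      intro t' _
      have := mod_iff q t t'
      by_cases h : t' % q = r
      · rw [if_pos h, if_pos (this.2 (by rw [h, ht.2])), mul_one]
      · rw [if_neg h, if_neg (fun h3 => h (by rw [this.1 h3, ht.2])), mul_zero]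
    rw [h2, ← sum_sub_distrib]
    unfold EqF
    apply sum_congr rfl
    intro t ht
    have h3 : c t ^ 2 = ∑ t' ∈ range T, if t = t' then c t * c t' * (if q ∣ ((t : ℤ) - t').natAbs then 1 else 0) else 0 := by
      rw [sum_ite_eq, if_pos ht]
      simp [pow_two]
    rw [h3, ← sum_sub_distrib]
    apply sum_congr rfl
    intro t' _
    split_ifs <;> simp
  have h2 : 0 ≤ ∑ r ∈ range q, (∑ t ∈ (range T).filter (fun t => t % q = r), c t) ^ 2 := sum_nonneg fun _ _ => sq_nonneg _
  have h3 : 0 ≤ ∑ t ∈ range T, c t ^ 2 := sum_nonneg fun _ _ => sq_nonneg _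
  have h4 : ∑ t ∈ range T, c t ^ 2 ≤ T := by
    calc ∑ t ∈ range T, c t ^ 2 ≤ ∑ _t ∈ range T, (1 : ℝ) := by
          apply sum_le_sum
          intro t _
          rw [← sq_abs]
          exact pow_le_one₀ (abs_nonneg _) (hc t)
      _ = T := by simp
  have h5 : ∑ r ∈ range q, (∑ t ∈ (range T).filter (fun t => t % q = r), c t) ^ 2 ≤ q * δ ^ 2 := by
    calc ∑ r ∈ range q, (∑ t ∈ (range T).filter (fun t => t % q = r), c t) ^ 2 ≤ ∑ _r ∈ range q, δ ^ 2 := by
          apply sum_le_sum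
          intro r hr
          rw [← sq_abs]
          exact pow_le_pow_left₀ (abs_nonneg _) (hcl r (mem_range.1 hr)) 2
      _ = q * δ ^ 2 := by simp
  rw [h1, abs_le]
  constructor
  · have : 0 ≤ (q : ℝ) * δ ^ 2 := by positivity
    linarith
  · linarith

theorem EqF_large (c : ℕ → ℝ) (hc : ∀ t, |c t| ≤ 1) (T q : ℕ) (hq : 1 ≤ q) : |EqF c T q| ≤ 2 * T ^ 2 / q := by
  have hq0 : (0 : ℝ) < q := by exact_mod_cast hq
  have h1 : ∀ t ∈ range T, |∑ t' ∈ range T, if t = t' then 0 else c t * c t' * (if q ∣ ((t : ℤ) - t').natAbs then 1 else 0)| ≤ 2 * T / q := by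
    intro t ht
    rw [mem_range] at ht
    have hterm : ∀ t' ∈ range T, |if t = t' then 0 else c t * c t' * (if q ∣ ((t : ℤ) - t').natAbs then 1 else 0)| ≤
        if t ≠ t' ∧ q ∣ ((t : ℤ) - t').natAbs then 1 else 0 := by
      intro t' _
      split_ifs with h1 h2 h3 h4 h5
      · simp
      · simp
      · rw [mul_one, abs_mul]
        exact mul_le_one₀ (hc t) (abs_nonneg _) (hc t')
      · exact absurd ⟨h1, h3⟩ h4
      · exact absurd h5.2 h3
      · simp
    refine (abs_sum_le_sum_abs _ _).trans ((sum_le_sum hterm).trans ?_)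
    rw [← sum_filter, sum_const, nsmul_eq_mul, mul_one]
    -- the count
    have hsub : (range T).filter (fun t' => t ≠ t' ∧ q ∣ ((t : ℤ) - t').natAbs) ⊆
        ((Icc 1 (t / q)).image (fun j => t - j * q)) ∪ ((Icc 1 ((T - 1 - t) / q)).image (fun j => t + j * q)) := by
      intro t' ht'
      rw [mem_filter, mem_range] at ht'
      obtain ⟨h1, h2, h3⟩ := ht'
      obtain ⟨j, hj⟩ := h3
      rw [mem_union, mem_image, mem_image]
      rcases Nat.lt_or_ge t' t with h4 | h4
      · left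
        have h5 : t - t' = q * j := by omega
        refine ⟨j, ?_, ?_⟩
        · rw [mem_Icc]
          constructor
          · rcases Nat.eq_zero_or_pos j with h6 | h6
            · rw [h6] at h5
              omega
            · exact h6
          · rw [Nat.le_div_iff_mul_le hq, mul_comm]
            omega
        · show t - j * q = t'
          rw [mul_comm]
          omega
      · right
        have h5 : t' - t = q * j := by omega
        refine ⟨j, ?_, ?_⟩
        · rw [mem_Icc]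
          constructor
          · rcases Nat.eq_zero_or_pos j with h6 | h6
            · rw [h6] at h5
              omega
            · exact h6
          · rw [Nat.le_div_iff_mul_le hq, mul_comm]
            omega
        · show t + j * q = t'
          rw [mul_comm]
          omega
    have hcard := (card_le_card hsub).trans (card_union_le _ _)
    have hc1 : ((Icc 1 (t / q)).image (fun j => t - j * q)).card ≤ t / q := by
      refine card_image_le.trans ?_
      rw [Nat.card_Icc, Nat.add_sub_cancel]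
    have hc2 : ((Icc 1 ((T - 1 - t) / q)).image (fun j => t + j * q)).card ≤ (T - 1 - t) / q := by
      refine card_image_le.trans ?_
      rw [Nat.card_Icc, Nat.add_sub_cancel]
    have h5 : ((t / q : ℕ) : ℝ) ≤ T / q := by
      refine Nat.cast_div_le.trans ?_
      apply div_le_div_of_nonneg_right _ hq0.le
      exact_mod_cast ht.le
    have h6 : (((T - 1 - t) / q : ℕ) : ℝ) ≤ T / q := by
      refine Nat.cast_div_le.trans ?_
      apply div_le_div_of_nonneg_right _ hq0.le
      exact_mod_cast (by omega : T - 1 - t ≤ T)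
    have h7 : ((((range T).filter (fun t' => t ≠ t' ∧ q ∣ ((t : ℤ) - t').natAbs)).card : ℕ) : ℝ) ≤ ((t / q : ℕ) : ℝ) + (((T - 1 - t) / q : ℕ) : ℝ) := by
      exact_mod_cast (by omega : ((range T).filter (fun t' => t ≠ t' ∧ q ∣ ((t : ℤ) - t').natAbs)).card ≤ t / q + (T - 1 - t) / q)
    calc _ ≤ _ := h7
      _ ≤ (T : ℝ) / q + T / q := add_le_add h5 h6
      _ = 2 * T / q := by ring
  unfold EqF
  refine (abs_sum_le_sum_abs _ _).trans ((sum_le_sum h1).trans ?_)
  rw [sum_const, card_range, nsmul_eq_mul]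
  apply le_of_eq
  ring

theorem prod_dvd_iff (S : Finset ℕ) (hS : ∀ p ∈ S, p.Prime) (D : ℕ) : (∏ p ∈ S, p) ∣ D ↔ ∀ p ∈ S, p ∣ D := by
  constructor
  · intro h p hp
    exact (dvd_prod_of_mem _ hp).trans h
  · intro h
    exact Finset.prod_primes_dvd D (fun p hp => (hS p hp).prime) h

/-- the bound for the off-diagonal part -/
theorem quad_bound (P : Finset ℕ) (hP : ∀ p ∈ P, p.Prime) (A B : ℕ → ℝ) (hA0 : ∀ p ∈ P, 0 ≤ A p) (hA1 : ∀ p ∈ P, A p ≤ 1)
    (hB0 : ∀ p ∈ P, 0 ≤ B p) (hB1 : ∀ p ∈ P, B p ≤ 1) (c : ℕ → ℝ) (hc : ∀ t, |c t| ≤ 1) (T Q : ℕ) (hQ : 1 ≤ Q) (δ : ℝ)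
    (hcl : ∀ q, 1 ≤ q → q ≤ Q → ∀ r < q, |∑ t ∈ (range T).filter (fun t => t % q = r), c t| ≤ δ) :
    |∑ t ∈ range T, ∑ t' ∈ range T, if t = t' then 0 else c t * c t' * ∏ p ∈ P, (A p + if p ∣ ((t : ℤ) - t').natAbs then B p else 0)| ≤
      Q * (Q * δ ^ 2 + T) + 2 * T ^ 2 / √(Q : ℝ) * ∏ p ∈ P, (1 + B p / √(p : ℝ)) := by
  classical
  have hQ0 : (0 : ℝ) < Q := by exact_mod_cast hQ
  have hexp : ∀ D : ℕ, ∏ p ∈ P, (A p + if p ∣ D then B p else 0) =
      ∑ S ∈ P.powerset, (∏ p ∈ P \ S, A p) * (∏ p ∈ S, B p) * (if (∏ p ∈ S, p) ∣ D then 1 else 0) := by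
    intro D
    rw [prod_congr rfl fun p _ => add_comm (A p) _, prod_add]
    apply sum_congr rfl
    intro S hS
    rw [mem_powerset] at hS
    have h1 : ∏ p ∈ S, (if p ∣ D then B p else 0) = (∏ p ∈ S, B p) * (if (∏ p ∈ S, p) ∣ D then 1 else 0) := by
      rw [prod_ite_zero]
      have := prod_dvd_iff S (fun p hp => hP p (hS hp)) D
      by_cases h : (∏ p ∈ S, p) ∣ D
      · rw [if_pos h, if_pos (this.1 h), mul_one]
      · rw [if_neg h, if_neg (fun h2 => h (this.2 h2)), mul_zero]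
    rw [h1]
    ring
  have hmain : ∑ t ∈ range T, ∑ t' ∈ range T, (if t = t' then 0 else c t * c t' * ∏ p ∈ P, (A p + if p ∣ ((t : ℤ) - t').natAbs then B p else 0)) =
      ∑ S ∈ P.powerset, ((∏ p ∈ P \ S, A p) * (∏ p ∈ S, B p)) * EqF c T (∏ p ∈ S, p) := by
    have h1 : ∀ t t' : ℕ, (if t = t' then 0 else c t * c t' * ∏ p ∈ P, (A p + if p ∣ ((t : ℤ) - t').natAbs then B p else 0)) =
        ∑ S ∈ P.powerset, ((∏ p ∈ P \ S, A p) * (∏ p ∈ S, B p)) *
          (if t = t' then 0 else c t * c t' * (if (∏ p ∈ S, p) ∣ ((t : ℤ) - t').natAbs then 1 else 0)) := by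
      intro t t'
      by_cases h : t = t'
      · simp [h]
      · rw [if_neg h, hexp, mul_sum]
        apply sum_congr rfl
        intro S _
        rw [if_neg h]
        ring
    simp only [h1]
    rw [sum_congr rfl fun t _ => sum_comm, sum_comm]
    apply sum_congr rfl
    intro S _
    unfold EqF
    rw [mul_sum]
    apply sum_congr rfl
    intro t _
    rw [mul_sum]
  rw [hmain]
  refine (abs_sum_le_sum_abs _ _).trans ?_
  have hpr : ∀ S ∈ P.powerset, (∀ p ∈ S, p.Prime) := fun S hS p hp => hP p (mem_powerset.1 hS hp)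
  have hpos : ∀ S ∈ P.powerset, 1 ≤ ∏ p ∈ S, p := fun S hS => Nat.one_le_iff_ne_zero.2 (prod_ne_zero_iff.2 fun p hp => (hpr S hS p hp).ne_zero)
  have hA : ∀ S ∈ P.powerset, 0 ≤ ∏ p ∈ P \ S, A p ∧ ∏ p ∈ P \ S, A p ≤ 1 := by
    intro S _
    exact ⟨prod_nonneg fun p hp => hA0 p (mem_sdiff.1 hp).1, prod_le_one (fun p hp => hA0 p (mem_sdiff.1 hp).1) fun p hp => hA1 p (mem_sdiff.1 hp).1⟩
  have hB : ∀ S ∈ P.powerset, 0 ≤ ∏ p ∈ S, B p ∧ ∏ p ∈ S, B p ≤ 1 := by
    intro S hS
    have := mem_powerset.1 hS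
    exact ⟨prod_nonneg fun p hp => hB0 p (this hp), prod_le_one (fun p hp => hB0 p (this hp)) fun p hp => hB1 p (this hp)⟩
  have hterm : ∀ S ∈ P.powerset, |((∏ p ∈ P \ S, A p) * (∏ p ∈ S, B p)) * EqF c T (∏ p ∈ S, p)| ≤
      (if (∏ p ∈ S, p) ≤ Q then (Q * δ ^ 2 + T : ℝ) else 0) + 2 * T ^ 2 / √(Q : ℝ) * ∏ p ∈ S, (B p / √(p : ℝ)) := by
    intro S hS
    have a := hA S hS
    have b := hB S hS
    have hq := hpos S hS
    set q := ∏ p ∈ S, p with hqd
    have hq0 : (0 : ℝ) < q := by exact_mod_cast hq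
    have hsq : ∏ p ∈ S, (B p / √(p : ℝ)) = (∏ p ∈ S, B p) / √(q : ℝ) := by
      rw [prod_div_distrib]
      congr 1
      have h1 : (∏ p ∈ S, √(p : ℝ)) ^ 2 = (q : ℝ) := by
        rw [← prod_pow, hqd]
        push_cast
        apply prod_congr rfl
        intro p _
        exact Real.sq_sqrt (Nat.cast_nonneg p)
      rw [← h1]
      exact (Real.sqrt_sq (prod_nonneg fun p _ => Real.sqrt_nonneg _)).symm
    rw [abs_mul, abs_mul, abs_of_nonneg a.1, abs_of_nonneg b.1, hsq]
    have hrest : 0 ≤ 2 * (T : ℝ) ^ 2 / √(Q : ℝ) * ((∏ p ∈ S, B p) / √(q : ℝ)) := by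
      have := b.1
      positivity
    split_ifs with h
    · have h1 := EqF_small c hc T q hq δ (hcl q hq h)
      have h2 : (q : ℝ) ≤ Q := by exact_mod_cast h
      have h3 : (∏ p ∈ P \ S, A p) * (∏ p ∈ S, B p) ≤ 1 := mul_le_one₀ a.2 b.1 b.2
      have h4 : |EqF c T q| ≤ Q * δ ^ 2 + T := h1.trans (by gcongr)
      calc _ ≤ 1 * (Q * δ ^ 2 + T) := mul_le_mul h3 h4 (abs_nonneg _) (by norm_num)
        _ ≤ _ := by linarith
    · rw [zero_add]
      have h1 := EqF_large c hc T q hq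
      have h2 : (Q : ℝ) ≤ q := by exact_mod_cast (by omega : Q ≤ q)
      have h3 : √(Q : ℝ) * √(q : ℝ) ≤ q := by
        calc √(Q : ℝ) * √(q : ℝ) ≤ √(q : ℝ) * √(q : ℝ) := mul_le_mul_of_nonneg_right (Real.sqrt_le_sqrt h2) (Real.sqrt_nonneg _)
          _ = q := Real.mul_self_sqrt hq0.le
      have h4 : 2 * (T : ℝ) ^ 2 / q ≤ 2 * T ^ 2 / (√(Q : ℝ) * √(q : ℝ)) := by
        apply div_le_div_of_nonneg_left (by positivity) _ h3
        have := Real.sqrt_pos.2 hQ0
        have := Real.sqrt_pos.2 hq0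
        positivity
      calc (∏ p ∈ P \ S, A p) * (∏ p ∈ S, B p) * |EqF c T q| ≤ (1 * ∏ p ∈ S, B p) * (2 * T ^ 2 / (√(Q : ℝ) * √(q : ℝ))) := by
            apply mul_le_mul _ (h1.trans h4) (abs_nonneg _) (by linarith [b.1])
            exact mul_le_mul_of_nonneg_right a.2 b.1
        _ = _ := by
            have := (Real.sqrt_pos.2 hQ0).ne'
            have := (Real.sqrt_pos.2 hq0).ne'
            field_simp
  refine (sum_le_sum hterm).trans ?_
  rw [sum_add_distrib, ← mul_sum]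
  apply add_le_add
  · rw [← sum_filter, sum_const, nsmul_eq_mul]
    apply mul_le_mul_of_nonneg_right _ (by positivity)
    have : (P.powerset.filter (fun S => ∏ p ∈ S, p ≤ Q)).card ≤ (Icc 1 Q).card := by
      apply card_le_card_of_injOn (fun S => ∏ p ∈ S, p)
      · intro S hS
        rw [Finset.mem_coe, mem_filter] at hS
        rw [Finset.mem_coe, mem_Icc]
        exact ⟨hpos S hS.1, hS.2⟩
      · intro S hS S' hS' h
        rw [Finset.mem_coe, mem_filter] at hS hS'
        have h1 := Nat.primeFactors_prod (hpr S hS.1)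
        have h2 := Nat.primeFactors_prod (hpr S' hS'.1)
        simp only at h
        rw [← h1, ← h2, h]
    rw [Nat.card_Icc, Nat.add_sub_cancel] at this
    exact_mod_cast this
  · apply mul_le_mul_of_nonneg_left _ (by positivity)
    rw [prod_congr rfl fun p _ => add_comm (1 : ℝ) _, prod_add_one]

end

end Run7.h402.PC
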