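import Mathlib
import Pool.Agent.Run7.h402.PC.C1
import Pool.Agent.Run7.h402.PC.C2

/-!
# The quadratic form with the correlations of the model
-/

set_option autoImplicit false

open Finset

namespace Run7.h402.PC

open Run7.h402.PX Run7.h402.PV Run7.h402.PD
open Pool.Agent.H373R2.T7 (Vz Vz_inv_small Vz_pos Vz_le_one lamz lamz_nonneg pz mem_pz)

noncomputable section

/-- the generic part of the `K`-th power of the local factor -/
def Ak (K p : ℕ) : ℝ := ((1 - 1 / (p : ℝ))⁻¹ ^ 2 * (1 - 2 / (p : ℝ))) ^ K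

/-- the extra part of the `K`-th power of the local factor -/
def Bk (K p : ℕ) : ℝ := ((1 - 1 / (p : ℝ))⁻¹ ^ 2 * (1 - 1 / (p : ℝ))) ^ K - Ak K p

theorem AB_facts (K p : ℕ) (hp : 8 * K < p) (hp2 : 3 ≤ p) :
    0 ≤ Ak K p ∧ Ak K p ≤ 1 ∧ 0 ≤ Bk K p ∧ Bk K p ≤ 8 * K / p ∧ Bk K p ≤ 1 := by
  have hp0 : (0 : ℝ) < p := by exact_mod_cast (by omega : 0 < p)
  have hp3 : (3 : ℝ) ≤ p := by exact_mod_cast hp2
  have hpK : 8 * (K : ℝ) < p := by exact_mod_cast hp
  have hK0 : (0 : ℝ) ≤ K := Nat.cast_nonneg K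
  set x : ℝ := 1 / p with hx
  have hx0 : 0 < x := by positivity
  have hx3 : x ≤ 1 / 3 := by
    rw [hx]
    exact div_le_div_of_nonneg_left (by norm_num) (by norm_num) hp3
  have hKx : 8 * (K : ℝ) * x ≤ 1 := by
    rw [hx, mul_one_div, div_le_one hp0]
    exact hpK.le
  have h2p : 2 / (p : ℝ) = 2 * x := by rw [hx]; ring
  have hy : 0 < 1 - x := by linarith
  have hbase : (1 - x)⁻¹ ^ 2 * (1 - 2 * x) = 1 - (x / (1 - x)) ^ 2 := by
    field_simp
    ring
  have hbase2 : (1 - x)⁻¹ ^ 2 * (1 - x) = (1 - x)⁻¹ := by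
    field_simp
  have hA : Ak K p = (1 - (x / (1 - x)) ^ 2) ^ K := by
    unfold Ak
    rw [h2p, ← hbase]
  have hB : Bk K p = (1 - x)⁻¹ ^ K - Ak K p := by
    unfold Bk
    rw [hbase2]
  set r : ℝ := (x / (1 - x)) ^ 2 with hr
  have hr0 : 0 ≤ r := sq_nonneg _
  have hx1 : x / (1 - x) ≤ 3 / 2 * x := by
    rw [div_le_iff₀ hy]
    nlinarith
  have hxx : 0 ≤ x / (1 - x) := by positivity
  have hr1 : r ≤ x := by
    rw [hr]
    calc (x / (1 - x)) ^ 2 ≤ (3 / 2 * x) ^ 2 := pow_le_pow_left₀ hxx hx1 2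
      _ ≤ x := by nlinarith
  have a0 : 0 ≤ 1 - r := by linarith
  have hA0 : 0 ≤ Ak K p := by rw [hA]; positivity
  have hA1 : Ak K p ≤ 1 := by rw [hA]; exact pow_le_one₀ a0 (by linarith)
  have hA2 : 1 - K * x ≤ Ak K p := by
    rw [hA]
    have h1 := one_add_mul_le_pow (by linarith : (-2 : ℝ) ≤ -r) K
    have h2 : (1 : ℝ) + -r = 1 - r := by ring
    rw [h2] at h1
    refine le_trans ?_ h1
    have : K * r ≤ K * x := mul_le_mul_of_nonneg_left hr1 hK0
    linarith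
  have hi1 : 1 ≤ (1 - x)⁻¹ := (one_le_inv₀ hy).2 (by linarith)
  have hP1 : 1 ≤ (1 - x)⁻¹ ^ K := one_le_pow₀ hi1
  have hP2 : (1 - x)⁻¹ ^ K ≤ 1 + 6 * K * x := by
    have h1 : (1 - x)⁻¹ ≤ Real.exp (2 * x) := by
      have h2 : (1 - x)⁻¹ ≤ 1 + 2 * x := by
        rw [inv_le_iff_one_le_mul₀ hy]
        nlinarith
      have h3 := Real.add_one_le_exp (2 * x)
      linarith
    calc (1 - x)⁻¹ ^ K ≤ (Real.exp (2 * x)) ^ K := pow_le_pow_left₀ (by linarith) h1 K
      _ = Real.exp (K * (2 * x)) := (Real.exp_nat_mul _ _).symm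
      _ ≤ 1 + 6 * K * x := by
          have h4 : |K * (2 * x)| ≤ 1 := by
            rw [abs_of_nonneg (by positivity)]
            linarith
          have h5 := Real.abs_exp_sub_one_le h4
          rw [abs_of_nonneg (by positivity : 0 ≤ K * (2 * x))] at h5
          have h6 := (abs_le.1 h5).2
          nlinarith
  have hB0 : 0 ≤ Bk K p := by rw [hB]; linarith
  have hB1 : Bk K p ≤ 8 * K * x := by
    rw [hB]
    have : 0 ≤ K * x := by positivity
    linarith
  refine ⟨hA0, hA1, hB0, ?_, by linarith⟩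
  rw [hx] at hB1
  rw [mul_one_div] at hB1
  exact hB1

theorem Gd_pow (w z D K : ℕ) : Gd w z D ^ K = ∏ p ∈ pwz w z, (Ak K p + if p ∣ D then Bk K p else 0) := by
  unfold Gd
  rw [← prod_pow]
  apply prod_congr rfl
  intro p _
  unfold Bk
  split_ifs with h
  · rw [add_sub_cancel]
  · rw [add_zero]
    unfold Ak
    rfl

theorem sum_three (z : ℕ) (hz : 1 ≤ z) : ∑ n ∈ Icc 2 z, 1 / ((n : ℝ) * √(n : ℝ)) ≤ 2 - 2 / √(z : ℝ) := by
  induction z, hz using Nat.le_induction with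
  | base => simp
  | succ m hm ih =>
      rw [sum_Icc_succ_top (by omega)]
      have hm0 : (0 : ℝ) < m := by exact_mod_cast hm
      have hM0 : (0 : ℝ) < ((m + 1 : ℕ) : ℝ) := by positivity
      set a := √(m : ℝ) with ha
      set b := √(((m + 1 : ℕ)) : ℝ) with hb
      have ha0 : 0 < a := Real.sqrt_pos.2 hm0
      have hb0 : 0 < b := Real.sqrt_pos.2 hM0
      have ha2 : a ^ 2 = m := Real.sq_sqrt hm0.le
      have hb2 : b ^ 2 = ((m + 1 : ℕ) : ℝ) := Real.sq_sqrt hM0.le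
      have hab : a ≤ b := Real.sqrt_le_sqrt (by exact_mod_cast (Nat.le_succ m))
      have hd : b ^ 2 - a ^ 2 = 1 := by rw [ha2, hb2]; push_cast; ring
      have key : 1 / (((m + 1 : ℕ) : ℝ) * b) ≤ 2 / a - 2 / b := by
        rw [← hb2, div_sub_div _ _ ha0.ne' hb0.ne', div_le_div_iff₀ (by positivity) (by positivity)]
        have e1 : 2 * b - a * 2 = 2 * (b - a) := by ring
        have h2 : (b - a) * (b + a) = 1 := by
          have : (b - a) * (b + a) = b ^ 2 - a ^ 2 := by ring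
          rw [this, hd]
        have h3 : 0 ≤ b - a := by linarith
        have h4 : b + a ≤ 2 * b := by linarith
        -- 1 * (a * b) ≤ (2*(b-a)) * (b^2 * b)
        have h5 : 1 ≤ (b - a) * (2 * b) := by
          rw [← h2]
          exact mul_le_mul_of_nonneg_left h4 h3
        have h6 : a * b ≤ b * b := mul_le_mul_of_nonneg_right hab hb0.le
        calc 1 * (a * b) ≤ b * b := by linarith
          _ = 1 * (b * b) := by ring
          _ ≤ ((b - a) * (2 * b)) * (b * b) := mul_le_mul_of_nonneg_right h5 (by positivity)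
          _ = (2 * b - a * 2) * (b ^ 2 * b) := by ring
      linarith

theorem prod_exp (K w z : ℕ) (hw : 8 * K ≤ w) (hw2 : 2 ≤ w) :
    ∏ p ∈ pwz w z, (1 + Bk K p / √(p : ℝ)) ≤ Real.exp (16 * K) := by
  have hK0 : (0 : ℝ) ≤ K := Nat.cast_nonneg K
  have h1 : ∏ p ∈ pwz w z, (1 + Bk K p / √(p : ℝ)) ≤ ∏ p ∈ pwz w z, Real.exp (8 * K * (1 / ((p : ℝ) * √(p : ℝ)))) := by
    apply prod_le_prod
    · intro p hp
      rw [mem_pwz] at hp
      have := (AB_facts K p (by omega) (by omega)).2.2.1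
      positivity
    · intro p hp
      rw [mem_pwz] at hp
      have hp0 : (0 : ℝ) < p := by exact_mod_cast hp.1.pos
      have h2 := (AB_facts K p (by omega) (by omega)).2.2.2.1
      have h3 := Real.add_one_le_exp (8 * K * (1 / ((p : ℝ) * √(p : ℝ))))
      have h4 : Bk K p / √(p : ℝ) ≤ 8 * K * (1 / ((p : ℝ) * √(p : ℝ))) := by
        have hs : 0 < √(p : ℝ) := Real.sqrt_pos.2 hp0
        calc Bk K p / √(p : ℝ) ≤ (8 * K / p) / √(p : ℝ) := div_le_div_of_nonneg_right h2 hs.le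
          _ = _ := by field_simp
      linarith
  refine h1.trans ?_
  rw [← Real.exp_sum, ← mul_sum]
  apply Real.exp_le_exp.2
  rcases Nat.eq_zero_or_pos z with hz | hz
  · have : pwz w z = ∅ := by
      ext p
      rw [mem_pwz]
      simp only [notMem_empty, iff_false]
      intro h
      have := h.1.pos
      omega
    rw [this, sum_empty, mul_zero]
    positivity
  · have h2 : ∑ p ∈ pwz w z, 1 / ((p : ℝ) * √(p : ℝ)) ≤ ∑ n ∈ Icc 2 z, 1 / ((n : ℝ) * √(n : ℝ)) := by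
      apply sum_le_sum_of_subset_of_nonneg
      · intro p hp
        rw [mem_pwz] at hp
        rw [mem_Icc]
        exact ⟨hp.1.two_le, hp.2.2⟩
      · intro n _ _
        positivity
    have h3 := sum_three z hz
    have h4 : (0 : ℝ) ≤ 2 / √(z : ℝ) := by positivity
    nlinarith

theorem Gd_nonneg (w z D : ℕ) (hw : 2 ≤ w) : 0 ≤ Gd w z D := by
  unfold Gd
  apply prod_nonneg
  intro p hp
  rw [mem_pwz] at hp
  have hp3 : (3 : ℝ) ≤ p := by exact_mod_cast (by omega : 3 ≤ p)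
  have hp0 : (0 : ℝ) < p := by linarith
  apply mul_nonneg (sq_nonneg _)
  have : ((if p ∣ D then 1 else 2 : ℝ)) / p ≤ 2 / p := by
    apply div_le_div_of_nonneg_right _ hp0.le
    split_ifs <;> norm_num
  have h2 : (2 : ℝ) / p ≤ 1 := by
    rw [div_le_one hp0]
    linarith
  linarith

/-- the correlations are at most the density -/
theorem Gd_le (w z D : ℕ) (hw : 2 ≤ w) (hwz : w ≤ z) : (Vz w)⁻¹ ^ 2 * Gd w z D ≤ (Vz z)⁻¹ ^ 2 := by
  have h1 : Gd w z D ≤ ∏ p ∈ pwz w z, (1 - 1 / (p : ℝ))⁻¹ ^ 2 := by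
    unfold Gd
    apply prod_le_prod
    · intro p hp
      rw [mem_pwz] at hp
      have hp3 : (3 : ℝ) ≤ p := by exact_mod_cast (by omega : 3 ≤ p)
      have hp0 : (0 : ℝ) < p := by linarith
      apply mul_nonneg (sq_nonneg _)
      have : ((if p ∣ D then 1 else 2 : ℝ)) / p ≤ 2 / p := by
        apply div_le_div_of_nonneg_right _ hp0.le
        split_ifs <;> norm_num
      have h2 : (2 : ℝ) / p ≤ 1 := by
        rw [div_le_one hp0]
        linarith
      linarith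
    · intro p hp
      apply mul_le_of_le_one_right (sq_nonneg _)
      have : 0 ≤ ((if p ∣ D then 1 else 2 : ℝ)) / p := by split_ifs <;> positivity
      linarith
  have h2 : (Vz z)⁻¹ = (Vz w)⁻¹ * ∏ p ∈ pwz w z, (1 - 1 / (p : ℝ))⁻¹ := by
    unfold Vz
    rw [← prod_inv_distrib, ← prod_inv_distrib, ← prod_filter_mul_prod_filter_not (pz z) (fun p => w < p), mul_comm]
    congr 1
    have e2 : (pz z).filter (fun p => ¬ w < p) = pz w := by
      ext p
      rw [mem_filter, mem_pz, mem_pz]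
      constructor
      · rintro ⟨⟨_, h8⟩, h9⟩
        exact ⟨by omega, h8⟩
      · rintro ⟨h8, h9⟩
        exact ⟨⟨h8.trans hwz, h9⟩, by omega⟩
    rw [e2]
  rw [h2, mul_pow, ← prod_pow]
  apply mul_le_mul_of_nonneg_left h1 (sq_nonneg _)

/-- the quadratic form -/
theorem quad_G (w z K : ℕ) (hw : 8 * K ≤ w) (hw2 : 2 ≤ w) (hwz : w ≤ z) (c : ℕ → ℝ) (hc : ∀ t, |c t| ≤ 1) (T Q : ℕ) (hQ : 1 ≤ Q) (δ : ℝ)
    (hcl : ∀ q, 1 ≤ q → q ≤ Q → ∀ r < q, |∑ t ∈ (range T).filter (fun t => t % q = r), c t| ≤ δ) :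
    |∑ t ∈ range T, ∑ t' ∈ range T, c t * c t' * Gd w z ((t : ℤ) - t').natAbs ^ K| ≤
      Q * (Q * δ ^ 2 + T) + 2 * T ^ 2 / √(Q : ℝ) * Real.exp (16 * K) + T * ((Vz z)⁻¹ ^ 2) ^ K := by
  have hVw : 1 ≤ (Vz w)⁻¹ := (one_le_inv₀ (Vz_pos w)).2 (Vz_le_one w)
  have h1 : ∑ t ∈ range T, ∑ t' ∈ range T, c t * c t' * Gd w z ((t : ℤ) - t').natAbs ^ K =
      ∑ t ∈ range T, ∑ t' ∈ range T, (if t = t' then 0 else c t * c t' * ∏ p ∈ pwz w z, (Ak K p + if p ∣ ((t : ℤ) - t').natAbs then Bk K p else 0)) +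
      ∑ t ∈ range T, c t ^ 2 * Gd w z 0 ^ K := by
    rw [← sum_add_distrib]
    apply sum_congr rfl
    intro t ht
    have h3 : c t ^ 2 * Gd w z 0 ^ K = ∑ t' ∈ range T, if t = t' then c t * c t' * Gd w z ((t : ℤ) - t').natAbs ^ K else 0 := by
      rw [sum_ite_eq, if_pos ht]
      simp [pow_two]
    rw [h3, ← sum_add_distrib]
    apply sum_congr rfl
    intro t' _
    rw [Gd_pow]
    split_ifs <;> simp
  rw [h1]
  refine (abs_add_le _ _).trans ?_
  apply add_le_add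
  · have hpr : ∀ p ∈ pwz w z, p.Prime ∧ 8 * K < p ∧ 3 ≤ p := by
      intro p hp
      rw [mem_pwz] at hp
      exact ⟨hp.1, by omega, by omega⟩
    have h2 := quad_bound (pwz w z) (fun p hp => (hpr p hp).1) (Ak K) (Bk K)
      (fun p hp => (AB_facts K p (hpr p hp).2.1 (hpr p hp).2.2).1) (fun p hp => (AB_facts K p (hpr p hp).2.1 (hpr p hp).2.2).2.1)
      (fun p hp => (AB_facts K p (hpr p hp).2.1 (hpr p hp).2.2).2.2.1) (fun p hp => (AB_facts K p (hpr p hp).2.1 (hpr p hp).2.2).2.2.2.2)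
      c hc T Q hQ δ hcl
    refine h2.trans ?_
    apply add_le_add le_rfl
    apply mul_le_mul_of_nonneg_left (prod_exp K w z hw hw2)
    positivity
  · refine (abs_sum_le_sum_abs _ _).trans ?_
    have h2 : Gd w z 0 ≤ (Vz z)⁻¹ ^ 2 := by
      have h3 := Gd_le w z 0 hw2 hwz
      have h4 := Gd_nonneg w z 0 hw2
      have h5 : 1 ≤ (Vz w)⁻¹ ^ 2 := one_le_pow₀ hVw
      nlinarith
    calc ∑ t ∈ range T, |c t ^ 2 * Gd w z 0 ^ K| ≤ ∑ _t ∈ range T, ((Vz z)⁻¹ ^ 2) ^ K := by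
          apply sum_le_sum
          intro t _
          have h4 := Gd_nonneg w z 0 hw2
          rw [abs_mul, abs_of_nonneg (sq_nonneg _), abs_of_nonneg (by positivity : 0 ≤ Gd w z 0 ^ K)]
          have h5 : c t ^ 2 ≤ 1 := by
            rw [← sq_abs]
            exact pow_le_one₀ (abs_nonneg _) (hc t)
          calc c t ^ 2 * Gd w z 0 ^ K ≤ 1 * ((Vz z)⁻¹ ^ 2) ^ K := by
                apply mul_le_mul h5 (pow_le_pow_left₀ h4 h2 K) (by positivity) (by norm_num)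
            _ = _ := one_mul _
      _ = T * ((Vz z)⁻¹ ^ 2) ^ K := by simp

end

end Run7.h402.PC
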