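import Mathlib
import Pool.Agent.Run7.h402.PC.C3
import Pool.Agent.Run7.h402.PY.Y4

/-!
# The sum of a weight and the model: one residue class, and the sum over the classes
-/

set_option autoImplicit false

open Finset

namespace Run7.h402.PC

open Run7.h402.PX Run7.h402.PV Run7.h402.PD
open Run7.h402.PY (pi_split')
open Pool.Agent.H373R2.T7 (Vz Vz_inv_small Vz_pos Vz_le_one lamz lamz_nonneg pz mem_pz)

noncomputable section

theorem Gd_mul (w z D : ℕ) : Gd w z (Wm w * D) = Gd w z D := by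
  unfold Gd
  apply prod_congr rfl
  intro p hp
  rw [mem_pwz] at hp
  have h1 : ¬ p ∣ Wm w := fun h => by
    have := (dvd_Wm w p hp.1).1 h
    omega
  have h2 : p ∣ Wm w * D ↔ p ∣ D := by
    rw [hp.1.dvd_mul]
    tauto
  by_cases h : p ∣ D
  · rw [if_pos h, if_pos (h2.2 h)]
  · rw [if_neg h, if_neg (fun h3 => h (h2.1 h3))]

/-- the difference of two products -/
theorem prod_diff {ι : Type} [DecidableEq ι] (s : Finset ι) (U x y : ι → ℝ) (η M : ℝ) (hη : 0 ≤ η) (hM : 1 ≤ M) (hU : ∀ i ∈ s, 0 ≤ U i)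
    (hx : ∀ i ∈ s, |x i| ≤ U i * M) (hy : ∀ i ∈ s, |y i| ≤ U i * M) (hxy : ∀ i ∈ s, |x i - y i| ≤ U i * η) :
    |∏ i ∈ s, x i - ∏ i ∈ s, y i| ≤ (∏ i ∈ s, U i) * (s.card * η * M ^ s.card) := by
  induction s using Finset.induction_on with
  | empty => simp
  | insert a s ha ih =>
      rw [prod_insert ha, prod_insert ha, prod_insert ha, card_insert_of_notMem ha]
      have h1 := ih (fun i hi => hU i (mem_insert_of_mem hi)) (fun i hi => hx i (mem_insert_of_mem hi)) (fun i hi => hy i (mem_insert_of_mem hi))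
        (fun i hi => hxy i (mem_insert_of_mem hi))
      have hUa := hU a (mem_insert_self a s)
      have hP : 0 ≤ ∏ i ∈ s, U i := prod_nonneg fun i hi => hU i (mem_insert_of_mem hi)
      have h2 : |∏ i ∈ s, x i| ≤ (∏ i ∈ s, U i) * M ^ s.card := by
        rw [abs_prod, ← prod_const, ← prod_mul_distrib]
        exact prod_le_prod (fun i _ => abs_nonneg _) fun i hi => hx i (mem_insert_of_mem hi)
      have e : x a * ∏ i ∈ s, x i - y a * ∏ i ∈ s, y i = (x a - y a) * ∏ i ∈ s, x i + y a * (∏ i ∈ s, x i - ∏ i ∈ s, y i) := by ring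
      rw [e]
      refine (abs_add_le _ _).trans ?_
      rw [abs_mul, abs_mul]
      have h3 : |x a - y a| * |∏ i ∈ s, x i| ≤ (U a * η) * ((∏ i ∈ s, U i) * M ^ s.card) :=
        mul_le_mul (hxy a (mem_insert_self a s)) h2 (abs_nonneg _) (by positivity)
      have h4 : |y a| * |∏ i ∈ s, x i - ∏ i ∈ s, y i| ≤ (U a * M) * ((∏ i ∈ s, U i) * (s.card * η * M ^ s.card)) :=
        mul_le_mul (hy a (mem_insert_self a s)) h1 (abs_nonneg _) (by positivity)
      have h5 : (U a * η) * ((∏ i ∈ s, U i) * M ^ s.card) ≤ (U a * η) * ((∏ i ∈ s, U i) * M ^ (s.card + 1)) := by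
        apply mul_le_mul_of_nonneg_left _ (by positivity)
        apply mul_le_mul_of_nonneg_left _ hP
        exact pow_le_pow_right₀ hM (by omega)
      push_cast
      calc _ ≤ (U a * η) * ((∏ i ∈ s, U i) * M ^ (s.card + 1)) + (U a * M) * ((∏ i ∈ s, U i) * (s.card * η * M ^ s.card)) := by linarith
        _ = _ := by rw [pow_succ]; ring

/-- the square of the sums over a product set -/
theorem sq_exact {K : ℕ} (T : ℕ) (U : Fin K → ℕ) (c : ℕ → ℝ) (R : Fin K → ℕ → ℕ → ℝ) :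
    (∑ u ∈ Fintype.piFinset (fun i : Fin K => range (U i)), |∑ t ∈ range T, c t * ∏ i, R i t (u i)|) ^ 2 ≤
      (∏ i, (U i : ℝ)) * ∑ t ∈ range T, ∑ t' ∈ range T, c t * c t' * ∏ i, ∑ u ∈ range (U i), R i t u * R i t' u := by
  set Om := Fintype.piFinset (fun i : Fin K => range (U i)) with hOm
  have hcard : (Om.card : ℝ) = ∏ i, (U i : ℝ) := by
    rw [hOm, Fintype.card_piFinset]
    simp
  have h1 : (∑ u ∈ Om, |∑ t ∈ range T, c t * ∏ i, R i t (u i)|) ^ 2 ≤ Om.card * ∑ u ∈ Om, (|∑ t ∈ range T, c t * ∏ i, R i t (u i)|) ^ 2 :=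
    sq_sum_le_card_mul_sum_sq
  rw [hcard] at h1
  refine h1.trans (le_of_eq ?_)
  congr 1
  have h2 : ∀ u ∈ Om, (|∑ t ∈ range T, c t * ∏ i, R i t (u i)|) ^ 2 =
      ∑ t ∈ range T, ∑ t' ∈ range T, c t * c t' * ∏ i, (R i t (u i) * R i t' (u i)) := by
    intro u _
    rw [sq_abs, pow_two, sum_mul_sum]
    apply sum_congr rfl
    intro t _
    apply sum_congr rfl
    intro t' _
    rw [prod_mul_distrib]
    ring
  rw [sum_congr rfl h2, sum_comm]
  apply sum_congr rfl
  intro t _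
  rw [sum_comm]
  apply sum_congr rfl
  intro t' _
  rw [← mul_sum]
  congr 1
  rw [hOm, ← prod_univ_sum (fun i : Fin K => range (U i)) (fun i u => R i t u * R i t' u)]

/-- the sum of a weight and the model in one residue class -/
theorem line_M {K : ℕ} (T : ℕ) (U : Fin K → ℕ) (w z ρ : ℕ) (hw : 8 * K ≤ w) (hw2 : 2 ≤ w) (hwz : w ≤ z) (q r : Fin K → ℕ)
    (hr : ∀ i, Nat.Coprime (Wm w) (r i)) (c : ℕ → ℝ) (hc : ∀ t, |c t| ≤ 1) (Q : ℕ) (hQ : 1 ≤ Q) (δ η : ℝ) (hη : 0 ≤ η) (hη1 : η ≤ 1)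
    (hcl : ∀ q, 1 ≤ q → q ≤ Q → ∀ r < q, |∑ t ∈ (range T).filter (fun t => t % q = r), c t| ≤ δ)
    (hU : ∀ i, (Vz z)⁻¹ ^ 2 * (((((z : ℝ) + 1) * (2 : ℕ)) ^ ρ + 2 * U i * Real.exp (3 * ((2 : ℕ) * (1 + Real.log z)) - ρ)) + 2 * ((z : ℝ) + 1)) ≤ U i * η) :
    ∑ u ∈ Fintype.piFinset (fun i : Fin K => range (U i)), |∑ t ∈ range T, c t * ∏ i, gp z (Wm w * (t + u i + q i) + r i)| ≤
      (∏ i, (U i : ℝ)) * √(((Vz w)⁻¹ ^ 2) ^ K * (Q * (Q * δ ^ 2 + T) + 2 * T ^ 2 / √(Q : ℝ) * Real.exp (16 * K) + T * ((Vz z)⁻¹ ^ 2) ^ K) +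
        T ^ 2 * (K * η * ((Vz z)⁻¹ ^ 2 + 1) ^ K)) := by
  set W := Wm w with hW
  have hz1 : 1 ≤ z := by omega
  set V2 : ℝ := (Vz w)⁻¹ ^ 2 with hV2
  set M : ℝ := (Vz z)⁻¹ ^ 2 + 1 with hM
  have hV20 : 0 ≤ V2 := sq_nonneg _
  have hM1 : 1 ≤ M := by
    rw [hM]
    have := sq_nonneg (Vz z)⁻¹
    linarith
  have hPU : 0 ≤ ∏ i, (U i : ℝ) := prod_nonneg fun i _ => Nat.cast_nonneg _
  have hUn : ∀ i, (0 : ℝ) ≤ U i := fun i => Nat.cast_nonneg _
  have h1 := sq_exact T U c (fun i t u => gp z (W * (t + u + q i) + r i))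
  set E : ℝ := Q * (Q * δ ^ 2 + T) + 2 * T ^ 2 / √(Q : ℝ) * Real.exp (16 * K) + T * ((Vz z)⁻¹ ^ 2) ^ K with hE
  -- the pair correlations
  have hpair : ∀ i : Fin K, ∀ t t' : ℕ, |∑ u ∈ range (U i), gp z (W * (t + u + q i) + r i) * gp z (W * (t' + u + q i) + r i) -
      U i * (V2 * Gd w z ((t : ℤ) - t').natAbs)| ≤ U i * η := by
    intro i t t'
    have h2 := pair_asym w z (U i) ρ (W * (t + q i) + r i) (W * (t' + q i) + r i)
      (by rw [hW]; rw [Nat.coprime_mul_left_add_right]; exact hr i) (by rw [hW]; rw [Nat.coprime_mul_left_add_right]; exact hr i) hz1 hwz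
    have e1 : (((W * (t + q i) + r i : ℕ) : ℤ) - ((W * (t' + q i) + r i : ℕ) : ℤ)).natAbs = W * ((t : ℤ) - t').natAbs := by
      have e2 : (((W * (t + q i) + r i : ℕ) : ℤ) - ((W * (t' + q i) + r i : ℕ) : ℤ)) = W * ((t : ℤ) - t') := by
        push_cast
        ring
      rw [e2, Int.natAbs_mul, Int.natAbs_natCast]
    rw [e1, ← hW] at h2
    have e3 : Gd w z (W * ((t : ℤ) - t').natAbs) = Gd w z ((t : ℤ) - t').natAbs := Gd_mul w z _
    rw [e3] at h2
    refine le_trans (le_of_eq ?_) (h2.trans (hU i))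
    congr 2
    apply sum_congr rfl
    intro u _
    congr 2 <;> ring
  have hGd : ∀ D : ℕ, 0 ≤ V2 * Gd w z D ∧ V2 * Gd w z D ≤ M := by
    intro D
    refine ⟨mul_nonneg hV20 (Gd_nonneg w z D hw2), ?_⟩
    have := Gd_le w z D hw2 hwz
    rw [hM]
    linarith
  have hGd1 : ∀ D : ℕ, V2 * Gd w z D + η ≤ M := by
    intro D
    have := Gd_le w z D hw2 hwz
    rw [hM]
    linarith
  have hterm : ∀ t t' : ℕ, |∏ i, ∑ u ∈ range (U i), gp z (W * (t + u + q i) + r i) * gp z (W * (t' + u + q i) + r i) -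
      ∏ i, (U i * (V2 * Gd w z ((t : ℤ) - t').natAbs))| ≤ (∏ i, (U i : ℝ)) * (K * η * M ^ K) := by
    intro t t'
    have h2 := prod_diff (univ : Finset (Fin K)) (fun i => (U i : ℝ)) (fun i => ∑ u ∈ range (U i), gp z (W * (t + u + q i) + r i) * gp z (W * (t' + u + q i) + r i))
      (fun i => U i * (V2 * Gd w z ((t : ℤ) - t').natAbs)) η M hη hM1 (fun i _ => hUn i) (by
        intro i _
        have h3 := hpair i t t'
        have h4 := hGd1 ((t : ℤ) - t').natAbs
        have h5 := hGd ((t : ℤ) - t').natAbs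
        have h6 := abs_le.1 h3
        rw [abs_of_nonneg (sum_nonneg fun u _ => mul_nonneg (gp_nonneg _ _) (gp_nonneg _ _))]
        calc _ ≤ (U i : ℝ) * (V2 * Gd w z ((t : ℤ) - t').natAbs) + U i * η := by linarith [h6.2]
          _ = U i * (V2 * Gd w z ((t : ℤ) - t').natAbs + η) := by ring
          _ ≤ U i * M := mul_le_mul_of_nonneg_left h4 (hUn i)) (by
        intro i _
        have h5 := hGd ((t : ℤ) - t').natAbs
        rw [abs_of_nonneg (mul_nonneg (hUn i) h5.1)]
        exact mul_le_mul_of_nonneg_left h5.2 (hUn i)) (fun i _ => hpair i t t')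
    rw [card_univ, Fintype.card_fin] at h2
    exact h2
  -- the main term
  have hquad := quad_G w z K hw hw2 hwz c hc T Q hQ δ hcl
  have hsum : ∑ t ∈ range T, ∑ t' ∈ range T, c t * c t' * ∏ i, ∑ u ∈ range (U i), gp z (W * (t + u + q i) + r i) * gp z (W * (t' + u + q i) + r i) ≤
      (∏ i, (U i : ℝ)) * (V2 ^ K * E + T ^ 2 * (K * η * M ^ K)) := by
    have e1 : ∑ t ∈ range T, ∑ t' ∈ range T, c t * c t' * ∏ i, ∑ u ∈ range (U i), gp z (W * (t + u + q i) + r i) * gp z (W * (t' + u + q i) + r i) =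
        (∏ i, (U i : ℝ)) * (V2 ^ K * ∑ t ∈ range T, ∑ t' ∈ range T, c t * c t' * Gd w z ((t : ℤ) - t').natAbs ^ K) +
        ∑ t ∈ range T, ∑ t' ∈ range T, c t * c t' * (∏ i, ∑ u ∈ range (U i), gp z (W * (t + u + q i) + r i) * gp z (W * (t' + u + q i) + r i) -
          ∏ i, (U i * (V2 * Gd w z ((t : ℤ) - t').natAbs))) := by
      rw [← mul_assoc, mul_sum, ← sum_add_distrib]
      apply sum_congr rfl
      intro t _
      rw [mul_sum, ← sum_add_distrib]
      apply sum_congr rfl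
      intro t' _
      have e2 : ∏ i : Fin K, ((U i : ℝ) * (V2 * Gd w z ((t : ℤ) - t').natAbs)) = (∏ i, (U i : ℝ)) * (V2 ^ K * Gd w z ((t : ℤ) - t').natAbs ^ K) := by
        rw [prod_mul_distrib, prod_const, card_univ, Fintype.card_fin, mul_pow]
      rw [e2]
      ring
    rw [e1, mul_add]
    apply add_le_add
    · apply mul_le_mul_of_nonneg_left _ hPU
      apply mul_le_mul_of_nonneg_left _ (by positivity)
      exact (le_abs_self _).trans hquad
    · refine (le_abs_self _).trans ((abs_sum_le_sum_abs _ _).trans ?_)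
      have h3 : ∀ t ∈ range T, |∑ t' ∈ range T, c t * c t' * (∏ i, ∑ u ∈ range (U i), gp z (W * (t + u + q i) + r i) * gp z (W * (t' + u + q i) + r i) -
          ∏ i, (U i * (V2 * Gd w z ((t : ℤ) - t').natAbs)))| ≤ T * ((∏ i, (U i : ℝ)) * (K * η * M ^ K)) := by
        intro t _
        refine (abs_sum_le_sum_abs _ _).trans ?_
        have h4 : ∀ t' ∈ range T, |c t * c t' * (∏ i, ∑ u ∈ range (U i), gp z (W * (t + u + q i) + r i) * gp z (W * (t' + u + q i) + r i) -
          ∏ i, (U i * (V2 * Gd w z ((t : ℤ) - t').natAbs)))| ≤ (∏ i, (U i : ℝ)) * (K * η * M ^ K) := by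
          intro t' _
          rw [abs_mul]
          have h5 : |c t * c t'| ≤ 1 := by
            rw [abs_mul]
            exact mul_le_one₀ (hc t) (abs_nonneg _) (hc t')
          calc _ ≤ 1 * |∏ i, ∑ u ∈ range (U i), gp z (W * (t + u + q i) + r i) * gp z (W * (t' + u + q i) + r i) -
          ∏ i, (U i * (V2 * Gd w z ((t : ℤ) - t').natAbs))| := mul_le_mul_of_nonneg_right h5 (abs_nonneg _)
            _ ≤ _ := by rw [one_mul]; exact hterm t t'
        refine (sum_le_sum h4).trans ?_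
        rw [sum_const, card_range, nsmul_eq_mul]
      refine (sum_le_sum h3).trans ?_
      rw [sum_const, card_range, nsmul_eq_mul]
      apply le_of_eq
      ring
  have hE0 : 0 ≤ E := (abs_nonneg _).trans hquad
  have hfin : (∑ u ∈ Fintype.piFinset (fun i : Fin K => range (U i)), |∑ t ∈ range T, c t * ∏ i, gp z (W * (t + u i + q i) + r i)|) ^ 2 ≤
      (∏ i, (U i : ℝ)) ^ 2 * (V2 ^ K * E + T ^ 2 * (K * η * M ^ K)) := by
    refine h1.trans ?_
    rw [pow_two, mul_assoc]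
    exact mul_le_mul_of_nonneg_left hsum hPU
  have hin : 0 ≤ V2 ^ K * E + T ^ 2 * (K * η * M ^ K) := by
    have : 0 ≤ M := by linarith
    positivity
  apply abs_le_of_sq_le_sq' _ (mul_nonneg hPU (Real.sqrt_nonneg _)) |>.2
  rw [mul_pow, Real.sq_sqrt hin]
  exact hfin

/-- the sum over the residue classes -/
theorem residue_M {K : ℕ} (W T w z : ℕ) (U : Fin K → ℕ) (hWw : W = Wm w) (hwz : w ≤ z) (b : Fin K → ℕ) (c : ℕ → ℝ)
    (Bd : ℝ)
    (hline : ∀ (q : Fin K → ℕ) (r : Fin K → ℕ) (d : ℕ), d < W → (∀ i, Nat.Coprime W (r i)) →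
      ∑ u ∈ Fintype.piFinset (fun i : Fin K => range (U i)), |∑ t ∈ range T, c (W * t + d) *
        ∏ i, gp z (W * (t + u i + q i) + r i)| ≤ Bd) :
    ∑ m ∈ Fintype.piFinset (fun i : Fin K => range (W * U i)), |∑ n ∈ range (W * T), c n * ∏ i, gp z (n + b i + m i)| ≤
      W * (Nat.totient W : ℝ) ^ K * Bd := by
  classical
  have hW : 1 ≤ W := by rw [hWw]; exact Wm_pos w
  rw [pi_split' W U hW]
  have h1 : ∀ cc ∈ Fintype.piFinset (fun _ : Fin K => range W), ∑ u ∈ Fintype.piFinset (fun i : Fin K => range (U i)),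
      |∑ n ∈ range (W * T), c n * ∏ i, gp z (n + b i + (W * u i + cc i))| ≤
      ∑ d ∈ range W, Bd * ∏ i, (if Nat.Coprime W (((((1 : ℤ) * d + b i) + (cc i : ℕ)) % W).toNat) then (1 : ℝ) else 0) := by
    intro cc _
    have h2 : ∀ u ∈ Fintype.piFinset (fun i : Fin K => range (U i)),
        |∑ n ∈ range (W * T), c n * ∏ i, gp z (n + b i + (W * u i + cc i))| ≤
        ∑ d ∈ range W, |∑ t ∈ range T, c (W * t + d) * ∏ i, gp z (W * t + d + b i + (W * u i + cc i))| := by
      intro u _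
      rw [range_split W T hW]
      exact abs_sum_le_sum_abs _ _
    refine (sum_le_sum h2).trans ?_
    rw [sum_comm]
    apply sum_le_sum
    intro d hd
    rw [mem_range] at hd
    set r : Fin K → ℕ := fun i => (d + b i + cc i) % W with hr
    set q : Fin K → ℕ := fun i => (d + b i + cc i) / W with hq
    have hrr : ∀ i, ((((1 : ℤ) * d + b i) + (cc i : ℕ)) % W).toNat = r i := by
      intro i
      have : (((1 : ℤ) * d + b i) + (cc i : ℕ)) % W = (((d + b i + cc i) % W : ℕ) : ℤ) := by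
        push_cast
        ring_nf
      rw [this]
      rfl
    have e1 : ∀ u ∈ Fintype.piFinset (fun i : Fin K => range (U i)), |∑ t ∈ range T, c (W * t + d) * ∏ i, gp z (W * t + d + b i + (W * u i + cc i))| =
        |∑ t ∈ range T, c (W * t + d) * ∏ i, gp z (W * (t + u i + q i) + r i)| := by
      intro u _
      congr 1
      apply sum_congr rfl
      intro t _
      congr 1
      apply prod_congr rfl
      intro i _
      congr 1
      have h3 : W * q i + r i = d + b i + cc i := Nat.div_add_mod _ _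
      calc W * t + d + b i + (W * u i + cc i) = W * t + W * u i + (d + b i + cc i) := by ring
        _ = W * t + W * u i + (W * q i + r i) := by rw [h3]
        _ = _ := by ring
    rw [sum_congr rfl e1]
    simp only [hrr]
    by_cases hcop : ∀ i, Nat.Coprime W (r i)
    · have e2 : ∏ i, (if Nat.Coprime W (r i) then (1 : ℝ) else 0) = 1 := by
        apply prod_eq_one
        intro i _
        rw [if_pos (hcop i)]
      rw [e2, mul_one]
      exact hline q r d hd hcop
    · push Not at hcop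
      obtain ⟨i, hi⟩ := hcop
      have e2 : ∏ i, (if Nat.Coprime W (r i) then (1 : ℝ) else 0) = 0 :=
        prod_eq_zero (mem_univ i) (if_neg hi)
      rw [e2, mul_zero]
      apply le_of_eq
      apply sum_eq_zero
      intro u _
      rw [abs_eq_zero]
      apply sum_eq_zero
      intro t _
      have hnc : ¬ Nat.Coprime (Wm w) (W * (t + u i + q i) + r i) := by
        rw [hWw] at hi ⊢
        rwa [Nat.coprime_mul_left_add_right]
      rw [prod_eq_zero (mem_univ i) (gp_cop w z _ hwz hnc), mul_zero]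
  refine (sum_le_sum h1).trans ?_
  rw [sum_comm]
  have h2 : ∀ d ∈ range W, ∑ cc ∈ Fintype.piFinset (fun _ : Fin K => range W),
      Bd * ∏ i, (if Nat.Coprime W (((((1 : ℤ) * d + b i) + (cc i : ℕ)) % W).toNat) then (1 : ℝ) else 0) = (Nat.totient W : ℝ) ^ K * Bd := by
    intro d _
    rw [← mul_sum, mul_comm]
    congr 1
    rw [← prod_univ_sum (fun _ : Fin K => range W) (fun i c => if Nat.Coprime W (((((1 : ℤ) * d + b i) + (c : ℕ)) % W).toNat) then (1 : ℝ) else 0)]
    rw [prod_congr rfl fun i _ => shift_totient W hW ((1 : ℤ) * d + b i), prod_const, card_univ, Fintype.card_fin]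
  rw [sum_congr rfl h2, sum_const, card_range, nsmul_eq_mul, mul_assoc]

end

end Run7.h402.PC
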