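import Mathlib
import Pool.Agent.Run7.h402.PC.C4
import Pool.Agent.Run7.h402.PY.Y5

/-!
# The sum of a weight and the model on average over short boxes
-/

set_option autoImplicit false

open Finset

namespace Run7.h402.PC

open Run7.h402.PX Run7.h402.PV Run7.h402.PD
open Run7.h402.PY (pi_split' prod_bound)
open Pool.Agent.H373R2.T7 (Vz Vz_inv_small Vz_pos Vz_le_one lamz lamz_nonneg pz mem_pz)
open Pool.Agent.N475.SP (dom)

noncomputable section

/-- the relative error of the fundamental lemma -/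
theorem eta_bound {B C v R E U Bu : ℕ} {L : ℝ} (cd : Cond B C v R E U Bu L) (T z : ℕ) (hT : Real.exp (L / 4) ≤ T)
    (hz1 : 1 ≤ z) (hz : (z : ℝ) ≤ L ^ E) (hVz : (Vz z)⁻¹ ≤ L) :
    (Vz z)⁻¹ ^ 2 * (((((z : ℝ) + 1) * (2 : ℕ)) ^ ⌈√L⌉₊ + 2 * T * Real.exp (3 * ((2 : ℕ) * (1 + Real.log z)) - ⌈√L⌉₊)) + 2 * ((z : ℝ) + 1)) ≤
      T * Real.exp (-(√L / 2)) := by
  have hL1 := cd.l1
  have hL3 := cd.l0
  have hc8 := cd.c8
  have hL0 : 0 < L := by linarith
  have hLe : Real.exp (Real.log L) = L := Real.exp_log hL0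
  set ℓ := Real.log L with hℓ
  set s := √L with hs
  have hz0 : (0 : ℝ) < z := by exact_mod_cast hz1
  have hV0 : 0 ≤ (Vz z)⁻¹ := inv_nonneg.2 (Vz_pos z).le
  have hV2 : (Vz z)⁻¹ ^ 2 ≤ L ^ 2 := pow_le_pow_left₀ hV0 hVz 2
  have hs31 : 31 ≤ s := Real.le_sqrt_of_sq_le (by linarith)
  have hss : s * s = L := Real.mul_self_sqrt hL0.le
  have hρ1 : s ≤ ⌈s⌉₊ := Nat.le_ceil _
  have hρ2 : (⌈s⌉₊ : ℝ) ≤ 2 * s := by
    have := (Nat.ceil_lt_add_one (Real.sqrt_nonneg L)).le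
    linarith
  have hE0 : (0 : ℝ) ≤ E * ℓ := by positivity
  have hc8' : 16 * (E * ℓ) + 16 * ℓ ≤ s := by
    have : 16 * ((E : ℝ) + 1) * ℓ = 16 * (E * ℓ) + 16 * ℓ := by ring
    linarith
  have hL31 : 31 * s ≤ L := by nlinarith
  have hLE1 : 1 ≤ L ^ E := one_le_pow₀ (by linarith)
  have hpE : L ^ E = Real.exp (E * ℓ) := by rw [Real.exp_nat_mul, hLe]
  have hp2 : L ^ 2 = Real.exp (2 * ℓ) := by
    have := Real.exp_nat_mul ℓ 2
    rw [hLe] at this
    rw [← this]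
    norm_num
  have he1 : 2 ≤ Real.exp 1 := by linarith [Real.exp_one_gt_d9]
  have he2 : 3 ≤ Real.exp 2 := by
    have e1 : Real.exp 2 = Real.exp 1 * Real.exp 1 := by rw [← Real.exp_add]; norm_num
    nlinarith
  have hthird : ∀ x y : ℝ, x + 2 ≤ y → Real.exp x ≤ Real.exp y / 3 := by
    intro x y h
    rw [le_div_iff₀ (by norm_num)]
    calc Real.exp x * 3 ≤ Real.exp x * Real.exp 2 := mul_le_mul_of_nonneg_left he2 (Real.exp_pos _).le
      _ = Real.exp (x + 2) := by rw [← Real.exp_add]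
      _ ≤ _ := Real.exp_le_exp.2 h
  have hT0 : (0 : ℝ) < T := lt_of_lt_of_le (Real.exp_pos _) hT
  have hTη : Real.exp (L / 4 - s / 2) ≤ T * Real.exp (-(s / 2)) := by
    rw [sub_eq_add_neg, Real.exp_add]
    exact mul_le_mul_of_nonneg_right hT (Real.exp_pos _).le
  have h1 : ((((z : ℝ) + 1) * (2 : ℕ)) ^ ⌈s⌉₊) ≤ Real.exp (L / 8) := by
    have h2 : ((z : ℝ) + 1) * (2 : ℕ) ≤ Real.exp (E * ℓ + ℓ) := by
      rw [Real.exp_add, ← hpE, hLe]
      push_cast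
      nlinarith
    calc ((((z : ℝ) + 1) * (2 : ℕ)) ^ ⌈s⌉₊) ≤ (Real.exp (E * ℓ + ℓ)) ^ ⌈s⌉₊ :=
          pow_le_pow_left₀ (by positivity) h2 _
      _ = Real.exp (⌈s⌉₊ * (E * ℓ + ℓ)) := (Real.exp_nat_mul _ _).symm
      _ ≤ Real.exp (L / 8) := by
          apply Real.exp_le_exp.2
          calc (⌈s⌉₊ : ℝ) * (E * ℓ + ℓ) ≤ (2 * s) * (s / 16) := by
                apply mul_le_mul hρ2 (by linarith) (by positivity) (by positivity)
            _ = L / 8 := by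
                have : (2 * s) * (s / 16) = (s * s) / 8 := by ring
                rw [this, hss]
  have a1 : (Vz z)⁻¹ ^ 2 * ((((z : ℝ) + 1) * (2 : ℕ)) ^ ⌈s⌉₊) ≤ T * Real.exp (-(s / 2)) / 3 := by
    calc (Vz z)⁻¹ ^ 2 * ((((z : ℝ) + 1) * (2 : ℕ)) ^ ⌈s⌉₊) ≤ Real.exp (2 * ℓ) * Real.exp (L / 8) := by
          rw [← hp2]
          exact mul_le_mul hV2 h1 (by positivity) (by positivity)
      _ = Real.exp (2 * ℓ + L / 8) := by rw [Real.exp_add]
      _ ≤ Real.exp (L / 4 - s / 2) / 3 := hthird _ _ (by linarith)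
      _ ≤ _ := div_le_div_of_nonneg_right hTη (by norm_num)
  have a2 : (Vz z)⁻¹ ^ 2 * (2 * T * Real.exp (3 * ((2 : ℕ) * (1 + Real.log z)) - ⌈s⌉₊)) ≤ T * Real.exp (-(s / 2)) / 3 := by
    have h4 : Real.log z ≤ E * ℓ := by
      rw [hℓ, ← Real.log_pow]
      exact Real.log_le_log hz0 hz
    have h5 : Real.exp (3 * ((2 : ℕ) * (1 + Real.log z)) - ⌈s⌉₊) ≤ Real.exp (6 + 6 * (E * ℓ) - s) := by
      apply Real.exp_le_exp.2
      push_cast
      linarith
    calc (Vz z)⁻¹ ^ 2 * (2 * T * Real.exp (3 * ((2 : ℕ) * (1 + Real.log z)) - ⌈s⌉₊)) ≤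
        Real.exp (2 * ℓ) * (Real.exp 1 * T * Real.exp (6 + 6 * (E * ℓ) - s)) := by
          rw [← hp2]
          apply mul_le_mul hV2 _ (by positivity) (by positivity)
          apply mul_le_mul _ h5 (Real.exp_pos _).le (by positivity)
          exact mul_le_mul_of_nonneg_right he1 hT0.le
      _ = T * Real.exp (2 * ℓ + (1 + (6 + 6 * (E * ℓ) - s))) := by
          rw [Real.exp_add, Real.exp_add 1]
          ring
      _ ≤ T * (Real.exp (-(s / 2)) / 3) := by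
          apply mul_le_mul_of_nonneg_left _ hT0.le
          apply hthird
          linarith
      _ = _ := by ring
  have a3 : (Vz z)⁻¹ ^ 2 * (2 * ((z : ℝ) + 1)) ≤ T * Real.exp (-(s / 2)) / 3 := by
    calc (Vz z)⁻¹ ^ 2 * (2 * ((z : ℝ) + 1)) ≤ Real.exp (2 * ℓ) * (Real.exp (E * ℓ) * Real.exp 2) := by
          rw [← hp2, ← hpE]
          apply mul_le_mul hV2 _ (by positivity) (by positivity)
          have e1 : Real.exp 2 = Real.exp 1 * Real.exp 1 := by rw [← Real.exp_add]; norm_num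
          have e2 : 4 ≤ Real.exp 2 := by nlinarith
          nlinarith
      _ = Real.exp (2 * ℓ + (E * ℓ + 2)) := by rw [Real.exp_add, Real.exp_add]
      _ ≤ Real.exp (L / 4 - s / 2) / 3 := hthird _ _ (by linarith)
      _ ≤ _ := div_le_div_of_nonneg_right hTη (by norm_num)
  rw [mul_add, mul_add]
  linarith

/-- the numerical inequality -/
theorem num_M {B v R E U Bu : ℕ} {L : ℝ} (cd : Cond B 0 v R E U Bu L) (A : ℕ) {g D : ℕ} (hg : g = 16 * B + 2 * A + 1)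
    (hD : D = 2 * R + 2 * g + A + 1) (hM : ((4 * R + 4 * g + 4 * A + 6 * B + 20 : ℕ) : ℝ) * Real.log L ^ 2 ≤ √L)
    {K : ℕ} (hKB : (K : ℝ) ≤ B * Real.log L) (X W T : ℕ) (hX : Real.exp L = X) (hW1 : 1 ≤ W) (hW : (W : ℝ) ≤ L ^ (2 * R))
    (hWT : (W : ℝ) * T ≤ 2 * X) (Vi : ℝ) (hV0 : 0 ≤ Vi) (hV : Vi ≤ L) :
    4 * (W : ℝ) ^ 2 * ((⌈L ^ (2 * g)⌉₊ * (⌈L ^ (2 * g)⌉₊ * (X / L ^ D) ^ 2 + T) + 2 * T ^ 2 / √(⌈L ^ (2 * g)⌉₊ : ℝ) * Real.exp (16 * K) + T * (Vi ^ 2) ^ K) +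
      T ^ 2 * (K * Real.exp (-(√L / 2)) * (Vi ^ 2 + 1) ^ K)) ≤ (X / L ^ A) ^ 2 := by
  have hL1 := cd.l1
  have hL3 := cd.l0
  have hc8 := cd.c8
  have hL0 : 0 < L := by linarith
  have hLe : Real.exp (Real.log L) = L := Real.exp_log hL0
  set ℓ := Real.log L with hℓ
  set s := √L with hs
  have hs31 : 31 ≤ s := Real.le_sqrt_of_sq_le (by linarith)
  have hss : s * s = L := Real.mul_self_sqrt hL0.le
  have hsL : s ≤ L := by nlinarith
  have hX0 : (0 : ℝ) < X := by rw [← hX]; exact Real.exp_pos _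
  have hpn : ∀ n : ℕ, L ^ n = Real.exp (n * ℓ) := fun n => by rw [Real.exp_nat_mul, hLe]
  have hℓℓ : ℓ ≤ ℓ ^ 2 := by nlinarith
  have hW0 : (0 : ℝ) < W := by exact_mod_cast hW1
  have hT0 : (0 : ℝ) ≤ T := Nat.cast_nonneg T
  have hK0 : (0 : ℝ) ≤ K := Nat.cast_nonneg K
  set Q : ℕ := ⌈L ^ (2 * g)⌉₊ with hQ
  have hLg1 : 1 ≤ L ^ (2 * g) := one_le_pow₀ (by linarith)
  have hQ1 : L ^ (2 * g) ≤ Q := Nat.le_ceil _
  have hQ2 : (Q : ℝ) ≤ 2 * L ^ (2 * g) := by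
    have := (Nat.ceil_lt_add_one (by positivity : 0 ≤ L ^ (2 * g))).le
    linarith
  have hQs : L ^ g ≤ √(Q : ℝ) := by
    apply Real.le_sqrt_of_sq_le
    rw [← pow_mul, mul_comm g 2]
    exact hQ1
  have hWT2 : (W : ℝ) ^ 2 * (T : ℝ) ^ 2 ≤ 4 * (X : ℝ) ^ 2 := by
    calc (W : ℝ) ^ 2 * (T : ℝ) ^ 2 = ((W : ℝ) * T) ^ 2 := by ring
      _ ≤ (2 * (X : ℝ)) ^ 2 := pow_le_pow_left₀ (by positivity) hWT 2
      _ = _ := by ring
  -- the exponential bound
  have hexp : ∀ n : ℕ, n ≤ 4 * R + 4 * g + 4 * A + 6 * B + 20 → Real.exp (n * ℓ ^ 2) ≤ Real.exp s := by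
    intro n hn
    apply Real.exp_le_exp.2
    refine le_trans ?_ hM
    apply mul_le_mul_of_nonneg_right _ (by positivity)
    exact_mod_cast hn
  have hpn2 : ∀ n : ℕ, L ^ n ≤ Real.exp (n * ℓ ^ 2) := by
    intro n
    rw [hpn]
    apply Real.exp_le_exp.2
    exact mul_le_mul_of_nonneg_left hℓℓ (Nat.cast_nonneg n)
  have hXs : Real.exp s ≤ X := by
    rw [← hX]
    exact Real.exp_le_exp.2 hsL
  have hLL : ∀ n : ℕ, 0 < L ^ n := fun n => by positivity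
  have hLK : ∀ n : ℕ, (L ^ n) ^ K ≤ Real.exp ((n * B : ℕ) * ℓ ^ 2) := by
    intro n
    rw [hpn, ← Real.exp_nat_mul]
    apply Real.exp_le_exp.2
    push_cast
    calc (K : ℝ) * (n * ℓ) ≤ (B * ℓ) * (n * ℓ) := mul_le_mul_of_nonneg_right hKB (by positivity)
      _ = n * B * ℓ ^ 2 := by ring
  set Y : ℝ := (X / L ^ A) ^ 2 with hY
  have hYe : Y = X ^ 2 / L ^ (2 * A) := by
    rw [hY, div_pow, ← pow_mul, mul_comm A 2]
  -- term 1
  have t1 : 4 * (W : ℝ) ^ 2 * (Q * (Q * (X / L ^ D) ^ 2)) ≤ Y / 5 := by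
    calc 4 * (W : ℝ) ^ 2 * (Q * (Q * (X / L ^ D) ^ 2)) ≤ 4 * (L ^ (2 * R)) ^ 2 * ((2 * L ^ (2 * g)) * ((2 * L ^ (2 * g)) * (X / L ^ D) ^ 2)) := by
          gcongr
      _ = 16 * X ^ 2 * (L ^ (4 * R + 4 * g) / L ^ (2 * D)) := by
          rw [div_pow]
          field_simp
          ring
      _ ≤ 16 * X ^ 2 * (1 / (L ^ (2 * A) * 80)) := by
          apply mul_le_mul_of_nonneg_left _ (by positivity)
          rw [div_le_div_iff₀ (by positivity) (by positivity), one_mul]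
          calc L ^ (4 * R + 4 * g) * (L ^ (2 * A) * 80) ≤ L ^ (4 * R + 4 * g) * (L ^ (2 * A) * L ^ 2) := by
                gcongr
                nlinarith
            _ = L ^ (2 * D) := by
                rw [← pow_add, ← pow_add]
                congr 1
                omega
      _ = Y / 5 := by
          rw [hYe]
          field_simp
          norm_num
  -- term 2
  have t2 : 4 * (W : ℝ) ^ 2 * (Q * T) ≤ Y / 5 := by
    rw [hYe, le_div_iff₀ (by norm_num), le_div_iff₀ (by positivity)]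
    calc 4 * (W : ℝ) ^ 2 * (Q * T) * 5 * L ^ (2 * A) = 20 * W * Q * (W * T) * L ^ (2 * A) := by ring
      _ ≤ 20 * L ^ (2 * R) * (2 * L ^ (2 * g)) * (2 * X) * L ^ (2 * A) := by gcongr
      _ = 80 * L ^ (2 * R + 2 * g + 2 * A) * X := by ring
      _ ≤ L ^ 1 * L ^ (2 * R + 2 * g + 2 * A) * X := by
          gcongr
          linarith
      _ = L ^ (1 + (2 * R + 2 * g + 2 * A)) * X := by rw [pow_add L 1]
      _ ≤ X * X := by
          apply mul_le_mul_of_nonneg_right _ hX0.le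
          exact (hpn2 _).trans ((hexp _ (by omega)).trans hXs)
      _ = _ := by ring
  -- term 3
  have t3 : 4 * (W : ℝ) ^ 2 * (2 * T ^ 2 / √(Q : ℝ) * Real.exp (16 * K)) ≤ Y / 5 := by
    have h1 : Real.exp (16 * K) ≤ L ^ (16 * B) := by
      rw [hpn]
      apply Real.exp_le_exp.2
      push_cast
      linarith
    have hQs0 : 0 < √(Q : ℝ) := lt_of_lt_of_le (hLL g) hQs
    calc 4 * (W : ℝ) ^ 2 * (2 * T ^ 2 / √(Q : ℝ) * Real.exp (16 * K)) = 8 * (W ^ 2 * T ^ 2) / √(Q : ℝ) * Real.exp (16 * K) := by ring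
      _ ≤ 8 * (4 * X ^ 2) / L ^ g * L ^ (16 * B) := by
          apply mul_le_mul _ h1 (Real.exp_pos _).le (by positivity)
          exact div_le_div₀ (by positivity) (by linarith) (hLL g) hQs
      _ = X ^ 2 * (32 * L ^ (16 * B) / L ^ g) := by ring
      _ ≤ X ^ 2 * (1 / (L ^ (2 * A) * 5)) := by
          apply mul_le_mul_of_nonneg_left _ (by positivity)
          rw [div_le_div_iff₀ (by positivity) (by positivity), one_mul]
          calc 32 * L ^ (16 * B) * (L ^ (2 * A) * 5) = 160 * (L ^ (16 * B) * L ^ (2 * A)) := by ring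
            _ ≤ L * (L ^ (16 * B) * L ^ (2 * A)) := by
                gcongr
                linarith
            _ = L ^ g := by
                rw [hg]
                ring
      _ = Y / 5 := by
          rw [hYe]
          field_simp
  -- term 4
  have t4 : 4 * (W : ℝ) ^ 2 * (T * (Vi ^ 2) ^ K) ≤ Y / 5 := by
    have h1 : (Vi ^ 2) ^ K ≤ (L ^ 2) ^ K := by gcongr
    rw [hYe, le_div_iff₀ (by norm_num), le_div_iff₀ (by positivity)]
    calc 4 * (W : ℝ) ^ 2 * (T * (Vi ^ 2) ^ K) * 5 * L ^ (2 * A) = 20 * W * (W * T) * (Vi ^ 2) ^ K * L ^ (2 * A) := by ring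
      _ ≤ 20 * L ^ (2 * R) * (2 * X) * Real.exp ((2 * B : ℕ) * ℓ ^ 2) * L ^ (2 * A) := by
          gcongr
          exact h1.trans (hLK 2)
      _ = (40 * L ^ (2 * R + 2 * A)) * Real.exp ((2 * B : ℕ) * ℓ ^ 2) * X := by ring
      _ ≤ Real.exp ((1 + (2 * R + 2 * A) : ℕ) * ℓ ^ 2) * Real.exp ((2 * B : ℕ) * ℓ ^ 2) * X := by
          apply mul_le_mul_of_nonneg_right _ hX0.le
          apply mul_le_mul_of_nonneg_right _ (Real.exp_pos _).le
          refine le_trans ?_ (hpn2 _)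
          rw [pow_add L 1, pow_one]
          gcongr
          linarith
      _ = Real.exp ((1 + (2 * R + 2 * A) + 2 * B : ℕ) * ℓ ^ 2) * X := by
          rw [← Real.exp_add]
          congr 2
          push_cast
          ring
      _ ≤ X * X := by
          apply mul_le_mul_of_nonneg_right _ hX0.le
          exact (hexp _ (by omega)).trans hXs
      _ = _ := by ring
  -- term 5
  have t5 : 4 * (W : ℝ) ^ 2 * (T ^ 2 * (K * Real.exp (-(s / 2)) * (Vi ^ 2 + 1) ^ K)) ≤ Y / 5 := by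
    have h1 : (Vi ^ 2 + 1) ^ K ≤ (L ^ 3) ^ K := by
      apply pow_le_pow_left₀ (by positivity)
      have h2 : Vi ^ 2 ≤ L ^ 2 := pow_le_pow_left₀ hV0 hV 2
      have h3 : L ^ 3 = L * L ^ 2 := by ring
      have h4 : 1 ≤ L ^ 2 := one_le_pow₀ (by linarith)
      nlinarith
    have hKL : (K : ℝ) ≤ L := by
      have := cd.c12
      have h2 : (0 : ℝ) ≤ B * ℓ := by positivity
      linarith
    have hkey : Real.exp ((2 + 2 * A + 3 * B : ℕ) * ℓ ^ 2) ≤ Real.exp (s / 2) := by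
      have h2 : Real.exp ((2 * (2 + 2 * A + 3 * B) : ℕ) * ℓ ^ 2) ≤ Real.exp s := hexp _ (by omega)
      apply Real.exp_le_exp.2
      have h3 := Real.exp_le_exp.1 h2
      push_cast at h3 ⊢
      linarith
    have e1 : Real.exp (-(s / 2)) * Real.exp (s / 2) = 1 := by
      rw [← Real.exp_add]
      simp
    rw [hYe, le_div_iff₀ (by norm_num), le_div_iff₀ (by positivity)]
    calc 4 * (W : ℝ) ^ 2 * (T ^ 2 * (K * Real.exp (-(s / 2)) * (Vi ^ 2 + 1) ^ K)) * 5 * L ^ (2 * A) =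
        20 * (W ^ 2 * T ^ 2) * K * Real.exp (-(s / 2)) * (Vi ^ 2 + 1) ^ K * L ^ (2 * A) := by ring
      _ ≤ 20 * (4 * X ^ 2) * L * Real.exp (-(s / 2)) * Real.exp ((3 * B : ℕ) * ℓ ^ 2) * L ^ (2 * A) := by
          gcongr
          exact h1.trans (hLK 3)
      _ = X ^ 2 * Real.exp (-(s / 2)) * ((80 * L * L ^ (2 * A)) * Real.exp ((3 * B : ℕ) * ℓ ^ 2)) := by ring
      _ ≤ X ^ 2 * Real.exp (-(s / 2)) * (Real.exp ((2 + 2 * A : ℕ) * ℓ ^ 2) * Real.exp ((3 * B : ℕ) * ℓ ^ 2)) := by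
          apply mul_le_mul_of_nonneg_left _ (by positivity)
          apply mul_le_mul_of_nonneg_right _ (Real.exp_pos _).le
          refine le_trans ?_ (hpn2 _)
          rw [pow_add L 2]
          gcongr
          nlinarith
      _ = X ^ 2 * Real.exp (-(s / 2)) * Real.exp ((2 + 2 * A + 3 * B : ℕ) * ℓ ^ 2) := by
          rw [← Real.exp_add]
          congr 2
          push_cast
          ring
      _ ≤ X ^ 2 * Real.exp (-(s / 2)) * Real.exp (s / 2) := mul_le_mul_of_nonneg_left hkey (by positivity)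
      _ = X ^ 2 := by rw [mul_assoc, e1, mul_one]
  calc _ = 4 * (W : ℝ) ^ 2 * (Q * (Q * (X / L ^ D) ^ 2)) + 4 * (W : ℝ) ^ 2 * (Q * T) +
        4 * (W : ℝ) ^ 2 * (2 * T ^ 2 / √(Q : ℝ) * Real.exp (16 * K)) + 4 * (W : ℝ) ^ 2 * (T * (Vi ^ 2) ^ K) +
        4 * (W : ℝ) ^ 2 * (T ^ 2 * (K * Real.exp (-(s / 2)) * (Vi ^ 2 + 1) ^ K)) := by ring
    _ ≤ Y / 5 + Y / 5 + Y / 5 + Y / 5 + Y / 5 := by linarith
    _ = Y := by ring

end

end Run7.h402.PC
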