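import Mathlib
import Pool.Agent.Run7.h402.PC.C5

/-!
# The sum of a weight and the model on average over short boxes: the theorem
-/

set_option autoImplicit false

open Finset

namespace Run7.h402.PC

open Run7.h402.PX Run7.h402.PV Run7.h402.PD
open Run7.h402.PY (pi_split' prod_bound Cond2 cond2_ev)
open Pool.Agent.H373R2.T7 (Vz Vz_inv_small Vz_pos Vz_le_one lamz lamz_nonneg pz mem_pz)
open Pool.Agent.N475.SP (dom)

noncomputable section

/-- for weights without sums over residue classes the sums with the model are small on average -/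
theorem model_M (B A : ℕ) : ∃ D : ℕ, ∀ E : ℕ, 16 * B + 3 ≤ E → ∃ X0 : ℕ, ∀ X : ℕ, X0 ≤ X → ∀ K : ℕ,
    (K : ℝ) ≤ B * Real.log (Real.log X) → ∀ b H : Fin K → ℕ, (∀ i, (X : ℝ) ^ (1 / 3 : ℝ) ≤ H i) → ∀ c : ℕ → ℝ, (∀ n, |c n| ≤ 1) →
    (∀ m : ℕ, 1 ≤ m → (m : ℝ) ≤ Real.log X ^ D → ∀ r < m, |∑ n ∈ (range X).filter (fun n => n % m = r), c n| ≤ X / Real.log X ^ D) →
    ∑ m ∈ Fintype.piFinset (fun i : Fin K => range (H i)), |∑ n ∈ range X, c n * ∏ i, gp (zL E (Real.log X)) (n + b i + m i)| ≤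
      X * (∏ i, (H i : ℝ)) / Real.log X ^ A := by
  classical
  obtain ⟨R, hR⟩ : ∃ R : ℕ, R = 8 * B + 1 := ⟨_, rfl⟩
  obtain ⟨g, hg⟩ : ∃ g : ℕ, g = 16 * B + 2 * (A + 1) + 1 := ⟨_, rfl⟩
  obtain ⟨D, hD⟩ : ∃ D : ℕ, D = 2 * R + 2 * g + (A + 1) + 1 := ⟨_, rfl⟩
  refine ⟨D, fun E hE => ?_⟩
  obtain ⟨N2, hVi⟩ := Vz_inv_small E
  obtain ⟨L0, hcond⟩ := cond_ev B 0 0 R E 0 0 (by omega) (by omega)
  obtain ⟨L0', hcond2⟩ := cond2_ev 0 R 0
  obtain ⟨a1, ha1⟩ := dom ((4 * R + 4 * g + 4 * (A + 1) + 6 * B + 20 : ℕ) : ℝ) (1 / 2) 2 (by norm_num)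
  refine ⟨max N2 (max 3 ⌈Real.exp (max (max L0 L0') (Real.exp a1))⌉₊), fun X hX K hKB b H hH c hc hcl => ?_⟩
  have hX2 : N2 ≤ X := le_trans (le_max_left _ _) hX
  have hX3 : 3 ≤ X := le_trans (le_trans (le_max_left _ _) (le_max_right _ _)) hX
  have hX0 : (0 : ℝ) < X := by exact_mod_cast (by omega : 0 < X)
  have hXL : Real.exp (max (max L0 L0') (Real.exp a1)) ≤ X := (Nat.le_ceil _).trans (by exact_mod_cast le_trans (le_trans (le_max_right _ _) (le_max_right _ _)) hX)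
  obtain ⟨L, hL⟩ : ∃ L : ℝ, L = Real.log X := ⟨_, rfl⟩
  rw [← hL] at hKB hcl ⊢
  have hLL0 : max (max L0 L0') (Real.exp a1) ≤ L := by rwa [hL, Real.le_log_iff_exp_le hX0]
  have cd := hcond L (le_trans (le_trans (le_max_left _ _) (le_max_left _ _)) hLL0)
  have cd2 := hcond2 L (le_trans (le_trans (le_max_right _ _) (le_max_left _ _)) hLL0)
  have hL1 := cd.l1
  have hL0 : 0 < L := by linarith
  have hℓ3 := cd.l0
  have hXe : Real.exp L = X := by rw [hL, Real.exp_log hX0]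
  have hM : ((4 * R + 4 * g + 4 * (A + 1) + 6 * B + 20 : ℕ) : ℝ) * Real.log L ^ 2 ≤ √L := by
    have h1 := ha1 (Real.log L) (by
      rw [Real.le_log_iff_exp_le hL0]
      exact (le_max_right _ _).trans hLL0)
    refine h1.trans (le_of_eq ?_)
    rw [Real.sqrt_eq_rpow, Real.rpow_def_of_pos hL0]
    congr 1
    ring
  obtain ⟨z, hz⟩ : ∃ z : ℕ, z = zL E L := ⟨_, rfl⟩
  rw [← hz]
  have hzle : (z : ℝ) ≤ L ^ E := by
    rw [hz]
    exact Nat.floor_le (by positivity)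
  have hzge : L ^ E - 1 ≤ z := by
    have := Nat.lt_floor_add_one (L ^ E)
    have e : ((⌊L ^ E⌋₊ : ℕ) : ℝ) = z := by rw [hz]; rfl
    linarith
  obtain ⟨hwℓ, hw2, hw8, hWle, hzW, hwz⟩ := W_facts cd hR K z hKB hzge
  have hwK : 8 * K ≤ ⌈(R : ℝ) * Real.log L⌉₊ := by
    have h1 : (8 * K : ℝ) ≤ ⌈(R : ℝ) * Real.log L⌉₊ := by
      refine le_trans ?_ (Nat.le_ceil _)
      have hRr : (R : ℝ) = 8 * B + 1 := by rw [hR]; push_cast; ring
      rw [hRr]
      linarith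
    exact_mod_cast h1
  obtain ⟨w, hw⟩ : ∃ w : ℕ, w = ⌈(R : ℝ) * Real.log L⌉₊ := ⟨_, rfl⟩
  rw [← hw] at hwℓ hw2 hw8 hWle hzW hwz hwK
  obtain ⟨W, hWd⟩ : ∃ W : ℕ, W = Wm w := ⟨_, rfl⟩
  have hW1 : 1 ≤ W := by rw [hWd]; exact Wm_pos w
  rw [← hWd] at hWle hzW
  have hz1 : 1 ≤ z := le_trans hW1 hzW
  obtain ⟨hWT, hWT2, hTe, hWX⟩ := T_facts cd X W hXe hW1 hWle
  obtain ⟨T, hT⟩ : ∃ T : ℕ, T = X / W + 1 := ⟨_, rfl⟩
  rw [← hT] at hWT hWT2 hTe
  have hWr : (1 : ℝ) ≤ W := by exact_mod_cast hW1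
  have hVz : (Vz z)⁻¹ ≤ L := by
    have := hVi X hX2 z hz1 (by rw [← hL]; exact hzle)
    rwa [← hL] at this
  have hVz0 : 0 ≤ (Vz z)⁻¹ := inv_nonneg.2 (Vz_pos z).le
  obtain ⟨U, hU⟩ : ∃ U : Fin K → ℕ, U = fun i => H i / W + 1 := ⟨_, rfl⟩
  have hHe : ∀ i, Real.exp (L / 3) ≤ H i := by
    intro i
    refine le_trans (le_of_eq ?_) (hH i)
    rw [← hXe, ← Real.exp_mul]
    congr 1
    ring
  have hWe : (W : ℝ) * Real.exp (L / 4) ≤ Real.exp (L / 3) := by
    -- from the powers of `L`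
    have h1 := cd2.m3
    have hWs : (W : ℝ) ≤ Real.exp (√L) := by
      refine hWle.trans ?_
      have hLe : Real.exp (Real.log L) = L := Real.exp_log hL0
      have h2 : L ^ (2 * R) = Real.exp ((2 * R : ℕ) * Real.log L) := by rw [Real.exp_nat_mul, hLe]
      rw [h2]
      apply Real.exp_le_exp.2
      refine le_trans ?_ hM
      have h3 : Real.log L ≤ Real.log L ^ 2 := by nlinarith
      calc ((2 * R : ℕ) : ℝ) * Real.log L ≤ ((4 * R + 4 * g + 4 * (A + 1) + 6 * B + 20 : ℕ) : ℝ) * Real.log L := by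
            apply mul_le_mul_of_nonneg_right _ (by linarith)
            exact_mod_cast (by omega : 2 * R ≤ 4 * R + 4 * g + 4 * (A + 1) + 6 * B + 20)
        _ ≤ _ := mul_le_mul_of_nonneg_left h3 (by positivity)
    have hss : √L * √L = L := Real.mul_self_sqrt hL0.le
    have hs31 : 31 ≤ √L := Real.le_sqrt_of_sq_le (by linarith)
    calc (W : ℝ) * Real.exp (L / 4) ≤ Real.exp (√L) * Real.exp (L / 4) := mul_le_mul_of_nonneg_right hWs (Real.exp_pos _).le
      _ = Real.exp (√L + L / 4) := by rw [Real.exp_add]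
      _ ≤ Real.exp (L / 3) := by
          apply Real.exp_le_exp.2
          nlinarith
  have hUf : ∀ i, Real.exp (L / 4) ≤ (U i : ℝ) ∧ H i ≤ W * U i ∧ W * U i ≤ H i + W := by
    intro i
    have e1 : U i = H i / W + 1 := by rw [hU]
    have h1 : H i ≤ W * U i := by rw [e1]; exact (Nat.lt_mul_div_succ (H i) hW1).le
    have h2 : W * U i ≤ H i + W := by
      rw [e1, mul_add, mul_one]
      have := Nat.mul_div_le (H i) W
      omega
    refine ⟨?_, h1, h2⟩
    have h3 : (W : ℝ) * Real.exp (L / 4) ≤ W * U i := by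
      refine hWe.trans ((hHe i).trans ?_)
      exact_mod_cast h1
    exact le_of_mul_le_mul_left h3 (by linarith)
  obtain ⟨Q, hQ⟩ : ∃ Q : ℕ, Q = ⌈L ^ (2 * g)⌉₊ := ⟨_, rfl⟩
  have hLg1 : 1 ≤ L ^ (2 * g) := one_le_pow₀ (by linarith)
  have hQ1 : 1 ≤ Q := by rw [hQ]; exact Nat.one_le_iff_ne_zero.2 (Nat.ceil_pos.2 (by positivity)).ne'
  have hQ2 : (Q : ℝ) ≤ 2 * L ^ (2 * g) := by
    have := (Nat.ceil_lt_add_one (by positivity : 0 ≤ L ^ (2 * g))).le
    rw [hQ]
    linarith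
  obtain ⟨c0, hc0⟩ : ∃ c0 : ℕ → ℝ, c0 = fun n => if n < X then c n else 0 := ⟨_, rfl⟩
  have hc01 : ∀ n, |c0 n| ≤ 1 := by
    intro n
    rw [hc0]
    simp only
    split_ifs
    · exact hc n
    · simp
  obtain ⟨η, hη⟩ : ∃ η : ℝ, η = Real.exp (-(√L / 2)) := ⟨_, rfl⟩
  have hη0 : 0 ≤ η := by rw [hη]; exact (Real.exp_pos _).le
  have hη1 : η ≤ 1 := by
    rw [hη]
    apply Real.exp_le_one_iff.2
    have := Real.sqrt_nonneg L
    linarith
  -- the class sums
  have hcls : ∀ d < W, ∀ q, 1 ≤ q → q ≤ Q → ∀ r < q, |∑ t ∈ (range T).filter (fun t => t % q = r), c0 (W * t + d)| ≤ X / L ^ D := by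
    intro d hd q hq1 hq2 r hr
    have h1 := hcl (W * q) (Nat.mul_pos hW1 hq1) (by
      push_cast
      calc (W : ℝ) * q ≤ L ^ (2 * R) * (2 * L ^ (2 * g)) := by
            have hqQ : (q : ℝ) ≤ Q := by exact_mod_cast hq2
            gcongr
            exact hqQ.trans hQ2
        _ ≤ L ^ (2 * R) * (L * L ^ (2 * g)) := by
            gcongr
            linarith
        _ = L ^ (2 * R + 1 + 2 * g) := by ring
        _ ≤ L ^ D := pow_le_pow_right₀ (by linarith) (by omega)) (W * r + d) (by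
      calc W * r + d < W * r + W := by omega
        _ = W * (r + 1) := by ring
        _ ≤ W * q := Nat.mul_le_mul_left _ hr)
    refine le_trans (le_of_eq ?_) h1
    congr 1
    rw [hc0]
    simp only
    rw [← sum_filter, filter_filter]
    apply sum_bij' (fun t _ => W * t + d) (fun n _ => n / W)
    · intro t ht
      rw [mem_filter, mem_range] at ht
      rw [mem_filter, mem_range]
      refine ⟨ht.2.2, ?_⟩
      have h3 : t = q * (t / q) + r := by
        have := Nat.div_add_mod t q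
        rw [ht.2.1] at this
        exact this.symm
      have h4 : W * t + d = W * q * (t / q) + (W * r + d) := by
        calc W * t + d = W * (q * (t / q) + r) + d := by rw [← h3]
          _ = _ := by ring
      rw [h4, Nat.mul_add_mod]
      apply Nat.mod_eq_of_lt
      calc W * r + d < W * r + W := by omega
        _ = W * (r + 1) := by ring
        _ ≤ W * q := Nat.mul_le_mul_left _ hr
    · intro n hn
      rw [mem_filter, mem_range] at hn
      rw [mem_filter, mem_range]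
      have h3 : n % W = d := by
        have h4 : n % (W * q) % W = n % W := Nat.mod_mul_right_mod n W q
        rw [hn.2, Nat.mul_add_mod, Nat.mod_eq_of_lt hd] at h4
        exact h4.symm
      have h5 : W * (n / W) + d = n := by
        have := Nat.div_add_mod n W
        rw [h3] at this
        exact this
      have h6 : n / W % q = r := by
        have h7 := Nat.mod_mul_right_div_self n W q
        rw [hn.2, Nat.mul_add_div hW1, Nat.div_eq_of_lt hd, add_zero] at h7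
        exact h7.symm
      refine ⟨?_, h6, by rw [h5]; exact hn.1⟩
      apply Nat.lt_of_mul_lt_mul_left (a := W)
      omega
    · intro t ht
      show (W * t + d) / W = t
      rw [Nat.mul_add_div hW1, Nat.div_eq_of_lt hd, add_zero]
    · intro n hn
      rw [mem_filter, mem_range] at hn
      have h3 : n % W = d := by
        have h4 : n % (W * q) % W = n % W := Nat.mod_mul_right_mod n W q
        rw [hn.2, Nat.mul_add_mod, Nat.mod_eq_of_lt hd] at h4
        exact h4.symm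
      show W * (n / W) + d = n
      have := Nat.div_add_mod n W
      rw [h3] at this
      exact this
    · intro t ht
      rfl
  -- one class
  obtain ⟨Et, hEt⟩ : ∃ Et : ℝ, Et = Q * (Q * (X / L ^ D) ^ 2 + T) + 2 * T ^ 2 / √(Q : ℝ) * Real.exp (16 * K) + T * ((Vz z)⁻¹ ^ 2) ^ K := ⟨_, rfl⟩
  obtain ⟨Ft, hFt⟩ : ∃ Ft : ℝ, Ft = (T : ℝ) ^ 2 * (K * η * ((Vz z)⁻¹ ^ 2 + 1) ^ K) := ⟨_, rfl⟩
  have hres := residue_M W T w z U hWd hwz b c0 ((∏ i, (U i : ℝ)) * √(((Vz w)⁻¹ ^ 2) ^ K * Et + Ft)) (by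
    intro q r d hd hr
    have h1 := line_M T U w z ⌈√L⌉₊ hwK hw2 hwz q r (by intro i; rw [← hWd]; exact hr i) (fun t => c0 (W * t + d)) (fun t => hc01 _) Q hQ1
      (X / L ^ D) η hη0 hη1 (hcls d hd) (by
        intro i
        rw [hη]
        exact eta_bound cd (U i) z (hUf i).1 hz1 hzle hVz)
    rw [← hWd] at h1
    rw [hEt, hFt]
    exact h1)
  have hT1 : (W : ℝ) * T ≤ 2 * X := by
    rw [hXe] at hWT2
    linarith
  have hnum := num_M cd (A + 1) hg hD hM hKB X W T hXe hW1 hWle hT1 (Vz z)⁻¹ hVz0 hVz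
  rw [← hQ, ← hη, ← hEt, ← hFt] at hnum
  have hprod := prod_bound H U W (Real.exp (L / 4)) (Real.exp_pos _) (fun i => (by
      have h1 := hHe i
      have h2 : Real.exp (L / 4) ≤ Real.exp (L / 3) := Real.exp_le_exp.2 (by linarith)
      linarith)) (fun i => (hUf i).2.2) (by
    have h1 : (K : ℝ) ≤ L := by
      have := cd.c12
      have : (0 : ℝ) ≤ B * Real.log L := by positivity
      linarith
    calc 2 * ((K : ℝ) * W) ≤ 2 * (L * L ^ (2 * R)) := by gcongr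
      _ = 2 * L ^ (2 * R + 1) := by rw [pow_succ]; ring
      _ ≤ _ := cd2.m4)
  -- collecting
  have hVw := Vz_pos w
  have hVw1 := Vz_le_one w
  have hPH : 0 ≤ ∏ i, (H i : ℝ) := prod_nonneg fun i _ => Nat.cast_nonneg _
  have hPU : 0 ≤ ∏ i, (U i : ℝ) := prod_nonneg fun i _ => Nat.cast_nonneg _
  have hEt0 : 0 ≤ Et := by rw [hEt]; positivity
  have hFt0 : 0 ≤ Ft := by rw [hFt]; positivity
  have htot : (Nat.totient W : ℝ) = W * Vz w := by rw [hWd]; exact tot_Wm w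
  have halg : (W : ℝ) * (Nat.totient W : ℝ) ^ K * ((∏ i, (U i : ℝ)) * √(((Vz w)⁻¹ ^ 2) ^ K * Et + Ft)) ≤
      W * (∏ i, ((W : ℝ) * U i)) * √(Et + Ft) := by
    have h1 : √(((Vz w)⁻¹ ^ 2) ^ K * Et + Ft) ≤ (Vz w)⁻¹ ^ K * √(Et + Ft) := by
      have h2 : (Vz w)⁻¹ ^ K * √(Et + Ft) = √(((Vz w)⁻¹ ^ K) ^ 2 * (Et + Ft)) := by
        rw [Real.sqrt_mul (sq_nonneg _), Real.sqrt_sq (by positivity)]
      rw [h2]
      apply Real.sqrt_le_sqrt
      have h3 : ((Vz w)⁻¹ ^ 2) ^ K = ((Vz w)⁻¹ ^ K) ^ 2 := by ring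
      rw [h3, mul_add]
      apply add_le_add le_rfl
      apply le_mul_of_one_le_left hFt0
      apply one_le_pow₀
      exact one_le_pow₀ ((one_le_inv₀ hVw).2 hVw1)
    have h0 : ∏ i, ((W : ℝ) * (U i : ℝ)) = (W : ℝ) ^ K * ∏ i, (U i : ℝ) := by
      rw [prod_mul_distrib, prod_const, card_univ, Fintype.card_fin]
    rw [htot, h0]
    calc (W : ℝ) * (W * Vz w) ^ K * ((∏ i, (U i : ℝ)) * √(((Vz w)⁻¹ ^ 2) ^ K * Et + Ft)) ≤
        (W : ℝ) * (W * Vz w) ^ K * ((∏ i, (U i : ℝ)) * ((Vz w)⁻¹ ^ K * √(Et + Ft))) := by gcongr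
      _ = (W : ℝ) * ((W : ℝ) ^ K * ∏ i, (U i : ℝ)) * √(Et + Ft) * (Vz w * (Vz w)⁻¹) ^ K := by
          rw [mul_pow, mul_pow]
          ring
      _ = _ := by rw [mul_inv_cancel₀ hVw.ne', one_pow, mul_one]
  have hfin : (W : ℝ) * (∏ i, ((W : ℝ) * U i)) * √(Et + Ft) ≤ X * (∏ i, (H i : ℝ)) / L ^ (A + 1) := by
    have h1 : 2 * (W : ℝ) * √(Et + Ft) ≤ X / L ^ (A + 1) := by
      have h2 : 2 * (W : ℝ) * √(Et + Ft) = √(4 * (W : ℝ) ^ 2 * (Et + Ft)) := by
        have e1 : 4 * (W : ℝ) ^ 2 * (Et + Ft) = (2 * (W : ℝ)) ^ 2 * (Et + Ft) := by ring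
        rw [e1, Real.sqrt_mul (sq_nonneg _), Real.sqrt_sq (by positivity)]
      rw [h2]
      apply Real.sqrt_le_iff.2
      exact ⟨by positivity, hnum⟩
    calc (W : ℝ) * (∏ i, ((W : ℝ) * U i)) * √(Et + Ft) ≤ (W : ℝ) * (2 * ∏ i, (H i : ℝ)) * √(Et + Ft) := by gcongr
      _ = (∏ i, (H i : ℝ)) * (2 * (W : ℝ) * √(Et + Ft)) := by ring
      _ ≤ (∏ i, (H i : ℝ)) * (X / L ^ (A + 1)) := mul_le_mul_of_nonneg_left h1 hPH
      _ = _ := by ring
  have hlast : X * (∏ i, (H i : ℝ)) / L ^ (A + 1) ≤ X * (∏ i, (H i : ℝ)) / L ^ A := by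
    apply div_le_div_of_nonneg_left (by positivity) (by positivity)
    exact pow_le_pow_right₀ (by linarith) (by omega)
  refine le_trans ?_ (hfin.trans hlast)
  refine le_trans ?_ halg
  refine le_trans ?_ hres
  -- restriction to the range
  have hsub : Fintype.piFinset (fun i : Fin K => range (H i)) ⊆ Fintype.piFinset (fun i : Fin K => range (W * U i)) := by
    intro m hm
    rw [Fintype.mem_piFinset] at hm ⊢
    intro i
    have h1 := mem_range.1 (hm i)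
    have h2 := (hUf i).2.1
    rw [mem_range]
    exact lt_of_lt_of_le h1 h2
  have hval : ∀ m : Fin K → ℕ, ∑ n ∈ range X, c n * ∏ i, gp z (n + b i + m i) =
      ∑ n ∈ range (W * T), c0 n * ∏ i, gp z (n + b i + m i) := by
    intro m
    have e1 : range X = (range (W * T)).filter (fun n => n < X) := by
      ext n
      rw [mem_filter, mem_range, mem_range]
      omega
    rw [e1, sum_filter, hc0]
    apply sum_congr rfl
    intro n _
    simp only
    split_ifs <;> simp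
  rw [sum_congr rfl fun m _ => by rw [hval m]]
  exact sum_le_sum_of_subset_of_nonneg hsub fun m _ _ => abs_nonneg _

end

end Run7.h402.PC
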