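import Mathlib
import Pool.Agent.Run7.h402.PC.C6

/-!
# Elementary estimates: prime powers, short intervals, the mean of the model
-/

set_option autoImplicit false

open Finset

namespace Run7.h402.PC

open Run7.h402.PX Run7.h402.PV Run7.h402.PD
open Run7.h402.PT (lam_sub_Fp_nonneg sum_lam_sub_Fp)
open Pool.Agent.H373R2.T7 (Vz Vz_inv_small Vz_pos Vz_le_one lamz lamz_nonneg pz mem_pz)
open Pool.Agent.N475.SP (dom)

noncomputable section

theorem prodLip {ι : Type} [DecidableEq ι] (s : Finset ι) (x y : ι → ℝ) (Q : ℝ) (hQ : 1 ≤ Q) (hx : ∀ i ∈ s, |x i| ≤ Q) (hy : ∀ i ∈ s, |y i| ≤ Q) :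
    |∏ i ∈ s, x i - ∏ i ∈ s, y i| ≤ Q ^ s.card * ∑ i ∈ s, |x i - y i| := by
  induction s using Finset.induction_on with
  | empty => simp
  | insert a s ha ih =>
      rw [prod_insert ha, prod_insert ha, sum_insert ha, card_insert_of_notMem ha]
      have h1 := ih (fun i hi => hx i (mem_insert_of_mem hi)) (fun i hi => hy i (mem_insert_of_mem hi))
      have h2 : |∏ i ∈ s, x i| ≤ Q ^ s.card := by
        rw [abs_prod, ← prod_const]
        exact prod_le_prod (fun i _ => abs_nonneg _) fun i hi => hx i (mem_insert_of_mem hi)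
      have e : x a * ∏ i ∈ s, x i - y a * ∏ i ∈ s, y i = (x a - y a) * ∏ i ∈ s, x i + y a * (∏ i ∈ s, x i - ∏ i ∈ s, y i) := by ring
      rw [e]
      refine (abs_add_le _ _).trans ?_
      rw [abs_mul, abs_mul]
      have hQ0 : 0 ≤ Q := by linarith
      have hS : 0 ≤ ∑ i ∈ s, |x i - y i| := sum_nonneg fun i _ => abs_nonneg _
      have h3 : |x a - y a| * |∏ i ∈ s, x i| ≤ |x a - y a| * Q ^ (s.card + 1) := by
        apply mul_le_mul_of_nonneg_left _ (abs_nonneg _)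
        exact h2.trans (pow_le_pow_right₀ hQ (by omega))
      have h4 : |y a| * |∏ i ∈ s, x i - ∏ i ∈ s, y i| ≤ Q * (Q ^ s.card * ∑ i ∈ s, |x i - y i|) :=
        mul_le_mul (hy a (mem_insert_self a s)) h1 (abs_nonneg _) hQ0
      calc _ ≤ |x a - y a| * Q ^ (s.card + 1) + Q * (Q ^ s.card * ∑ i ∈ s, |x i - y i|) := by linarith
        _ = _ := by rw [pow_succ]; ring

theorem sum_lam_fp (N z : ℕ) (hN : 1 ≤ N) (hz : 1 ≤ z) :
    ∑ k ∈ Icc 1 N, |ArithmeticFunction.vonMangoldt k - fp z k| ≤ 2 * √(N : ℝ) * Real.log N + z * Real.log z := by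
  have hlz : 0 ≤ Real.log z := Real.log_natCast_nonneg z
  have hterm : ∀ k ∈ Icc 1 N, |ArithmeticFunction.vonMangoldt k - fp z k| ≤
      (ArithmeticFunction.vonMangoldt k - Run7.h402.PT.Fp k) + (if k ≤ z then Real.log z else 0) := by
    intro k hk
    rw [mem_Icc] at hk
    have h0 := lam_sub_Fp_nonneg k
    have h1 : 0 ≤ Run7.h402.PT.Fp k - fp z k ∧ Run7.h402.PT.Fp k - fp z k ≤ if k ≤ z then Real.log z else 0 := by
      unfold fp Run7.h402.PT.Fp
      by_cases h : k ≤ z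
      · rw [if_neg (by omega : ¬ (k.Prime ∧ z < k)), sub_zero, if_pos h]
        have hlm : Real.log k ≤ Real.log z := Real.log_le_log (by exact_mod_cast hk.1) (by exact_mod_cast h)
        have h0 : 0 ≤ Real.log k := Real.log_natCast_nonneg k
        split_ifs
        · exact ⟨h0, hlm⟩
        · exact ⟨le_rfl, hlz⟩
      · have : (k.Prime ∧ z < k) ↔ k.Prime := ⟨fun h => h.1, fun h2 => ⟨h2, by omega⟩⟩
        simp only [this]
        rw [if_neg h]
        simp
    have e : ArithmeticFunction.vonMangoldt k - fp z k = (ArithmeticFunction.vonMangoldt k - Run7.h402.PT.Fp k) + (Run7.h402.PT.Fp k - fp z k) := by ring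
    rw [e, abs_of_nonneg (by linarith [h1.1])]
    linarith [h1.2]
  refine (sum_le_sum hterm).trans ?_
  rw [sum_add_distrib]
  apply add_le_add (sum_lam_sub_Fp N hN)
  rw [← sum_filter, sum_const, nsmul_eq_mul]
  apply mul_le_mul_of_nonneg_right _ hlz
  have : ((Icc 1 N).filter (fun m => m ≤ z)).card ≤ (Icc 1 z).card := by
    apply card_le_card
    intro m hm
    rw [mem_filter, mem_Icc] at hm
    rw [mem_Icc]
    exact ⟨hm.1.1, hm.2⟩
  rw [Nat.card_Icc] at this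
  exact_mod_cast (by omega : ((Icc 1 N).filter (fun m => m ≤ z)).card ≤ z)

/-- prime powers and small primes -/
theorem lam_prod {K : ℕ} (X N z : ℕ) (hN1 : 1 ≤ N) (hz : 1 ≤ z) (a : Fin K → ℕ) (ha : ∀ i, 1 ≤ a i) (hN : ∀ i, X + a i ≤ N) (Q : ℝ) (hQ1 : 1 ≤ Q)
    (hQ : Real.log N ≤ Q) :
    ∑ n ∈ range X, |∏ i, ArithmeticFunction.vonMangoldt (n + a i) - ∏ i, fp z (n + a i)| ≤
      Q ^ K * (K * (2 * √(N : ℝ) * Real.log N + z * Real.log z)) := by
  have hbd : ∀ n ∈ range X, |∏ i, ArithmeticFunction.vonMangoldt (n + a i) - ∏ i, fp z (n + a i)| ≤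
      Q ^ K * ∑ i, |ArithmeticFunction.vonMangoldt (n + a i) - fp z (n + a i)| := by
    intro n hn
    rw [mem_range] at hn
    have hlog : ∀ i, Real.log ((n + a i : ℕ) : ℝ) ≤ Q := by
      intro i
      refine le_trans ?_ hQ
      apply Real.log_le_log
      · exact_mod_cast (by have := ha i; omega : 0 < n + a i)
      · exact_mod_cast (by have := hN i; omega : n + a i ≤ N)
    have h1 := prodLip (univ : Finset (Fin K)) (fun i => ArithmeticFunction.vonMangoldt (n + a i)) (fun i => fp z (n + a i)) Q hQ1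
      (fun i _ => by
        rw [abs_of_nonneg ArithmeticFunction.vonMangoldt_nonneg]
        exact ArithmeticFunction.vonMangoldt_le_log.trans (hlog i))
      (fun i _ => by
        rw [abs_of_nonneg (fp_nonneg _ _)]
        unfold fp
        split_ifs
        · exact hlog i
        · linarith)
    rw [card_univ, Fintype.card_fin] at h1
    exact h1
  refine (sum_le_sum hbd).trans ?_
  rw [← mul_sum, sum_comm]
  apply mul_le_mul_of_nonneg_left _ (by positivity)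
  have h2 : ∀ i ∈ (univ : Finset (Fin K)), ∑ n ∈ range X, |ArithmeticFunction.vonMangoldt (n + a i) - fp z (n + a i)| ≤
      2 * √(N : ℝ) * Real.log N + z * Real.log z := by
    intro i _
    refine le_trans ?_ (sum_lam_fp N z hN1 hz)
    have hinj : Set.InjOn (fun n : ℕ => n + a i) (range X : Finset ℕ) := by
      intro x _ y _ h
      simp only at h
      omega
    rw [← sum_image (f := fun k => |ArithmeticFunction.vonMangoldt k - fp z k|) hinj]
    apply sum_le_sum_of_subset_of_nonneg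
    · intro k hk
      rw [mem_image] at hk
      obtain ⟨n, hn, rfl⟩ := hk
      rw [mem_range] at hn
      rw [mem_Icc]
      have := ha i
      have := hN i
      omega
    · intro k _ _
      exact abs_nonneg _
  refine (sum_le_sum h2).trans ?_
  rw [sum_const, card_univ, Fintype.card_fin, nsmul_eq_mul]

theorem nz_one {K : ℕ} (v : Fin K → ℤ) (p : ℕ) (hp : p.Prime) : nz (fun _ => (1 : ℤ)) v p ≤ K := by
  have h1 : (range p).filter (fun n => Az (fun _ => (1 : ℤ)) v p n) ⊆ (univ : Finset (Fin K)).biUnion (fun i => (range p).filter (fun n : ℕ => (p : ℤ) ∣ 1 * n + v i)) := by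
    intro n hn
    rw [mem_filter] at hn
    obtain ⟨hn1, i, hi⟩ := hn
    rw [mem_biUnion]
    exact ⟨i, mem_univ _, mem_filter.2 ⟨hn1, hi⟩⟩
  unfold nz
  refine (card_le_card h1).trans (card_biUnion_le.trans ?_)
  have hp1 : ¬ (p : ℤ) ∣ 1 := by
    intro h
    have h2 : p ∣ 1 := by exact_mod_cast h
    exact hp.one_lt.ne' (Nat.dvd_one.1 h2)
  rw [sum_congr rfl fun i _ => one_form 1 (v i) p hp hp1, sum_const, card_univ, Fintype.card_fin, smul_eq_mul, mul_one]

/-- the model in intervals -/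
theorem model_intv {B E A : ℕ} {L : ℝ} (bg : Big B E A L) (hE : 1 ≤ E) (hA : 1 ≤ A) {K : ℕ} (hK : 1 ≤ K) (hKB : (K : ℝ) ≤ B * Real.log L)
    (X : ℕ) (hX : Real.exp L = X) (hV : (Vz (zL E L))⁻¹ ≤ L) (a : Fin K → ℕ) (ha : ∀ i, 1 ≤ a i) (y1 y2 : ℕ) (h12 : y1 ≤ y2) (hy : y2 ≤ X) :
    ∑ n ∈ (range X).filter (fun n => y1 ≤ n ∧ n < y2), ∏ i, gp (zL E L) (n + a i) ≤
      2 * ((y2 : ℝ) - y1) / X * (∑ n ∈ range X, ∏ i, gp (zL E L) (n + a i) + 2 * (X / L ^ A)) + 4 * (X / L ^ A) := by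
  obtain ⟨hL0, hLe, hs1, hss, hsL, f1, f2, f3, f4, f5, f6⟩ := big_facts bg
  have hb1 := bg.b1
  obtain ⟨hz1, hz2, hz3⟩ := zL_bounds bg hE
  obtain ⟨z, hz⟩ : ∃ z : ℕ, z = zL E L := ⟨_, rfl⟩
  obtain ⟨v, hv⟩ : ∃ v : Fin K → ℤ, v = fun i => (a i : ℤ) - 1 := ⟨_, rfl⟩
  have hX0 : (0 : ℝ) < X := by rw [← hX]; exact Real.exp_pos _
  have hnf : ∀ i, ∀ n : ℕ, nf 1 (v i) (n + 1) = n + a i := by
    intro i n
    unfold nf
    rw [hv]
    simp only
    have := ha i
    omega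
  -- the sums in terms of the model
  have hconv : ∀ y : ℕ, ∑ n ∈ Ioc 0 y, ∏ i, gp z (nf 1 (v i) n) = ∑ n ∈ range y, ∏ i, gp z (n + a i) := by
    intro y
    refine sum_bij' (fun n _ => n - 1) (fun n _ => n + 1) ?_ ?_ ?_ ?_ ?_
    · intro n hn
      rw [mem_Ioc] at hn
      rw [mem_range]
      omega
    · intro n hn
      rw [mem_range] at hn
      rw [mem_Ioc]
      omega
    · intro n hn
      rw [mem_Ioc] at hn
      omega
    · intro n hn
      omega
    · intro n hn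
      rw [mem_Ioc] at hn
      apply prod_congr rfl
      intro i _
      rw [← hnf i (n - 1)]
      congr 2
      omega
  set R : ℕ → ℝ := fun y => (((Ioc 0 y).filter (fun n : ℕ => ∀ i, ((zL E L : ℕ) : ℤ) + 1 ≤ 1 * n + v i)).card : ℝ) with hR
  have hm : ∀ y ≤ X, |∑ n ∈ range y, ∏ i, gp z (n + a i) - lS K (nz (fun _ => (1 : ℤ)) v) (zL E L) * R y| ≤ 2 * (X / L ^ A) := by
    intro y hy
    have h1 := model_int bg hE hK hKB X hX hV (fun _ => (1 : ℤ)) v (fun p hp => nz_one v p hp) y hy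
    rw [← hz, hconv y, hz] at h1
    rw [hz]
    exact h1
  set S := lS K (nz (fun _ => (1 : ℤ)) v) (zL E L) with hS
  have hS0 : 0 ≤ S := lS_nonneg K _ (fun p _ => nz_le_p _ _ p) _
  have hRd : R y2 ≤ R y1 + ((y2 : ℝ) - y1) := by
    have h1 : ((Ioc 0 y2).filter (fun n : ℕ => ∀ i, ((zL E L : ℕ) : ℤ) + 1 ≤ 1 * n + v i)).card ≤
        ((Ioc 0 y1).filter (fun n : ℕ => ∀ i, ((zL E L : ℕ) : ℤ) + 1 ≤ 1 * n + v i)).card + (y2 - y1) := by
      have h2 : (Ioc 0 y2).filter (fun n : ℕ => ∀ i, ((zL E L : ℕ) : ℤ) + 1 ≤ 1 * n + v i) ⊆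
          (Ioc 0 y1).filter (fun n : ℕ => ∀ i, ((zL E L : ℕ) : ℤ) + 1 ≤ 1 * n + v i) ∪ Ioc y1 y2 := by
        intro n hn
        rw [mem_filter, mem_Ioc] at hn
        rw [mem_union, mem_filter, mem_Ioc, mem_Ioc]
        rcases Nat.lt_or_ge y1 n with h3 | h3
        · right
          exact ⟨h3, hn.1.2⟩
        · left
          exact ⟨⟨hn.1.1, h3⟩, hn.2⟩
      have h3 := (card_le_card h2).trans (card_union_le _ _)
      rw [Nat.card_Ioc] at h3
      exact h3
    have h2 : (((Ioc 0 y2).filter (fun n : ℕ => ∀ i, ((zL E L : ℕ) : ℤ) + 1 ≤ 1 * n + v i)).card : ℝ) ≤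
        (((Ioc 0 y1).filter (fun n : ℕ => ∀ i, ((zL E L : ℕ) : ℤ) + 1 ≤ 1 * n + v i)).card : ℝ) + ((y2 - y1 : ℕ) : ℝ) := by exact_mod_cast h1
    rw [Nat.cast_sub h12] at h2
    exact h2
  have hRX : (X : ℝ) / 2 ≤ R X := by
    have h1 : X - z ≤ ((Ioc 0 X).filter (fun n : ℕ => ∀ i, ((zL E L : ℕ) : ℤ) + 1 ≤ 1 * n + v i)).card := by
      have h2 : Ioc z X ⊆ (Ioc 0 X).filter (fun n : ℕ => ∀ i, ((zL E L : ℕ) : ℤ) + 1 ≤ 1 * n + v i) := by
        intro n hn
        rw [mem_Ioc] at hn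
        rw [mem_filter, mem_Ioc]
        refine ⟨⟨by omega, hn.2⟩, fun i => ?_⟩
        rw [hv]
        simp only
        have := ha i
        omega
      have h3 := card_le_card h2
      rw [Nat.card_Ioc] at h3
      exact h3
    have h2 : (2 * z : ℝ) ≤ X := by
      have h3 : L ^ E = Real.exp (E * Real.log L) := by rw [Real.exp_nat_mul, hLe]
      have h4 : (2 : ℝ) ≤ Real.exp 1 := by linarith [Real.exp_one_gt_d9]
      calc (2 * z : ℝ) ≤ Real.exp 1 * L ^ E := by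
            rw [hz]
            apply mul_le_mul h4 hz2 (Nat.cast_nonneg _) (Real.exp_pos _).le
        _ = Real.exp (1 + E * Real.log L) := by rw [h3, ← Real.exp_add]
        _ ≤ Real.exp L := by
            apply Real.exp_le_exp.2
            linarith
        _ = X := hX
    have h3 : 2 * z ≤ X := by exact_mod_cast h2
    have h4 : ((X - z : ℕ) : ℝ) ≤ R X := by
      simp only [hR]
      exact_mod_cast h1
    rw [Nat.cast_sub (by omega)] at h4
    linarith
  have hSX : S ≤ 2 / X * (∑ n ∈ range X, ∏ i, gp z (n + a i) + 2 * (X / L ^ A)) := by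
    have h1 := abs_le.1 (hm X le_rfl)
    have h2 : S * (X / 2) ≤ S * R X := mul_le_mul_of_nonneg_left hRX hS0
    have h3 : S * (X / 2) ≤ ∑ n ∈ range X, ∏ i, gp z (n + a i) + 2 * (X / L ^ A) := by linarith [h1.1]
    calc S = 2 / X * (S * (X / 2)) := by field_simp
      _ ≤ _ := mul_le_mul_of_nonneg_left h3 (by positivity)
  have hsplit : ∑ n ∈ (range X).filter (fun n => y1 ≤ n ∧ n < y2), ∏ i, gp z (n + a i) =
      ∑ n ∈ range y2, ∏ i, gp z (n + a i) - ∑ n ∈ range y1, ∏ i, gp z (n + a i) := by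
    have e1 : (range X).filter (fun n => y1 ≤ n ∧ n < y2) = Ico y1 y2 := by
      ext n
      rw [mem_filter, mem_range, mem_Ico]
      constructor
      · intro h
        exact h.2
      · intro h
        exact ⟨by omega, h⟩
    rw [e1, sum_Ico_eq_sub _ h12]
  rw [← hz, hsplit]
  have g1 := abs_le.1 (hm y1 (h12.trans hy))
  have g2 := abs_le.1 (hm y2 hy)
  have hd : 0 ≤ (y2 : ℝ) - y1 := by
    have : (y1 : ℝ) ≤ y2 := by exact_mod_cast h12
    linarith
  have h5 : S * R y2 ≤ S * R y1 + S * ((y2 : ℝ) - y1) := by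
    rw [← mul_add]
    exact mul_le_mul_of_nonneg_left hRd hS0
  have h6 : S * ((y2 : ℝ) - y1) ≤ (2 / X * (∑ n ∈ range X, ∏ i, gp z (n + a i) + 2 * (X / L ^ A))) * ((y2 : ℝ) - y1) :=
    mul_le_mul_of_nonneg_right hSX hd
  calc _ ≤ S * ((y2 : ℝ) - y1) + 4 * (X / L ^ A) := by linarith [g1.1, g2.2]
    _ ≤ (2 / X * (∑ n ∈ range X, ∏ i, gp z (n + a i) + 2 * (X / L ^ A))) * ((y2 : ℝ) - y1) + 4 * (X / L ^ A) := by linarith
    _ = _ := by ring

/-- the mean of the model over short intervals -/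
theorem gp_mean {B C v R E U Bu : ℕ} {L : ℝ} (cd : Cond B C v R E U Bu L) (H z x : ℕ) (hH : Real.exp (L / 4) ≤ H)
    (hz1 : 1 ≤ z) (hz : (z : ℝ) ≤ L ^ E) (hVz : (Vz z)⁻¹ ≤ L) :
    ∑ m ∈ range H, gp z (x + m) ≤ H * (1 + Real.exp (-(√L / 2))) := by
  have hV0 := Vz_pos z
  have hVi0 : 0 ≤ (Vz z)⁻¹ := inv_nonneg.2 hV0.le
  have key := multi_sieveG 1 (by norm_num) (Az (fun _ : Fin 1 => (1 : ℤ)) (fun _ => (x : ℤ) - 1)) (fun p n => Az_mod _ _ p n) H z ⌈√L⌉₊ hz1
    (fun p hp => nz_one (K := 1) (fun _ => (x : ℤ) - 1) p (mem_pz.1 hp).2)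
  have hprod : ∏ p ∈ pz z, (1 - (((range p).filter (fun b => Az (fun _ : Fin 1 => (1 : ℤ)) (fun _ => (x : ℤ) - 1) p b)).card : ℝ) / p) = Vz z := by
    unfold Vz
    apply prod_congr rfl
    intro p hp
    have hpp := (mem_pz.1 hp).2
    have hp1 : ¬ (p : ℤ) ∣ 1 := by
      intro h
      have h2 : p ∣ 1 := by exact_mod_cast h
      exact hpp.one_lt.ne' (Nat.dvd_one.1 h2)
    have h1 : (range p).filter (fun b => Az (fun _ : Fin 1 => (1 : ℤ)) (fun _ => (x : ℤ) - 1) p b) = (range p).filter (fun n : ℕ => (p : ℤ) ∣ (1 : ℤ) * n + ((x : ℤ) - 1)) := by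
      ext n
      rw [mem_filter, mem_filter]
      unfold Az
      simp
    rw [h1, one_form 1 _ p hpp hp1, Nat.cast_one]
  rw [hprod] at key
  have hle : ∑ m ∈ range H, gp z (x + m) ≤ (Vz z)⁻¹ * ((((Icc 1 H).filter (fun n => ∀ p ∈ pz z, ¬ Az (fun _ : Fin 1 => (1 : ℤ)) (fun _ => (x : ℤ) - 1) p n)).card : ℕ) : ℝ) := by
    have e1 : ∑ m ∈ range H, gp z (x + m) = ∑ n ∈ Icc 1 H, gp z (x + (n - 1)) := by
      symm
      refine sum_bij' (fun n _ => n - 1) (fun n _ => n + 1) ?_ ?_ ?_ ?_ ?_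
      · intro n hn
        rw [mem_Icc] at hn
        rw [mem_range]
        omega
      · intro n hn
        rw [mem_range] at hn
        rw [mem_Icc]
        omega
      · intro n hn
        rw [mem_Icc] at hn
        omega
      · intro n hn
        omega
      · intro n hn
        rfl
    have e2 : (Vz z)⁻¹ * ((((Icc 1 H).filter (fun n => ∀ p ∈ pz z, ¬ Az (fun _ : Fin 1 => (1 : ℤ)) (fun _ => (x : ℤ) - 1) p n)).card : ℕ) : ℝ) =
        ∑ n ∈ Icc 1 H, if (∀ p ∈ pz z, ¬ Az (fun _ : Fin 1 => (1 : ℤ)) (fun _ => (x : ℤ) - 1) p n) then (Vz z)⁻¹ else 0 := by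
      rw [← sum_filter, sum_const, nsmul_eq_mul, mul_comm]
    rw [e1, e2]
    apply sum_le_sum
    intro n hn
    rw [mem_Icc] at hn
    have hcast : ((x + (n - 1) : ℕ) : ℤ) = 1 * (n : ℤ) + ((x : ℤ) - 1) := by
      push_cast [Nat.cast_sub hn.1]
      ring
    split_ifs with h
    · exact gp_le z _
    · push Not at h
      obtain ⟨p, hp, i, hi⟩ := h
      have h2 : p ∣ x + (n - 1) := by
        have h3 : (p : ℤ) ∣ ((x + (n - 1) : ℕ) : ℤ) := by rw [hcast]; exact hi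
        exact_mod_cast h3
      have : gp z (x + (n - 1)) = 0 := by
        unfold gp
        split_ifs
        · unfold lamz
          rw [if_neg]
          intro h6
          exact h6 p hp h2
        · rfl
      rw [this]
  refine hle.trans ?_
  have h1 := (abs_le.1 key).2
  have hH0 : (0 : ℝ) ≤ H := Nat.cast_nonneg H
  -- the error
  have herr : (Vz z)⁻¹ * ((((z : ℝ) + 1) * (1 : ℕ)) ^ ⌈√L⌉₊ + 2 * H * Real.exp (3 * ((1 : ℕ) * (1 + Real.log z)) - ⌈√L⌉₊)) ≤ H * Real.exp (-(√L / 2)) := by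
    refine le_trans ?_ (eta_bound cd H z hH hz1 hz hVz)
    have hVi1 : 1 ≤ (Vz z)⁻¹ := (one_le_inv₀ hV0).2 (Vz_le_one z)
    have hlz : 0 ≤ Real.log z := Real.log_natCast_nonneg z
    have hzz : (0 : ℝ) ≤ z := Nat.cast_nonneg z
    have k1 : (((z : ℝ) + 1) * (1 : ℕ)) ^ ⌈√L⌉₊ ≤ (((z : ℝ) + 1) * (2 : ℕ)) ^ ⌈√L⌉₊ := by
      apply pow_le_pow_left₀ (by positivity)
      push_cast
      linarith
    have k2 : 2 * (H : ℝ) * Real.exp (3 * ((1 : ℕ) * (1 + Real.log z)) - ⌈√L⌉₊) ≤ 2 * H * Real.exp (3 * ((2 : ℕ) * (1 + Real.log z)) - ⌈√L⌉₊) := by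
      apply mul_le_mul_of_nonneg_left _ (by positivity)
      apply Real.exp_le_exp.2
      push_cast
      linarith
    have k3 : (Vz z)⁻¹ ≤ (Vz z)⁻¹ ^ 2 := by
      rw [pow_two]
      exact le_mul_of_one_le_right hVi0 hVi1
    apply mul_le_mul k3 _ (by positivity) (sq_nonneg _)
    have k4 : (0 : ℝ) ≤ 2 * ((z : ℝ) + 1) := by positivity
    linarith
  have h2 : (Vz z)⁻¹ * (H * Vz z) = H := by
    field_simp
  calc _ ≤ (Vz z)⁻¹ * (H * Vz z + ((((z : ℝ) + 1) * (1 : ℕ)) ^ ⌈√L⌉₊ + 2 * H * Real.exp (3 * ((1 : ℕ) * (1 + Real.log z)) - ⌈√L⌉₊))) := by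
        apply mul_le_mul_of_nonneg_left _ hVi0
        linarith
    _ = (Vz z)⁻¹ * (H * Vz z) + (Vz z)⁻¹ * ((((z : ℝ) + 1) * (1 : ℕ)) ^ ⌈√L⌉₊ + 2 * H * Real.exp (3 * ((1 : ℕ) * (1 + Real.log z)) - ⌈√L⌉₊)) := by ring
    _ ≤ H + H * Real.exp (-(√L / 2)) := by
        rw [h2]
        linarith
    _ = _ := by ring

/-- the mean of the products -/
theorem prod_mean {B C v R E U Bu : ℕ} {L : ℝ} (cd : Cond B C v R E U Bu L) {K : ℕ} (hK : (K : ℝ) * Real.exp (-(√L / 2)) ≤ 1) (H b : Fin K → ℕ) (z X : ℕ)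
    (hH : ∀ i, Real.exp (L / 4) ≤ H i) (hz1 : 1 ≤ z) (hz : (z : ℝ) ≤ L ^ E) (hVz : (Vz z)⁻¹ ≤ L) :
    ∑ m ∈ Fintype.piFinset (fun i : Fin K => range (H i)), ∑ n ∈ range X, ∏ i, gp z (n + b i + m i) ≤ 3 * (X * ∏ i, (H i : ℝ)) := by
  rw [sum_comm]
  have h1 : ∀ n ∈ range X, ∑ m ∈ Fintype.piFinset (fun i : Fin K => range (H i)), ∏ i, gp z (n + b i + m i) ≤ 3 * ∏ i, (H i : ℝ) := by
    intro n _
    rw [← prod_univ_sum (fun i : Fin K => range (H i)) (fun i m => gp z (n + b i + m))]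
    have h2 : ∏ i, ∑ m ∈ range (H i), gp z (n + b i + m) ≤ ∏ i, ((H i : ℝ) * (1 + Real.exp (-(√L / 2)))) :=
      prod_le_prod (fun i _ => sum_nonneg fun m _ => gp_nonneg _ _) fun i _ => gp_mean cd (H i) z (n + b i) (hH i) hz1 hz hVz
    refine h2.trans ?_
    rw [prod_mul_distrib, prod_const, card_univ, Fintype.card_fin, mul_comm]
    apply mul_le_mul_of_nonneg_right _ (prod_nonneg fun i _ => Nat.cast_nonneg _)
    have h3 : 1 + Real.exp (-(√L / 2)) ≤ Real.exp (Real.exp (-(√L / 2))) := by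
      have := Real.add_one_le_exp (Real.exp (-(√L / 2)))
      linarith
    calc (1 + Real.exp (-(√L / 2))) ^ K ≤ (Real.exp (Real.exp (-(√L / 2)))) ^ K := pow_le_pow_left₀ (by positivity) h3 K
      _ = Real.exp (K * Real.exp (-(√L / 2))) := (Real.exp_nat_mul _ _).symm
      _ ≤ Real.exp 1 := Real.exp_le_exp.2 hK
      _ ≤ 3 := by linarith [Real.exp_one_lt_d9]
  refine (sum_le_sum h1).trans ?_
  rw [sum_const, card_range, nsmul_eq_mul]
  apply le_of_eq
  ring

end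

end Run7.h402.PC
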