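import Mathlib
import Pool.Agent.Run7.h402.PC.C8

/-!
# The Hardy-Littlewood-Chowla statement with many factors on average
-/

set_option autoImplicit false

open Finset

namespace Run7.h402.PC

open Run7.h402.PX Run7.h402.PV Run7.h402.PD
open Run7.h402.PY (core' Cond2 cond2_ev)
open Pool.Agent.H373R2.T7 (Vz Vz_inv_small Vz_pos Vz_le_one lamz lamz_nonneg pz mem_pz)
open Pool.Agent.N475.SP (dom)

noncomputable section

open Classical in
theorem markov_card {α : Type} (s : Finset α) (f : α → ℝ) (hf : ∀ x ∈ s, 0 ≤ f x) (t S : ℝ) (ht : 0 < t) (hS : ∑ x ∈ s, f x ≤ S) :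
    ((s.filter (fun x => t < f x)).card : ℝ) ≤ S / t := by
  rw [le_div_iff₀ ht]
  refine le_trans ?_ hS
  calc ((s.filter (fun x => t < f x)).card : ℝ) * t = ∑ _x ∈ s.filter (fun x => t < f x), t := by rw [sum_const, nsmul_eq_mul]
    _ ≤ ∑ x ∈ s.filter (fun x => t < f x), f x := sum_le_sum fun x hx => (mem_filter.1 hx).2.le
    _ ≤ _ := sum_le_sum_of_subset_of_nonneg (filter_subset _ _) fun x hx _ => hf x hx

open Classical in
theorem union_count {α : Type} (Pi : Finset α) (ys : Finset ℕ) (P : ℕ → α → Prop) (β : ℝ)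
    (h : ∀ y ∈ ys, ((Pi.filter (fun m => P y m)).card : ℝ) ≤ β) :
    ((Pi.filter (fun x => ∃ y ∈ ys, P y x)).card : ℝ) ≤ ys.card * β := by
  have h1 : Pi.filter (fun x => ∃ y ∈ ys, P y x) ⊆ ys.biUnion (fun y => Pi.filter (fun m => P y m)) := by
    intro x hx
    rw [mem_filter] at hx
    obtain ⟨hx1, y, hy, hP⟩ := hx
    rw [mem_biUnion]
    exact ⟨y, hy, mem_filter.2 ⟨hx1, hP⟩⟩
  have h3 : ((Pi.filter (fun x => ∃ y ∈ ys, P y x)).card : ℝ) ≤ ((∑ y ∈ ys, (Pi.filter (fun m => P y m)).card : ℕ) : ℝ) := by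
    exact_mod_cast (card_le_card h1).trans card_biUnion_le
  refine h3.trans ?_
  push_cast
  calc ∑ y ∈ ys, ((Pi.filter (fun m => P y m)).card : ℝ) ≤ ∑ _y ∈ ys, β := sum_le_sum fun y hy => h y hy
    _ = _ := by rw [sum_const, nsmul_eq_mul]

/-- prime powers: the numerical bound -/
theorem epp_num {B E A : ℕ} {L : ℝ} (bg : Big B E (A + 3) L) (hE : 1 ≤ E) {K : ℕ} (hKB : (K : ℝ) ≤ B * Real.log L)
    (X : ℕ) (hX : Real.exp L = X) :
    Real.log ((4 * X : ℕ) : ℝ) ≤ 2 * L ∧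
    (2 * L) ^ K * (K * (2 * √((4 * X : ℕ) : ℝ) * Real.log ((4 * X : ℕ) : ℝ) + (zL E L : ℕ) * Real.log (zL E L : ℕ))) ≤ X / (8 * L ^ A) := by
  obtain ⟨hL0, hLe, hs1, hss, hsL, f1, f2, f3, f4, f5, f6⟩ := big_facts bg
  have h1 := bg.b1
  have h0 := bg.b0
  obtain ⟨hz1, hz2, hz3⟩ := zL_bounds bg hE
  obtain ⟨z, hz⟩ : ∃ z : ℕ, z = zL E L := ⟨_, rfl⟩
  rw [← hz] at hz1 hz2 hz3 ⊢
  set ℓ := Real.log L with hℓ
  have hpow : ∀ n : ℕ, L ^ n = Real.exp (n * ℓ) := by
    intro n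
    rw [Real.exp_nat_mul, hLe]
  have hX0 : (0 : ℝ) < X := by rw [← hX]; exact Real.exp_pos _
  have hlogX : Real.log X = L := by rw [← hX, Real.log_exp]
  have hlog4 : Real.log ((4 * X : ℕ) : ℝ) ≤ 2 * L := by
    push_cast
    rw [Real.log_mul (by norm_num) hX0.ne', hlogX]
    have : Real.log 4 ≤ L := by
      rw [Real.log_le_iff_le_exp (by norm_num)]
      have := Real.add_one_le_exp L
      linarith
    linarith
  refine ⟨hlog4, ?_⟩
  have hlog40 : 0 ≤ Real.log ((4 * X : ℕ) : ℝ) := Real.log_natCast_nonneg _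
  have hsq : √((4 * X : ℕ) : ℝ) = 2 * Real.exp (L / 2) := by
    have : ((4 * X : ℕ) : ℝ) = (2 * Real.exp (L / 2)) ^ 2 := by
      rw [mul_pow, ← Real.exp_nat_mul]
      push_cast
      have e1 : (2 : ℝ) * (L / 2) = L := by ring
      rw [e1, hX]
      ring
    rw [this, Real.sqrt_sq (by positivity)]
  have hz0 : (0 : ℝ) < z := by exact_mod_cast hz1
  have hlz : Real.log z ≤ L := by
    have h2 : Real.log z ≤ E * ℓ := by
      rw [hℓ, ← Real.log_pow]
      exact Real.log_le_log hz0 hz2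
    linarith
  have hlz0 : 0 ≤ Real.log (z : ℝ) := Real.log_natCast_nonneg _
  have hzL : (z : ℝ) ≤ Real.exp (L / 2) := by
    refine hz2.trans ?_
    rw [hpow]
    apply Real.exp_le_exp.2
    linarith
  have hKL : (K : ℝ) ≤ L := by linarith
  have h2LK : (2 * L) ^ K ≤ Real.exp (2 * (B * ℓ ^ 2)) := by
    have e1 : 2 * L ≤ L ^ 2 := by nlinarith
    calc (2 * L) ^ K ≤ (L ^ 2) ^ K := pow_le_pow_left₀ (by positivity) e1 K
      _ = Real.exp (K * (2 * ℓ)) := by
          rw [hpow, ← Real.exp_nat_mul]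
          push_cast
          rfl
      _ ≤ _ := by
          apply Real.exp_le_exp.2
          calc (K : ℝ) * (2 * ℓ) ≤ (B * ℓ) * (2 * ℓ) := mul_le_mul_of_nonneg_right hKB (by positivity)
            _ = 2 * (B * ℓ ^ 2) := by ring
  rw [le_div_iff₀ (by positivity), hsq]
  have hin : 2 * (2 * Real.exp (L / 2)) * Real.log ((4 * X : ℕ) : ℝ) + z * Real.log z ≤ 9 * L * Real.exp (L / 2) := by
    have e1 : 2 * (2 * Real.exp (L / 2)) * Real.log ((4 * X : ℕ) : ℝ) ≤ 2 * (2 * Real.exp (L / 2)) * (2 * L) :=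
      mul_le_mul_of_nonneg_left hlog4 (by positivity)
    have e2 : (z : ℝ) * Real.log z ≤ Real.exp (L / 2) * L := mul_le_mul hzL hlz hlz0 (Real.exp_pos _).le
    linarith
  have hin0 : 0 ≤ 2 * (2 * Real.exp (L / 2)) * Real.log ((4 * X : ℕ) : ℝ) + z * Real.log z := by positivity
  calc (2 * L) ^ K * (K * (2 * (2 * Real.exp (L / 2)) * Real.log ((4 * X : ℕ) : ℝ) + z * Real.log z)) * (8 * L ^ A) ≤
      Real.exp (2 * (B * ℓ ^ 2)) * (L * (9 * L * Real.exp (L / 2))) * (8 * L ^ A) := by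
        gcongr
    _ = 72 * L ^ (A + 2) * (Real.exp (2 * (B * ℓ ^ 2)) * Real.exp (L / 2)) := by ring
    _ ≤ L ^ (A + 3) * (Real.exp (2 * (B * ℓ ^ 2)) * Real.exp (L / 2)) := by
        apply mul_le_mul_of_nonneg_right _ (by positivity)
        rw [pow_succ L (A + 2), mul_comm]
        apply mul_le_mul_of_nonneg_left _ (by positivity)
        linarith
    _ = Real.exp (((A + 3 : ℕ) : ℝ) * ℓ + (2 * (B * ℓ ^ 2) + L / 2)) := by
        rw [hpow, Real.exp_add, Real.exp_add]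
    _ ≤ Real.exp L := by
        apply Real.exp_le_exp.2
        push_cast at f3 ⊢
        linarith
    _ = X := hX

/-- truncation -/
def tr (c : ℕ → ℝ) (y n : ℕ) : ℝ := if n < y then c n else 0

theorem tr_le (c : ℕ → ℝ) (hc : ∀ n, |c n| ≤ 1) (y n : ℕ) : |tr c y n| ≤ 1 := by
  unfold tr
  split_ifs
  · exact hc n
  · simp

/-- the pointwise argument -/
theorem pointwise {K : ℕ} (X z s : ℕ) (hs : 1 ≤ s) (a : Fin K → ℕ) (c : ℕ → ℝ) (hc : ∀ n, |c n| ≤ 1) (ys : Finset ℕ)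
    (hys : ∀ y ≤ X, s * (y / s) ∈ ys) (Th E1 : ℝ)
    (h0 : ∑ n ∈ range X, |∏ i, ArithmeticFunction.vonMangoldt (n + a i) - ∏ i, fp z (n + a i)| ≤ Th)
    (h1 : ∀ y ∈ ys, |∑ n ∈ range X, tr c y n * ∏ i, gp z (n + a i)| ≤ Th)
    (h2 : ∀ y ∈ ys, |∑ n ∈ range X, tr c y n * (∏ i, fp z (n + a i) - ∏ i, gp z (n + a i))| ≤ Th)
    (h3 : ∀ y ∈ ys, |∑ n ∈ range X, (if y ≤ n ∧ n < y + s then 1 else 0) * (∏ i, fp z (n + a i) - ∏ i, gp z (n + a i))| ≤ Th)
    (h4 : ∀ y ∈ ys, y ≤ X → ∑ n ∈ (range X).filter (fun n => y ≤ n ∧ n < min (y + s) X), ∏ i, gp z (n + a i) ≤ E1) :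
    ∀ y ≤ X, |∑ n ∈ range X, tr c y n * ∏ i, ArithmeticFunction.vonMangoldt (n + a i)| ≤ 4 * Th + E1 := by
  intro y hy
  set yj := s * (y / s) with hyj
  have hj := hys y hy
  have hj1 : yj ≤ y := Nat.mul_div_le y s
  have hj2 : y < yj + s := by
    have := Nat.lt_mul_div_succ y hs
    rw [Nat.mul_add, mul_one] at this
    exact this
  have hcw := tr_le c hc
  -- replacing the von Mangoldt function
  have e0 : |∑ n ∈ range X, tr c y n * ∏ i, ArithmeticFunction.vonMangoldt (n + a i) - ∑ n ∈ range X, tr c y n * ∏ i, fp z (n + a i)| ≤ Th := by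
    rw [← sum_sub_distrib]
    refine (abs_sum_le_sum_abs _ _).trans (le_trans (sum_le_sum fun n _ => ?_) h0)
    rw [← mul_sub, abs_mul]
    exact mul_le_of_le_one_left (abs_nonneg _) (hcw y n)
  -- the grid
  have hfpn : ∀ n, 0 ≤ ∏ i, fp z (n + a i) := fun n => prod_nonneg fun i _ => fp_nonneg _ _
  have e1 : |∑ n ∈ range X, tr c y n * ∏ i, fp z (n + a i) - ∑ n ∈ range X, tr c yj n * ∏ i, fp z (n + a i)| ≤
      ∑ n ∈ range X, (if yj ≤ n ∧ n < yj + s then 1 else 0) * ∏ i, fp z (n + a i) := by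
    rw [← sum_sub_distrib]
    refine (abs_sum_le_sum_abs _ _).trans (sum_le_sum fun n _ => ?_)
    rw [← sub_mul, abs_mul, abs_of_nonneg (hfpn n)]
    apply mul_le_mul_of_nonneg_right _ (hfpn n)
    by_cases c1 : n < yj
    · have : tr c y n = tr c yj n := by
        unfold tr
        rw [if_pos c1, if_pos (by omega)]
      rw [this, sub_self, abs_zero]
      split_ifs <;> norm_num
    · have e2 : tr c yj n = 0 := by
        unfold tr
        rw [if_neg c1]
      rw [e2, sub_zero]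
      by_cases c2 : n < y
      · rw [if_pos ⟨by omega, by omega⟩]
        exact hcw y n
      · have e3 : tr c y n = 0 := by
          unfold tr
          rw [if_neg c2]
        rw [e3, abs_zero]
        split_ifs <;> norm_num
  have e2 : ∑ n ∈ range X, (if yj ≤ n ∧ n < yj + s then 1 else 0) * ∏ i, fp z (n + a i) ≤ Th + E1 := by
    have k1 : ∑ n ∈ range X, (if yj ≤ n ∧ n < yj + s then 1 else 0) * ∏ i, fp z (n + a i) =
        ∑ n ∈ range X, (if yj ≤ n ∧ n < yj + s then 1 else 0) * (∏ i, fp z (n + a i) - ∏ i, gp z (n + a i)) +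
        ∑ n ∈ range X, (if yj ≤ n ∧ n < yj + s then 1 else 0) * ∏ i, gp z (n + a i) := by
      rw [← sum_add_distrib]
      apply sum_congr rfl
      intro n _
      ring
    have k2 : ∑ n ∈ range X, (if yj ≤ n ∧ n < yj + s then (1 : ℝ) else 0) * ∏ i, gp z (n + a i) =
        ∑ n ∈ (range X).filter (fun n => yj ≤ n ∧ n < min (yj + s) X), ∏ i, gp z (n + a i) := by
      rw [sum_filter]
      apply sum_congr rfl
      intro n hn
      rw [mem_range] at hn
      by_cases c : yj ≤ n ∧ n < yj + s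
      · rw [if_pos c, if_pos ⟨c.1, lt_min c.2 hn⟩, one_mul]
      · rw [if_neg c, if_neg (fun c' => c ⟨c'.1, lt_of_lt_of_le c'.2 (min_le_left _ _)⟩), zero_mul]
    rw [k1, k2]
    exact add_le_add ((le_abs_self _).trans (h3 yj hj)) (h4 yj hj (hj1.trans hy))
  have e3 : |∑ n ∈ range X, tr c yj n * ∏ i, fp z (n + a i)| ≤ 2 * Th := by
    have k1 : ∑ n ∈ range X, tr c yj n * ∏ i, fp z (n + a i) =
        ∑ n ∈ range X, tr c yj n * (∏ i, fp z (n + a i) - ∏ i, gp z (n + a i)) +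
        ∑ n ∈ range X, tr c yj n * ∏ i, gp z (n + a i) := by
      rw [← sum_add_distrib]
      apply sum_congr rfl
      intro n _
      ring
    rw [k1]
    refine (abs_add_le _ _).trans ?_
    linarith [h1 yj hj, h2 yj hj]
  have e4 : ∀ p q r : ℝ, |p| ≤ |p - q| + (|q - r| + |r|) := by
    intro p q r
    have k1 : p = (p - q) + ((q - r) + r) := by ring
    calc |p| = |(p - q) + ((q - r) + r)| := by rw [← k1]
      _ ≤ |p - q| + |(q - r) + r| := abs_add_le _ _
      _ ≤ _ := by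
          have := abs_add_le (q - r) r
          linarith
  refine (e4 _ (∑ n ∈ range X, tr c y n * ∏ i, fp z (n + a i)) (∑ n ∈ range X, tr c yj n * ∏ i, fp z (n + a i))).trans ?_
  linarith

end

end Run7.h402.PC
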