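import Mathlib
import Pool.Agent.Run7.h402.PC.C9
import Pool.Agent.Run7.h402.PY.Y1

/-!
# The Hardy-Littlewood-Chowla statement with many factors on average: the theorem
-/

set_option autoImplicit false

open Finset

namespace Run7.h402.PC

open Run7.h402.PX Run7.h402.PV Run7.h402.PD
open Run7.h402.PY (core' law Cond2 cond2_ev)
open Pool.Agent.H373R2.T7 (Vz Vz_inv_small Vz_pos Vz_le_one lamz lamz_nonneg pz mem_pz)
open Pool.Agent.N475.SP (dom)

noncomputable section

open Classical in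
/-- the theorem for one weight, in the form for `range` -/
theorem hlc_one (A B : ℕ) : ∃ D C X0 : ℕ, ∀ X : ℕ, X0 ≤ X → ∀ K : ℕ, 1 ≤ K → (K : ℝ) ≤ B * Real.log (Real.log X) →
    ∀ b H : Fin K → ℕ, (∀ i, b i ≤ X) → (∀ i, (X : ℝ) ^ (1 / 3 : ℝ) * Real.log X ^ C ≤ H i) → (∀ i, H i ≤ X) →
    ∀ c : ℕ → ℝ, (∀ n, |c n| ≤ 1) →
    (∀ y ≤ X, ∀ m : ℕ, 1 ≤ m → (m : ℝ) ≤ Real.log X ^ D → ∀ r < m, |∑ n ∈ (range X).filter (fun n => n % m = r), tr c y n| ≤ X / Real.log X ^ D) →
    (((Fintype.piFinset (fun i : Fin K => range (H i))).filter (fun x => ∃ y ≤ X, (X : ℝ) / Real.log X ^ A <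
      |∑ n ∈ range X, tr c y n * ∏ i, ArithmeticFunction.vonMangoldt (n + (b i + 1 + x i))|)).card : ℝ) ≤
      (∏ i, (H i : ℝ)) / Real.log X ^ A := by
  -- the parameters
  obtain ⟨A2, hA2⟩ : ∃ A2 : ℕ, A2 = A + 2 := ⟨_, rfl⟩
  obtain ⟨e, he⟩ : ∃ e : ℕ, e = 2 * A + 6 := ⟨_, rfl⟩
  obtain ⟨A1, hA1⟩ : ∃ A1 : ℕ, A1 = 2 * A + e + 4 := ⟨_, rfl⟩
  obtain ⟨D, hD⟩ := model_M B A1
  obtain ⟨C1, E0, hcore⟩ := core' law B 1 A1
  obtain ⟨E, hE⟩ : ∃ E : ℕ, E = E0 + (16 * B + 3) := ⟨_, rfl⟩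
  obtain ⟨N1, hmod⟩ := hD E (by omega)
  obtain ⟨N2, hcor⟩ := hcore E (by omega)
  obtain ⟨N4, hVi⟩ := Vz_inv_small E
  obtain ⟨L1, hbig⟩ := big_ev B E (A + 3)
  obtain ⟨L2, hcond⟩ := cond_ev B 0 0 0 E 0 0 (by omega) (by omega)
  refine ⟨D, C1, max (max (max N1 N2) N4) (max 3 ⌈Real.exp (max L1 L2)⌉₊), fun X hX K hK hKB b H hb hH1 hH2 c hc hcl => ?_⟩
  have hX1 : N1 ≤ X := le_trans (le_trans (le_trans (le_max_left _ _) (le_max_left _ _)) (le_max_left _ _)) hX
  have hX2 : N2 ≤ X := le_trans (le_trans (le_trans (le_max_right _ _) (le_max_left _ _)) (le_max_left _ _)) hX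
  have hX4 : N4 ≤ X := le_trans (le_trans (le_max_right _ _) (le_max_left _ _)) hX
  have hX5 : 3 ≤ X := le_trans (le_trans (le_max_left _ _) (le_max_right _ _)) hX
  have hX0 : (0 : ℝ) < X := by exact_mod_cast (by omega : 0 < X)
  have hXL : Real.exp (max L1 L2) ≤ X := (Nat.le_ceil _).trans (by exact_mod_cast le_trans (le_trans (le_max_right _ _) (le_max_right _ _)) hX)
  obtain ⟨L, hL⟩ : ∃ L : ℝ, L = Real.log X := ⟨_, rfl⟩
  have hLL0 : max L1 L2 ≤ L := by rwa [hL, Real.le_log_iff_exp_le hX0]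
  have bg := hbig L ((le_max_left _ _).trans hLL0)
  have cd := hcond L ((le_max_right _ _).trans hLL0)
  have hL1 := cd.l1
  have hL0 : 0 < L := by linarith
  have hℓ3 := cd.l0
  have hXe : Real.exp L = X := by rw [hL, Real.exp_log hX0]
  obtain ⟨_, hLe, hs1, hss, hsL, f1, f2, f3, f4, f5, f6⟩ := big_facts bg
  obtain ⟨hz1, hz2, hz3⟩ := zL_bounds bg (by omega)
  have hVz : (Vz (zL E L))⁻¹ ≤ L := by
    have := hVi X hX4 (zL E L) hz1 (by rw [← hL]; exact hz2)
    rwa [← hL] at this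
  have hpw : ∀ {m n : ℕ}, m ≤ n → L ^ m ≤ L ^ n := fun h => pow_le_pow_right₀ (by linarith) h
  have hX3pos : 0 ≤ (X : ℝ) ^ (1 / 3 : ℝ) := by positivity
  have hHlow : ∀ i, (X : ℝ) ^ (1 / 3 : ℝ) * L ^ C1 ≤ H i := by
    intro i
    have := hH1 i
    rwa [← hL] at this
  have hH3 : ∀ i, (X : ℝ) ^ (1 / 3 : ℝ) ≤ H i := by
    intro i
    refine le_trans ?_ (hHlow i)
    exact le_mul_of_one_le_right hX3pos (one_le_pow₀ (by linarith))
  have hKB' : (K : ℝ) ≤ B * Real.log L := by rw [hL]; exact hKB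
  have hKL : (K : ℝ) ≤ L := by
    have : 16 * ((B : ℝ) * Real.log L) ≤ L / 16 := f1.trans hsL
    have h2 : (0 : ℝ) ≤ B * Real.log L := by positivity
    linarith
  obtain ⟨z, hz⟩ : ∃ z : ℕ, z = zL E L := ⟨_, rfl⟩
  obtain ⟨Pi, hPi⟩ : ∃ Pi : Finset (Fin K → ℕ), Pi = Fintype.piFinset (fun i : Fin K => range (H i)) := ⟨_, rfl⟩
  obtain ⟨PH, hPH⟩ : ∃ PH : ℝ, PH = ∏ i, (H i : ℝ) := ⟨_, rfl⟩
  have hPiC : (Pi.card : ℝ) = PH := by
    rw [hPi, hPH, Fintype.card_piFinset]
    simp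
  have hPH0 : 0 ≤ PH := by rw [hPH]; exact prod_nonneg fun i _ => Nat.cast_nonneg _
  rw [← hL, ← hPi, ← hPH]
  -- the grid
  obtain ⟨J, hJ⟩ : ∃ J : ℕ, J = ⌈L ^ e⌉₊ := ⟨_, rfl⟩
  have hLe1 : 1 ≤ L ^ e := one_le_pow₀ (by linarith)
  have hJ1 : L ^ e ≤ J := by rw [hJ]; exact Nat.le_ceil _
  have hJ2 : (J : ℝ) ≤ L ^ e + 1 := by rw [hJ]; exact (Nat.ceil_lt_add_one (by positivity)).le
  have hJpos : 1 ≤ J := by
    have : (1 : ℝ) ≤ J := by linarith
    exact_mod_cast this
  obtain ⟨s, hs⟩ : ∃ s : ℕ, s = X / J + 1 := ⟨_, rfl⟩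
  have hs1' : 1 ≤ s := by
    rw [hs]
    exact Nat.le_add_left 1 _
  have hsr : (s : ℝ) ≤ X / L ^ e + 1 := by
    rw [hs]
    push_cast
    apply add_le_add _ le_rfl
    refine Nat.cast_div_le.trans ?_
    exact div_le_div_of_nonneg_left hX0.le (by positivity) hJ1
  obtain ⟨ys, hys⟩ : ∃ ys : Finset ℕ, ys = ((range (J + 1)).image (fun j => s * j)).filter (fun y => y ≤ X) := ⟨_, rfl⟩
  have hysm : ∀ y ≤ X, s * (y / s) ∈ ys := by
    intro y hy
    rw [hys, mem_filter, mem_image]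
    refine ⟨⟨y / s, ?_, rfl⟩, (Nat.mul_div_le y s).trans hy⟩
    rw [mem_range]
    have h1 : X < J * s := by
      rw [hs]
      exact Nat.lt_mul_div_succ X hJpos
    have h2 : y / s < J := Nat.div_lt_of_lt_mul (by rw [mul_comm]; omega)
    omega
  have hysc : (ys.card : ℝ) ≤ L ^ (e + 1) := by
    have h1 : ys.card ≤ J + 1 := by
      rw [hys]
      exact (card_filter_le _ _).trans (card_image_le.trans (by rw [card_range]))
    have h2 : (ys.card : ℝ) ≤ J + 1 := by exact_mod_cast h1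
    refine h2.trans ?_
    rw [pow_succ]
    nlinarith
  -- the thresholds
  obtain ⟨Th, hTh⟩ : ∃ Th : ℝ, Th = X / (8 * L ^ A) := ⟨_, rfl⟩
  have hTh0 : 0 < Th := by rw [hTh]; positivity
  -- the exceptional sets
  obtain ⟨P1, hP1⟩ : ∃ P1 : ℕ → (Fin K → ℕ) → Prop, P1 = fun y m => Th < |∑ n ∈ range X, tr c y n * ∏ i, gp z (n + (b i + 1 + m i))| := ⟨_, rfl⟩
  obtain ⟨P2, hP2⟩ : ∃ P2 : ℕ → (Fin K → ℕ) → Prop, P2 = fun y m => Th < |∑ n ∈ range X, tr c y n * (∏ i, fp z (n + (b i + 1 + m i)) - ∏ i, gp z (n + (b i + 1 + m i)))| := ⟨_, rfl⟩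
  obtain ⟨P3, hP3⟩ : ∃ P3 : ℕ → (Fin K → ℕ) → Prop, P3 = fun y m => Th < |∑ n ∈ range X, (if y ≤ n ∧ n < y + s then 1 else 0) * (∏ i, fp z (n + (b i + 1 + m i)) - ∏ i, gp z (n + (b i + 1 + m i)))| := ⟨_, rfl⟩
  obtain ⟨P4, hP4⟩ : ∃ P4 : ℕ → (Fin K → ℕ) → Prop, P4 = fun _ m => X * L ^ A2 < ∑ n ∈ range X, ∏ i, gp z (n + (b i + 1 + m i)) := ⟨_, rfl⟩
  obtain ⟨β, hβ⟩ : ∃ β : ℝ, β = 8 * PH / L ^ (A1 - A) := ⟨_, rfl⟩
  have hβe : X * PH / L ^ A1 / Th = β := by
    rw [hTh, hβ]
    have : L ^ A1 = L ^ (A1 - A) * L ^ A := by rw [← pow_add]; congr 1; omega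
    rw [this]
    field_simp
  -- the core estimate in terms of natural numbers
  have hcorn : ∀ c : ℕ → ℝ, (∀ n, |c n| ≤ 1) → ∑ m ∈ Pi, |∑ n ∈ range X, c n * (∏ i, fp z (n + (b i + 1 + m i)) - ∏ i, gp z (n + (b i + 1 + m i)))| ≤ X * PH / L ^ A1 := by
    intro c hc
    have h1 := hcor X hX2 K hK hKB (fun _ => 1) (fun i => ((b i + 1 : ℕ) : ℤ)) (fun _ => one_ne_zero) (fun _ => by
      show (((1 : ℤ).natAbs : ℕ) : ℝ) ≤ Real.log X ^ 1
      rw [Int.natAbs_one, Nat.cast_one, pow_one, ← hL]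
      linarith) (fun i => by
      show ((((b i + 1 : ℕ) : ℤ).natAbs : ℕ) : ℝ) ≤ X * Real.log X ^ 1
      rw [Int.natAbs_natCast, pow_one, ← hL]
      push_cast
      have h2 : (b i : ℝ) ≤ X := by exact_mod_cast hb i
      have h3 : (X : ℝ) * 2 ≤ X * L := mul_le_mul_of_nonneg_left (by linarith) hX0.le
      have h4 : (1 : ℝ) ≤ X := by exact_mod_cast (by omega : 1 ≤ X)
      linarith) H (fun i => by rw [← hL]; exact hHlow i) hH2 c hc
    rw [← hL, ← hz, ← hPi, ← hPH] at h1
    refine le_trans (le_of_eq ?_) h1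
    apply sum_congr rfl
    intro m _
    congr 1
    apply sum_congr rfl
    intro n _
    congr 2
    · apply prod_congr rfl
      intro i _
      congr 1
      push_cast
      omega
    · apply prod_congr rfl
      intro i _
      congr 1
      push_cast
      omega
  have hb1 : ∀ y ∈ ys, ((Pi.filter (fun m => P1 y m)).card : ℝ) ≤ β := by
    intro y hy
    have hyX : y ≤ X := by
      rw [hys, mem_filter] at hy
      exact hy.2
    have h1 := hmod X hX1 K hKB (fun i => b i + 1) H hH3 (tr c y) (tr_le c hc y) (hcl y hyX)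
    rw [← hL, ← hz, ← hPi, ← hPH] at h1
    have h2 := markov_card Pi (fun m => |∑ n ∈ range X, tr c y n * ∏ i, gp z (n + (b i + 1) + m i)|) (fun _ _ => abs_nonneg _) Th _ hTh0 h1
    rw [hβe] at h2
    refine le_trans ?_ h2
    have h3 : Pi.filter (fun m => P1 y m) ⊆ Pi.filter (fun m => Th < |∑ n ∈ range X, tr c y n * ∏ i, gp z (n + (b i + 1) + m i)|) := by
      intro m hm
      rw [mem_filter] at hm ⊢
      refine ⟨hm.1, ?_⟩
      have h5 := hm.2
      rw [hP1] at h5
      have e1 : ∀ n i, n + (b i + 1 + m i) = n + (b i + 1) + m i := fun n i => by ring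
      simp only [e1] at h5
      exact h5
    exact_mod_cast card_le_card h3
  have hb2 : ∀ y ∈ ys, ((Pi.filter (fun m => P2 y m)).card : ℝ) ≤ β := by
    intro y hy
    have h1 := hcorn (tr c y) (tr_le c hc y)
    have h2 := markov_card Pi _ (fun _ _ => abs_nonneg _) Th _ hTh0 h1
    rw [hβe] at h2
    rw [hP2]
    exact h2
  have hb3 : ∀ y ∈ ys, ((Pi.filter (fun m => P3 y m)).card : ℝ) ≤ β := by
    intro y hy
    have h1 := hcorn (fun n => if y ≤ n ∧ n < y + s then 1 else 0) (fun n => by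
      split_ifs <;> simp)
    have h2 := markov_card Pi _ (fun _ _ => abs_nonneg _) Th _ hTh0 h1
    rw [hβe] at h2
    rw [hP3]
    exact h2
  have hHe : ∀ i, Real.exp (L / 4) ≤ H i := by
    intro i
    refine le_trans ?_ (hH3 i)
    rw [← hXe, ← Real.exp_mul]
    apply Real.exp_le_exp.2
    linarith
  have hKη : (K : ℝ) * Real.exp (-(√L / 2)) ≤ 1 := by
    have h1 : L ≤ Real.exp (√L / 2) := by
      rw [← hLe]
      apply Real.exp_le_exp.2
      rw [hLe]
      linarith [Real.sqrt_nonneg L]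
    have h2 : Real.exp (√L / 2) * Real.exp (-(√L / 2)) = 1 := by rw [← Real.exp_add]; simp
    calc (K : ℝ) * Real.exp (-(√L / 2)) ≤ Real.exp (√L / 2) * Real.exp (-(√L / 2)) := by
          apply mul_le_mul_of_nonneg_right _ (Real.exp_pos _).le
          linarith
      _ = 1 := h2
  have hb4 : ∀ y ∈ ({0} : Finset ℕ), ((Pi.filter (fun m => P4 y m)).card : ℝ) ≤ 3 * PH / L ^ A2 := by
    intro y _
    have h1 := prod_mean cd hKη H (fun i => b i + 1) z X hHe (by rw [hz]; exact hz1) (by rw [hz]; exact hz2) (by rw [hz]; exact hVz)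
    rw [← hPi, ← hPH] at h1
    have h2 := markov_card Pi _ (fun _ _ => sum_nonneg fun n _ => prod_nonneg fun i _ => gp_nonneg _ _) (X * L ^ A2) _ (by positivity) h1
    have e1 : 3 * (X * PH) / (X * L ^ A2) = 3 * PH / L ^ A2 := by field_simp
    rw [e1] at h2
    refine le_trans ?_ h2
    have h3 : Pi.filter (fun m => P4 y m) ⊆ Pi.filter (fun m => X * L ^ A2 < ∑ n ∈ range X, ∏ i, gp z (n + (b i + 1) + m i)) := by
      intro m hm
      rw [mem_filter] at hm ⊢
      refine ⟨hm.1, ?_⟩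
      have h4 := hm.2
      rw [hP4] at h4
      have e1 : ∀ n i, n + (b i + 1 + m i) = n + (b i + 1) + m i := fun n i => by ring
      simp only [e1] at h4
      exact h4
    exact_mod_cast card_le_card h3
  -- the inclusion
  have hsub : Pi.filter (fun x => ∃ y ≤ X, (X : ℝ) / L ^ A <
      |∑ n ∈ range X, tr c y n * ∏ i, ArithmeticFunction.vonMangoldt (n + (b i + 1 + x i))|) ⊆
      (Pi.filter (fun x => ∃ y ∈ ys, P1 y x) ∪ Pi.filter (fun x => ∃ y ∈ ys, P2 y x)) ∪
        (Pi.filter (fun x => ∃ y ∈ ys, P3 y x) ∪ Pi.filter (fun x => ∃ y ∈ ({0} : Finset ℕ), P4 y x)) := by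
    intro x hx
    rw [mem_filter] at hx
    obtain ⟨hx1, y, hy, hbigs⟩ := hx
    by_contra hcon
    simp only [mem_union, mem_filter, not_or, not_and, hx1, true_implies] at hcon
    obtain ⟨⟨n1, n2⟩, ⟨n3, n4⟩⟩ := hcon
    push Not at n1 n2 n3 n4
    have hm := hx1
    rw [hPi, Fintype.mem_piFinset] at hm
    have hG4 : ∑ n ∈ range X, ∏ i, gp z (n + (b i + 1 + x i)) ≤ X * L ^ A2 := by
      have := n4 0 (by simp)
      rw [hP4] at this
      exact not_lt.1 this
    have hepp := epp_num bg (by omega) hKB' X hXe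
    have hlamp := lam_prod X (4 * X) z (by omega) (by rw [hz]; exact hz1) (fun i => b i + 1 + x i) (fun i => by omega) (fun i => by
      have h1 := hb i
      have h2 := mem_range.1 (hm i)
      have h3 := hH2 i
      show X + (b i + 1 + x i) ≤ 4 * X
      omega) (2 * L) (by linarith) hepp.1
    have hT0 : ∑ n ∈ range X, |∏ i, ArithmeticFunction.vonMangoldt (n + (b i + 1 + x i)) - ∏ i, fp z (n + (b i + 1 + x i))| ≤ Th := by
      refine hlamp.trans ?_
      rw [hTh, hz]
      exact hepp.2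
    have hfin := pointwise X z s hs1' (fun i => b i + 1 + x i) c hc ys hysm Th (X / (4 * L ^ A)) hT0 (by
      intro y' hy'
      have := n1 y' hy'
      rw [hP1] at this
      exact not_lt.1 this) (by
      intro y' hy'
      have := n2 y' hy'
      rw [hP2] at this
      exact not_lt.1 this) (by
      intro y' hy'
      have := n3 y' hy'
      rw [hP3] at this
      exact not_lt.1 this) (by
      intro y' hy' hy'X
      have h1 := model_intv bg (by omega) (by omega) hK hKB' X hXe hVz (fun i => b i + 1 + x i) (fun i => by omega) y' (min (y' + s) X)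
        (by
          apply le_min
          · omega
          · exact hy'X) (min_le_right _ _)
      rw [← hz] at h1
      refine h1.trans ?_
      have h2 : ((min (y' + s) X : ℕ) : ℝ) - y' ≤ s := by
        have h3 : min (y' + s) X ≤ y' + s := min_le_left _ _
        have h4 : ((min (y' + s) X : ℕ) : ℝ) ≤ y' + s := by exact_mod_cast h3
        linarith
      have h5 : 0 ≤ ∑ n ∈ range X, ∏ i, gp z (n + (b i + 1 + x i)) + 2 * (X / L ^ (A + 3)) := by
        have : 0 ≤ ∑ n ∈ range X, ∏ i, gp z (n + (b i + 1 + x i)) := sum_nonneg fun n _ => prod_nonneg fun i _ => gp_nonneg _ _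
        positivity
      have hLA3 : 1 ≤ L ^ (A + 3) := one_le_pow₀ (by linarith)
      have hLA2 : 1 ≤ L ^ A2 := one_le_pow₀ (by linarith)
      have h6 : ∑ n ∈ range X, ∏ i, gp z (n + (b i + 1 + x i)) + 2 * (X / L ^ (A + 3)) ≤ 3 * (X * L ^ A2) := by
        have h7 : X / L ^ (A + 3) ≤ X * L ^ A2 := by
          calc X / L ^ (A + 3) ≤ X := div_le_self hX0.le hLA3
            _ ≤ X * L ^ A2 := le_mul_of_one_le_right hX0.le hLA2
        linarith
      have hXLe : L ^ e ≤ X := by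
        have h7 : L ^ e = Real.exp (e * Real.log L) := by rw [Real.exp_nat_mul, hLe]
        rw [h7, ← hXe]
        apply Real.exp_le_exp.2
        rw [he]
        push_cast at f3 ⊢
        have h8 : (0 : ℝ) ≤ A * Real.log L := by positivity
        have e1 : (2 * (A : ℝ) + 6) * Real.log L = 2 * (((A : ℝ) + 3) * Real.log L) := by ring
        rw [e1]
        linarith
      have hs2 : (s : ℝ) ≤ 2 * (X / L ^ e) := by
        have h7 : 1 ≤ X / L ^ e := by
          rw [le_div_iff₀ (by positivity), one_mul]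
          exact hXLe
        linarith
      have hs0 : (0 : ℝ) ≤ s := Nat.cast_nonneg s
      calc 2 * (((min (y' + s) X : ℕ) : ℝ) - y') / X * (∑ n ∈ range X, ∏ i, gp z (n + (b i + 1 + x i)) + 2 * (X / L ^ (A + 3))) + 4 * (X / L ^ (A + 3)) ≤
          2 * (2 * (X / L ^ e)) / X * (3 * (X * L ^ A2)) + 4 * (X / L ^ (A + 3)) := by
            apply add_le_add _ le_rfl
            apply mul_le_mul _ h6 h5 (by positivity)
            apply div_le_div_of_nonneg_right _ hX0.le
            linarith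
        _ = X * (12 * L ^ A2 / L ^ e) + X * (4 / L ^ (A + 3)) := by
            field_simp
            ring
        _ ≤ X * (1 / (8 * L ^ A)) + X * (1 / (8 * L ^ A)) := by
            apply add_le_add
            · apply mul_le_mul_of_nonneg_left _ hX0.le
              rw [div_le_div_iff₀ (by positivity) (by positivity), one_mul]
              calc 12 * L ^ A2 * (8 * L ^ A) = 96 * (L ^ A2 * L ^ A) := by ring
                _ ≤ L * (L ^ A2 * L ^ A) := by
                    apply mul_le_mul_of_nonneg_right _ (by positivity)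
                    linarith
                _ = L ^ (1 + A2 + A) := by ring
                _ ≤ L ^ e := hpw (by omega)
            · apply mul_le_mul_of_nonneg_left _ hX0.le
              rw [div_le_div_iff₀ (by positivity) (by positivity), one_mul]
              calc 4 * (8 * L ^ A) = 32 * L ^ A := by ring
                _ ≤ L * L ^ A := by
                    apply mul_le_mul_of_nonneg_right _ (by positivity)
                    linarith
                _ = L ^ (1 + A) := by ring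
                _ ≤ L ^ (A + 3) := hpw (by omega)
        _ = X / (4 * L ^ A) := by
            field_simp
            norm_num) y hy
    have hlast : 4 * Th + X / (4 * L ^ A) ≤ X / L ^ A := by
      rw [hTh]
      have e1 : 4 * (X / (8 * L ^ A)) + X / (4 * L ^ A) = (3 / 4) * (X / L ^ A) := by
        field_simp
        norm_num
      rw [e1]
      have : 0 < X / L ^ A := by positivity
      linarith
    linarith
  -- the count
  have hu1 := union_count Pi ys P1 β hb1
  have hu2 := union_count Pi ys P2 β hb2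
  have hu3 := union_count Pi ys P3 β hb3
  have hu4 := union_count Pi {0} P4 _ hb4
  rw [card_singleton, Nat.cast_one, one_mul] at hu4
  have hyβ : (ys.card : ℝ) * β ≤ 8 * PH / L ^ (A + 2) := by
    calc (ys.card : ℝ) * β ≤ L ^ (e + 1) * (8 * PH / L ^ (A1 - A)) := by
          rw [hβ]
          gcongr
      _ = 8 * PH / L ^ (A + 2) * (L ^ (A + 2) * L ^ (e + 1) / L ^ (A1 - A)) := by
          field_simp
      _ ≤ 8 * PH / L ^ (A + 2) * 1 := by
          apply mul_le_mul_of_nonneg_left _ (by positivity)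
          rw [div_le_one (by positivity), ← pow_add]
          exact hpw (by omega)
      _ = _ := mul_one _
  have hcc := card_le_card hsub
  have hcc2 : ((Pi.filter (fun x => ∃ y ∈ ys, P1 y x) ∪ Pi.filter (fun x => ∃ y ∈ ys, P2 y x)) ∪
        (Pi.filter (fun x => ∃ y ∈ ys, P3 y x) ∪ Pi.filter (fun x => ∃ y ∈ ({0} : Finset ℕ), P4 y x))).card ≤
      ((Pi.filter (fun x => ∃ y ∈ ys, P1 y x)).card + (Pi.filter (fun x => ∃ y ∈ ys, P2 y x)).card) +
        ((Pi.filter (fun x => ∃ y ∈ ys, P3 y x)).card + (Pi.filter (fun x => ∃ y ∈ ({0} : Finset ℕ), P4 y x)).card) := by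
    refine (card_union_le _ _).trans (Nat.add_le_add ?_ ?_)
    · exact card_union_le _ _
    · exact card_union_le _ _
  have hcc3 : (((Pi.filter (fun x => ∃ y ≤ X, (X : ℝ) / L ^ A <
      |∑ n ∈ range X, tr c y n * ∏ i, ArithmeticFunction.vonMangoldt (n + (b i + 1 + x i))|)).card : ℕ) : ℝ) ≤
      (((Pi.filter (fun x => ∃ y ∈ ys, P1 y x)).card : ℝ) + (Pi.filter (fun x => ∃ y ∈ ys, P2 y x)).card) +
        ((Pi.filter (fun x => ∃ y ∈ ys, P3 y x)).card + (Pi.filter (fun x => ∃ y ∈ ({0} : Finset ℕ), P4 y x)).card) := by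
    exact_mod_cast hcc.trans hcc2
  refine hcc3.trans ?_
  calc _ ≤ (8 * PH / L ^ (A + 2) + 8 * PH / L ^ (A + 2)) + (8 * PH / L ^ (A + 2) + 3 * PH / L ^ A2) := by linarith
    _ = (PH / L ^ A) * (27 / L ^ 2) := by
        rw [hA2]
        field_simp
        ring
    _ ≤ (PH / L ^ A) * 1 := by
        apply mul_le_mul_of_nonneg_left _ (by positivity)
        rw [div_le_one (by positivity)]
        nlinarith
    _ = _ := mul_one _

end

end Run7.h402.PC
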