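import Mathlib
import Pool.Agent.Run7.h458.MK.Lio
import Pool.Agent.Run7.h794.MK.AllM
import Pool.Agent.Run7.h794.MK.OneG
import Pool.Agent.Run7.h402.PY.Y1

/-!
# The Liouville function against bounded weights in residue classes
-/

set_option autoImplicit false

open Finset

namespace Run7.h402.PC

open Pool.Agent.Run7.h794.MK
open Pool.Agent.Run7.h27.MK (gI)

noncomputable section

theorem law_lio : S_LAWg lio := lawg Pool.Agent.Run7.h458.MK.abs_lio_le (arcg Pool.Agent.Run7.h458.MK.abs_lio_le (Pool.Agent.Run7.h458.MK.lio_of_mob all_mob))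

/-- the weight -/
def cw (g : ℕ → ℝ) (b0 h y n : ℕ) : ℝ := if n < y then g (n + 1) * lio (n + 1 + b0 + h) else 0

theorem cw_le (g : ℕ → ℝ) (hg : ∀ n, |g n| ≤ 1) (b0 h y n : ℕ) : |cw g b0 h y n| ≤ 1 := by
  unfold cw
  split_ifs
  · rw [abs_mul]
    exact mul_le_one₀ (hg _) (abs_nonneg _) (Pool.Agent.Run7.h458.MK.abs_lio_le _)
  · simp

/-- one class -/
theorem lio_one (U : ℕ) : ∃ C N₀ : ℕ, ∀ N : ℕ, N₀ ≤ N → ∀ H : ℕ, (N : ℝ) ^ (1 / 3 : ℝ) * Real.log N ^ C ≤ H → H ≤ N → ∀ b0 : ℕ, b0 ≤ N →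
    ∀ g : ℕ → ℝ, (∀ n, |g n| ≤ 1) → ∀ y m r : ℕ,
    ∑ h ∈ range H, |∑ n ∈ (range N).filter (fun n => n % m = r), cw g b0 h y n| ≤ H * (N / Real.log N ^ U) := by
  obtain ⟨V, C, N₀, h1⟩ := oneg law_lio 0 1 U
  refine ⟨C, max N₀ 3, fun N hN H hH1 hH2 b0 hb0 g hg y m r => ?_⟩
  have hN3 : 3 ≤ N := le_trans (le_max_right _ _) hN
  have hL0 : 0 < Real.log N := Real.log_pos (by exact_mod_cast (by omega : 1 < N))
  have hN0 : (0 : ℝ) < N := by exact_mod_cast (by omega : 0 < N)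
  have hHr : (0 : ℝ) < H := lt_of_lt_of_le (mul_pos (Real.rpow_pos_of_pos hN0 _) (pow_pos hL0 _)) hH1
  have hH0 : 1 ≤ H := by exact_mod_cast hHr
  obtain ⟨G, hG⟩ : ∃ G : ℕ → ℝ, G = fun n => if (n - 1) % m = r ∧ n - 1 < y then g n else 0 := ⟨_, rfl⟩
  have h2 := h1 N (le_trans (le_max_left _ _) hN) H (fun _ => 1 / (H : ℝ))
    (Run7.h402.PY.msh_unif V C 1 N H hH0 hH1 (by omega) hL0) 1 one_ne_zero (by simp) (b0 : ℤ) (by
      have : (b0 : ℝ) ≤ N := by exact_mod_cast hb0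
      simpa using this) 1 one_pos G (by
      intro n _
      rw [hG]
      simp only
      split_ifs
      · exact hg n
      · simp)
  rw [one_mul] at h2
  have h3 : ∀ v ∈ range H, (1 / (H : ℝ)) * |∑ n ∈ Icc 1 N, G n * gI lio ((n : ℤ) + ((b0 : ℤ) + 1 * (v : ℕ)))| =
      (1 / (H : ℝ)) * |∑ n ∈ (range N).filter (fun n => n % m = r), cw g b0 v y n| := by
    intro v _
    congr 2
    rw [sum_filter]
    refine sum_bij' (fun n _ => n - 1) (fun n _ => n + 1) ?_ ?_ ?_ ?_ ?_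
    · intro n hn
      rw [mem_Icc] at hn
      rw [mem_range]
      omega
    · intro n hn
      rw [mem_range] at hn
      rw [mem_Icc]
      omega
    · intro n hn
      rw [mem_Icc] at hn
      omega
    · intro n hn
      omega
    · intro n hn
      rw [mem_Icc] at hn
      have e1 : n - 1 + 1 = n := by omega
      have e2 : gI lio ((n : ℤ) + ((b0 : ℤ) + 1 * (v : ℕ))) = lio (n + b0 + v) := by
        unfold gI
        rw [if_pos (by omega)]
        congr 1
        omega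
      rw [hG, e2]
      simp only
      unfold cw
      rw [e1]
      by_cases c1 : (n - 1) % m = r
      · by_cases c2 : n - 1 < y
        · rw [if_pos ⟨c1, c2⟩, if_pos c1, if_pos c2]
        · rw [if_neg (fun h => c2 h.2), if_pos c1, if_neg c2, zero_mul]
      · rw [if_neg (fun h => c1 h.1), if_neg c1, zero_mul]
  rw [sum_congr rfl h3, ← mul_sum] at h2
  have h4 : (0 : ℝ) < 1 / (H : ℝ) := by positivity
  calc _ = H * (1 / (H : ℝ) * ∑ h ∈ range H, |∑ n ∈ (range N).filter (fun n => n % m = r), cw g b0 h y n|) := by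
        field_simp
    _ ≤ _ := mul_le_mul_of_nonneg_left h2 hHr.le

open Classical in
/-- the exceptional shifts of the Liouville function -/
theorem lio_bad (D J A : ℕ) : ∃ C N₀ : ℕ, ∀ N : ℕ, N₀ ≤ N → ∀ H : ℕ, (N : ℝ) ^ (1 / 3 : ℝ) * Real.log N ^ C ≤ H → H ≤ N → ∀ b0 : ℕ, b0 ≤ N →
    ∀ g : ℕ → ℝ, (∀ n, |g n| ≤ 1) → ∀ ys : Finset ℕ, (ys.card : ℝ) ≤ Real.log N ^ J →
    (((range H).filter (fun h => ∃ y ∈ ys, ∃ m : ℕ, 1 ≤ m ∧ (m : ℝ) ≤ Real.log N ^ D ∧ ∃ r < m,
      (N : ℝ) / Real.log N ^ D < |∑ n ∈ (range N).filter (fun n => n % m = r), cw g b0 h y n|)).card : ℝ) ≤ H / Real.log N ^ A := by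
  obtain ⟨C, N₀, h1⟩ := lio_one (3 * D + J + A)
  refine ⟨C, max N₀ 3, fun N hN H hH1 hH2 b0 hb0 g hg ys hys => ?_⟩
  have hN3 : 3 ≤ N := le_trans (le_max_right _ _) hN
  have hL1 : 1 ≤ Real.log N := by
    rw [Real.le_log_iff_exp_le (by exact_mod_cast (by omega : 0 < N))]
    have h3 : (3 : ℝ) ≤ N := by exact_mod_cast hN3
    linarith [Real.exp_one_lt_d9]
  obtain ⟨L, hL⟩ : ∃ L : ℝ, L = Real.log N := ⟨_, rfl⟩
  rw [← hL] at hL1 hys ⊢
  have hL0 : 0 < L := by linarith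
  have hN0 : (0 : ℝ) < N := by exact_mod_cast (by omega : 0 < N)
  obtain ⟨M, hM⟩ : ∃ M : ℕ, M = ⌊L ^ D⌋₊ := ⟨_, rfl⟩
  have hMle : (M : ℝ) ≤ L ^ D := by rw [hM]; exact Nat.floor_le (by positivity)
  have hkey : ∀ y m r : ℕ, (((range H).filter (fun h => (N : ℝ) / L ^ D < |∑ n ∈ (range N).filter (fun n => n % m = r), cw g b0 h y n|)).card : ℝ) ≤
      H / L ^ (2 * D + J + A) := by
    intro y m r
    have h2 := h1 N (le_trans (le_max_left _ _) hN) H hH1 hH2 b0 hb0 g hg y m r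
    rw [← hL] at h2
    have h3 : (((range H).filter (fun h => (N : ℝ) / L ^ D < |∑ n ∈ (range N).filter (fun n => n % m = r), cw g b0 h y n|)).card : ℝ) * (N / L ^ D) ≤
        H * (N / L ^ (3 * D + J + A)) := by
      refine le_trans ?_ h2
      calc _ = ∑ h ∈ (range H).filter (fun h => (N : ℝ) / L ^ D < |∑ n ∈ (range N).filter (fun n => n % m = r), cw g b0 h y n|), (N : ℝ) / L ^ D := by
            rw [sum_const, nsmul_eq_mul]
        _ ≤ ∑ h ∈ (range H).filter (fun h => (N : ℝ) / L ^ D < |∑ n ∈ (range N).filter (fun n => n % m = r), cw g b0 h y n|), |∑ n ∈ (range N).filter (fun n => n % m = r), cw g b0 h y n| := by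
            apply sum_le_sum
            intro h hh
            exact (mem_filter.1 hh).2.le
        _ ≤ _ := sum_le_sum_of_subset_of_nonneg (filter_subset _ _) fun _ _ _ => abs_nonneg _
    have e1 : (H : ℝ) * (N / L ^ (3 * D + J + A)) = (H / L ^ (2 * D + J + A)) * (N / L ^ D) := by
      have : L ^ (3 * D + J + A) = L ^ (2 * D + J + A) * L ^ D := by rw [← pow_add]; congr 1; omega
      rw [this]
      field_simp
    rw [e1] at h3
    exact le_of_mul_le_mul_right h3 (by positivity)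
  have hsub : (range H).filter (fun h => ∃ y ∈ ys, ∃ m : ℕ, 1 ≤ m ∧ (m : ℝ) ≤ L ^ D ∧ ∃ r < m,
      (N : ℝ) / L ^ D < |∑ n ∈ (range N).filter (fun n => n % m = r), cw g b0 h y n|) ⊆
      ys.biUnion (fun y => (Icc 1 M).biUnion (fun m => (range M).biUnion (fun r => (range H).filter (fun h => (N : ℝ) / L ^ D < |∑ n ∈ (range N).filter (fun n => n % m = r), cw g b0 h y n|)))) := by
    intro h hh
    rw [mem_filter] at hh
    obtain ⟨hh1, y, hy, m, hm1, hm2, r, hr, hbig⟩ := hh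
    have hmM : m ≤ M := by rw [hM]; exact Nat.le_floor hm2
    rw [mem_biUnion]
    refine ⟨y, hy, ?_⟩
    rw [mem_biUnion]
    refine ⟨m, mem_Icc.2 ⟨hm1, hmM⟩, ?_⟩
    rw [mem_biUnion]
    exact ⟨r, mem_range.2 (by omega), mem_filter.2 ⟨hh1, hbig⟩⟩
  have hc1 : ((ys.biUnion (fun y => (Icc 1 M).biUnion (fun m => (range M).biUnion (fun r => (range H).filter (fun h => (N : ℝ) / L ^ D < |∑ n ∈ (range N).filter (fun n => n % m = r), cw g b0 h y n|))))).card : ℝ) ≤
      ∑ y ∈ ys, ∑ m ∈ Icc 1 M, ∑ r ∈ range M, (H : ℝ) / L ^ (2 * D + J + A) := by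
    have h2 : (ys.biUnion (fun y => (Icc 1 M).biUnion (fun m => (range M).biUnion (fun r => (range H).filter (fun h => (N : ℝ) / L ^ D < |∑ n ∈ (range N).filter (fun n => n % m = r), cw g b0 h y n|))))).card ≤
        ∑ y ∈ ys, ∑ m ∈ Icc 1 M, ∑ r ∈ range M, ((range H).filter (fun h => (N : ℝ) / L ^ D < |∑ n ∈ (range N).filter (fun n => n % m = r), cw g b0 h y n|)).card := by
      refine card_biUnion_le.trans (sum_le_sum fun y _ => ?_)
      refine card_biUnion_le.trans (sum_le_sum fun m _ => ?_)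
      exact card_biUnion_le
    have h3 : ((ys.biUnion (fun y => (Icc 1 M).biUnion (fun m => (range M).biUnion (fun r => (range H).filter (fun h => (N : ℝ) / L ^ D < |∑ n ∈ (range N).filter (fun n => n % m = r), cw g b0 h y n|))))).card : ℝ) ≤
        ((∑ y ∈ ys, ∑ m ∈ Icc 1 M, ∑ r ∈ range M, ((range H).filter (fun h => (N : ℝ) / L ^ D < |∑ n ∈ (range N).filter (fun n => n % m = r), cw g b0 h y n|)).card : ℕ) : ℝ) := by
      exact_mod_cast h2
    refine h3.trans ?_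
    push_cast
    exact sum_le_sum fun y _ => sum_le_sum fun m _ => sum_le_sum fun r _ => hkey y m r
  have hc2 : ∑ y ∈ ys, ∑ m ∈ Icc 1 M, ∑ r ∈ range M, (H : ℝ) / L ^ (2 * D + J + A) ≤ H / L ^ A := by
    simp only [sum_const, Nat.card_Icc, card_range, nsmul_eq_mul, Nat.add_sub_cancel]
    calc (ys.card : ℝ) * (M * (M * (H / L ^ (2 * D + J + A)))) ≤ L ^ J * (L ^ D * (L ^ D * (H / L ^ (2 * D + J + A)))) := by gcongr
      _ = H / L ^ A := by
          have : L ^ (2 * D + J + A) = L ^ J * (L ^ D * L ^ D) * L ^ A := by ring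
          rw [this]
          field_simp
  calc _ ≤ ((ys.biUnion (fun y => (Icc 1 M).biUnion (fun m => (range M).biUnion (fun r => (range H).filter (fun h => (N : ℝ) / L ^ D < |∑ n ∈ (range N).filter (fun n => n % m = r), cw g b0 h y n|))))).card : ℝ) := by
        exact_mod_cast card_le_card hsub
    _ ≤ _ := hc1.trans hc2

end

end Run7.h402.PC
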