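import Mathlib
import Pool.Agent.Run7.h402.PC.C7
import Pool.Agent.Run7.h402.PC.C10
import Pool.Agent.N791.C2.Ap

/-!
# The Hardy-Littlewood-Chowla statement with many factors on average: the Liouville function
-/

set_option autoImplicit false

open Finset

namespace Run7.h402.PC

open Run7.h402.PX Run7.h402.PV Run7.h402.PD
open Pool.Agent.Run7.h794.MK (lio)
open Pool.Agent.N791.C2 (Null lam null_lam)
open Pool.Agent.N475.SP (dom)

noncomputable section

theorem lio_eq_lam (n : ℕ) (hn : 1 ≤ n) : lio n = lam n := by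
  unfold lio lam
  rw [if_neg (by omega), ArithmeticFunction.cardFactors_apply]

theorem lam_abs (n : ℕ) : |lam n| ≤ 1 := by
  unfold lam
  rw [abs_pow, abs_neg, abs_one, one_pow]

/-- class sums up to `2 X` -/
theorem null_short (D : ℕ) : ∃ X0 : ℕ, ∀ X : ℕ, X0 ≤ X → ∀ N ≤ 2 * X, ∀ q r : ℕ, 1 ≤ q →
    |∑ n ∈ (Icc 1 N).filter (fun n => n ≡ r [MOD q]), lam n| ≤ X / (2 * Real.log X ^ D) := by
  obtain ⟨N0, h0⟩ := null_lam (D + 1)
  obtain ⟨a1, ha1⟩ := dom (2 : ℝ) (1 / 2) D (by norm_num)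
  refine ⟨max (max (N0 ^ 2) 9) ⌈Real.exp (max a1 (2 ^ (D + 3)))⌉₊, fun X hX N hN q r hq => ?_⟩
  have hX1 : N0 ^ 2 ≤ X := le_trans (le_trans (le_max_left _ _) (le_max_left _ _)) hX
  have hX9 : 9 ≤ X := le_trans (le_trans (le_max_right _ _) (le_max_left _ _)) hX
  have hX0 : (0 : ℝ) < X := by exact_mod_cast (by omega : 0 < X)
  have hXL : Real.exp (max a1 (2 ^ (D + 3))) ≤ X := (Nat.le_ceil _).trans (by exact_mod_cast le_trans (le_max_right _ _) hX)
  obtain ⟨L, hL⟩ : ∃ L : ℝ, L = Real.log X := ⟨_, rfl⟩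
  have hLL0 : max a1 (2 ^ (D + 3)) ≤ L := by rwa [hL, Real.le_log_iff_exp_le hX0]
  have hL1 := (le_max_left _ _).trans hLL0
  have hL2 : (2 : ℝ) ^ (D + 3) ≤ L := (le_max_right _ _).trans hLL0
  have hL8 : (8 : ℝ) ≤ L := by
    refine le_trans ?_ hL2
    rw [pow_add]
    have : (1 : ℝ) ≤ 2 ^ D := one_le_pow₀ (by norm_num)
    linarith
  have hL0 : 0 < L := by linarith
  rw [← hL]
  have hXe : Real.exp L = X := by rw [hL, Real.exp_log hX0]
  have hsq : √(X : ℝ) = Real.exp (L / 2) := by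
    have : (X : ℝ) = Real.exp (L / 2) ^ 2 := by
      rw [← Real.exp_nat_mul, ← hXe]
      congr 1
      push_cast
      ring
    rw [this, Real.sqrt_sq (Real.exp_pos _).le]
  rcases le_or_gt (N : ℝ) (√(X : ℝ)) with h | h
  · have h1 : |∑ n ∈ (Icc 1 N).filter (fun n => n ≡ r [MOD q]), lam n| ≤ N := by
      refine (abs_sum_le_sum_abs _ _).trans ?_
      calc ∑ n ∈ (Icc 1 N).filter (fun n => n ≡ r [MOD q]), |lam n| ≤ ∑ _n ∈ (Icc 1 N).filter (fun n => n ≡ r [MOD q]), (1 : ℝ) :=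
            sum_le_sum fun n _ => lam_abs n
        _ = (((Icc 1 N).filter (fun n => n ≡ r [MOD q])).card : ℝ) := by simp
        _ ≤ ((Icc 1 N).card : ℝ) := by exact_mod_cast card_filter_le _ _
        _ = N := by simp
    refine h1.trans (h.trans ?_)
    rw [le_div_iff₀ (by positivity), hsq]
    have h2 := ha1 L hL1
    have e1 : (1 / 2 : ℝ) * L = L / 2 := by ring
    rw [e1] at h2
    calc Real.exp (L / 2) * (2 * L ^ D) ≤ Real.exp (L / 2) * Real.exp (L / 2) := mul_le_mul_of_nonneg_left h2 (Real.exp_pos _).le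
      _ = X := by rw [← Real.exp_add, ← hXe]; congr 1; ring
  · have hN0 : N0 ≤ N := by
      have h1 : (N0 : ℝ) ≤ √(X : ℝ) := by
        apply Real.le_sqrt_of_sq_le
        exact_mod_cast hX1
      exact_mod_cast (h1.trans h.le)
    have h1 := h0 N hN0 q r hq
    refine h1.trans ?_
    have hNpos : (0 : ℝ) < N := lt_of_le_of_lt (Real.sqrt_nonneg _) h
    have hlogN : L / 2 ≤ Real.log N := by
      rw [Real.le_log_iff_exp_le hNpos, ← hsq]
      exact h.le
    have hN2 : (N : ℝ) ≤ 2 * X := by exact_mod_cast hN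
    calc (N : ℝ) / Real.log N ^ (D + 1) ≤ (2 * X) / (L / 2) ^ (D + 1) := by
          apply div_le_div₀ (by positivity) hN2 (by positivity)
          exact pow_le_pow_left₀ (by positivity) hlogN _
      _ = X * (2 ^ (D + 2) / L ^ (D + 1)) := by
          rw [div_pow]
          field_simp
          ring
      _ ≤ X * (1 / (2 * L ^ D)) := by
          apply mul_le_mul_of_nonneg_left _ hX0.le
          rw [div_le_div_iff₀ (by positivity) (by positivity), one_mul, pow_succ L D]
          have e1 : (2 : ℝ) ^ (D + 2) * (2 * L ^ D) = L ^ D * 2 ^ (D + 3) := by ring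
          rw [e1]
          exact mul_le_mul_of_nonneg_left hL2 (by positivity)
      _ = _ := by ring

open Classical in
/-- the Liouville function at an arbitrary fixed shift -/
theorem hlc_fixed (A B : ℕ) : ∃ C X0 : ℕ, ∀ X : ℕ, X0 ≤ X → ∀ K : ℕ, 1 ≤ K → (K : ℝ) ≤ B * Real.log (Real.log X) →
    ∀ b H : Fin K → ℕ, (∀ i, b i ≤ X) → (∀ i, (X : ℝ) ^ (1 / 3 : ℝ) * Real.log X ^ C ≤ H i) → (∀ i, H i ≤ X) →
    ∀ h ≤ X,
    (((Fintype.piFinset (fun i : Fin K => range (H i))).filter (fun x => ∃ y ≤ X, (X : ℝ) / Real.log X ^ A <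
      |∑ n ∈ range X, tr (fun n => lam (n + 1 + h)) y n * ∏ i, ArithmeticFunction.vonMangoldt (n + (b i + 1 + x i))|)).card : ℝ) ≤
      (∏ i, (H i : ℝ)) / Real.log X ^ A := by
  obtain ⟨D, C, X1, h1⟩ := hlc_one A B
  obtain ⟨X2, h2⟩ := null_short D
  refine ⟨C, max X1 X2, fun X hX K hK hKB b H hb hH1 hH2 h hh => ?_⟩
  refine h1 X (le_trans (le_max_left _ _) hX) K hK hKB b H hb hH1 hH2 (fun n => lam (n + 1 + h)) (fun n => lam_abs _) ?_
  intro y hy m hm1 _ r hr
  have key : ∑ n ∈ (range X).filter (fun n => n % m = r), tr (fun n => lam (n + 1 + h)) y n =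
      ∑ k ∈ (Icc 1 (h + y)).filter (fun k => k ≡ r + 1 + h [MOD m]), lam k - ∑ k ∈ (Icc 1 h).filter (fun k => k ≡ r + 1 + h [MOD m]), lam k := by
    rw [eq_sub_iff_add_eq]
    have hsplit : (Icc 1 (h + y)).filter (fun k => k ≡ r + 1 + h [MOD m]) =
        (Ioc h (h + y)).filter (fun k => k ≡ r + 1 + h [MOD m]) ∪ (Icc 1 h).filter (fun k => k ≡ r + 1 + h [MOD m]) := by
      ext k
      simp only [mem_union, mem_filter, mem_Icc, mem_Ioc]
      constructor
      · rintro ⟨⟨k1, k2⟩, k3⟩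
        rcases Nat.lt_or_ge h k with k4 | k4
        · exact Or.inl ⟨⟨k4, k2⟩, k3⟩
        · exact Or.inr ⟨⟨k1, k4⟩, k3⟩
      · rintro (⟨⟨k1, k2⟩, k3⟩ | ⟨⟨k1, k2⟩, k3⟩)
        · exact ⟨⟨by omega, k2⟩, k3⟩
        · exact ⟨⟨k1, by omega⟩, k3⟩
    have hdis : Disjoint ((Ioc h (h + y)).filter (fun k => k ≡ r + 1 + h [MOD m])) ((Icc 1 h).filter (fun k => k ≡ r + 1 + h [MOD m])) := by
      rw [disjoint_left]
      intro k hk1 hk2
      rw [mem_filter, mem_Ioc] at hk1
      rw [mem_filter, mem_Icc] at hk2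
      omega
    rw [hsplit, sum_union hdis]
    congr 1
    rw [sum_filter, sum_filter]
    have e0 : ∀ n ∈ range X, (if n % m = r then tr (fun n => lam (n + 1 + h)) y n else 0) = if n < y then (if n % m = r then lam (n + 1 + h) else 0) else 0 := by
      intro n _
      unfold tr
      split_ifs <;> rfl
    rw [sum_congr rfl e0, ← sum_filter]
    have e1 : (range X).filter (fun n => n < y) = range y := by
      ext n
      rw [mem_filter, mem_range, mem_range]
      omega
    rw [e1]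
    refine sum_bij' (fun n _ => n + 1 + h) (fun k _ => k - 1 - h) ?_ ?_ ?_ ?_ ?_
    · intro n hn
      rw [mem_range] at hn
      rw [mem_Ioc]
      omega
    · intro k hk
      rw [mem_Ioc] at hk
      rw [mem_range]
      omega
    · intro n hn
      omega
    · intro k hk
      rw [mem_Ioc] at hk
      omega
    · intro n hn
      have e2 : (n + 1 + h ≡ r + 1 + h [MOD m]) ↔ n % m = r := by
        have e3 : n + 1 + h = n + (1 + h) := by ring
        have e4 : r + 1 + h = r + (1 + h) := by ring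
        rw [e3, e4]
        constructor
        · intro hc
          have h5 := Nat.ModEq.add_right_cancel' (1 + h) hc
          unfold Nat.ModEq at h5
          rw [h5]
          exact Nat.mod_eq_of_lt hr
        · intro hc
          apply Nat.ModEq.add_right
          unfold Nat.ModEq
          rw [hc]
          exact (Nat.mod_eq_of_lt hr).symm
      by_cases hc : n % m = r
      · rw [if_pos hc, if_pos (e2.2 hc)]
      · rw [if_neg hc, if_neg (fun h5 => hc (e2.1 h5))]
  rw [key]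
  have g1 := h2 X (le_trans (le_max_right _ _) hX) (h + y) (by omega) m (r + 1 + h) hm1
  have g2 := h2 X (le_trans (le_max_right _ _) hX) h (by omega) m (r + 1 + h) hm1
  refine (abs_sub _ _).trans ((add_le_add g1 g2).trans (le_of_eq ?_))
  by_cases h0 : Real.log (X : ℝ) ^ D = 0
  · rw [h0]
    simp
  · field_simp
    ring

open Classical in
/-- arbitrary bounded weights, one averaged shift of the Liouville function -/
theorem hlc_avg (A B : ℕ) : ∃ C X0 : ℕ, ∀ X : ℕ, X0 ≤ X → ∀ K : ℕ, 1 ≤ K → (K : ℝ) ≤ B * Real.log (Real.log X) →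
    ∀ b H : Fin K → ℕ, (∀ i, b i ≤ X) → (∀ i, (X : ℝ) ^ (1 / 3 : ℝ) * Real.log X ^ C ≤ H i) → (∀ i, H i ≤ X) →
    ∀ b0 H0 : ℕ, b0 ≤ X → (X : ℝ) ^ (1 / 3 : ℝ) * Real.log X ^ C ≤ H0 → H0 ≤ X → ∀ g : ℕ → ℝ, (∀ n, |g n| ≤ 1) →
    ((((Fintype.piFinset (fun i : Fin K => range (H i))) ×ˢ range H0).filter (fun x => ∃ y ≤ X, (X : ℝ) / Real.log X ^ A <
      |∑ n ∈ range X, cw g b0 x.2 y n * ∏ i, ArithmeticFunction.vonMangoldt (n + (b i + 1 + x.1 i))|)).card : ℝ) ≤
      (∏ i, (H i : ℝ)) * H0 / Real.log X ^ A := by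
  obtain ⟨D, C1, X1, h1⟩ := hlc_one (A + 1) B
  obtain ⟨C2, X2, h2⟩ := lio_bad (D + 1) (D + 2) (A + 1)
  obtain ⟨a1, ha1⟩ := dom (1 : ℝ) 1 (D + 1) (by norm_num)
  refine ⟨C1 + C2, max (max X1 X2) ⌈Real.exp (max a1 8)⌉₊, fun X hX K hK hKB b H hb hH1 hH2 b0 H0 hb0 hH01 hH02 g hg => ?_⟩
  have hX1 : X1 ≤ X := le_trans (le_trans (le_max_left _ _) (le_max_left _ _)) hX
  have hX2 : X2 ≤ X := le_trans (le_trans (le_max_right _ _) (le_max_left _ _)) hX
  have hXL : Real.exp (max a1 8) ≤ X := (Nat.le_ceil _).trans (by exact_mod_cast le_trans (le_max_right _ _) hX)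
  have hX0 : (0 : ℝ) < X := lt_of_lt_of_le (Real.exp_pos _) hXL
  have hX0n : 1 ≤ X := by exact_mod_cast hX0
  obtain ⟨L, hL⟩ : ∃ L : ℝ, L = Real.log X := ⟨_, rfl⟩
  have hLL0 : max a1 8 ≤ L := by rwa [hL, Real.le_log_iff_exp_le hX0]
  have hL8 : (8 : ℝ) ≤ L := (le_max_right _ _).trans hLL0
  have hL0 : 0 < L := by linarith
  have hXe : Real.exp L = X := by rw [hL, Real.exp_log hX0]
  have hpw : ∀ {m n : ℕ}, m ≤ n → L ^ m ≤ L ^ n := fun h => pow_le_pow_right₀ (by linarith) h
  have hX3pos : 0 ≤ (X : ℝ) ^ (1 / 3 : ℝ) := by positivity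
  obtain ⟨J, hJ⟩ : ∃ J : ℕ, J = ⌈L ^ (D + 1)⌉₊ := ⟨_, rfl⟩
  have hLe1 : 1 ≤ L ^ (D + 1) := one_le_pow₀ (by linarith)
  have hJ1 : L ^ (D + 1) ≤ J := by rw [hJ]; exact Nat.le_ceil _
  have hJ2 : (J : ℝ) ≤ L ^ (D + 1) + 1 := by rw [hJ]; exact (Nat.ceil_lt_add_one (by positivity)).le
  have hJpos : 1 ≤ J := by
    have : (1 : ℝ) ≤ J := by linarith
    exact_mod_cast this
  obtain ⟨s, hs⟩ : ∃ s : ℕ, s = X / J + 1 := ⟨_, rfl⟩
  have hs1' : 1 ≤ s := by
    rw [hs]
    exact Nat.le_add_left 1 _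
  have hXLD : L ^ (D + 1) ≤ X := by
    have := ha1 L ((le_max_left _ _).trans hLL0)
    rw [one_mul, one_mul, hXe] at this
    exact this
  have hsr : (s : ℝ) ≤ 2 * (X / L ^ (D + 1)) := by
    have h3 : (s : ℝ) ≤ X / L ^ (D + 1) + 1 := by
      rw [hs]
      push_cast
      apply add_le_add _ le_rfl
      refine Nat.cast_div_le.trans ?_
      exact div_le_div_of_nonneg_left hX0.le (by positivity) hJ1
    have h4 : 1 ≤ X / L ^ (D + 1) := by
      rw [le_div_iff₀ (by positivity), one_mul]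
      exact hXLD
    linarith
  obtain ⟨ys, hys⟩ : ∃ ys : Finset ℕ, ys = (range (J + 1)).image (fun j => s * j) := ⟨_, rfl⟩
  have hysm : ∀ y ≤ X, s * (y / s) ∈ ys := by
    intro y hy
    rw [hys, mem_image]
    refine ⟨y / s, ?_, rfl⟩
    rw [mem_range]
    have h1 : X < J * s := by
      rw [hs]
      exact Nat.lt_mul_div_succ X hJpos
    have h2 : y / s < J := Nat.div_lt_of_lt_mul (by rw [mul_comm]; omega)
    omega
  have hysc : (ys.card : ℝ) ≤ L ^ (D + 2) := by
    have h1 : ys.card ≤ J + 1 := by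
      rw [hys]
      exact card_image_le.trans (by rw [card_range])
    have h2 : (ys.card : ℝ) ≤ J + 1 := by exact_mod_cast h1
    refine h2.trans ?_
    rw [pow_succ _ (D + 1)]
    nlinarith
  obtain ⟨badl, hbadl⟩ : ∃ badl : Finset ℕ, badl = (range H0).filter (fun h => ∃ y ∈ ys, ∃ m : ℕ, 1 ≤ m ∧ (m : ℝ) ≤ Real.log X ^ (D + 1) ∧ ∃ r < m,
      (X : ℝ) / Real.log X ^ (D + 1) < |∑ n ∈ (range X).filter (fun n => n % m = r), cw g b0 h y n|) := ⟨_, rfl⟩
  have hc0 : (badl.card : ℝ) ≤ H0 / L ^ (A + 1) := by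
    have h3 := h2 X hX2 H0 (by
      refine le_trans ?_ hH01
      rw [← hL]
      exact mul_le_mul_of_nonneg_left (hpw (by omega)) hX3pos) hH02 b0 hb0 g hg ys (by rw [← hL]; exact hysc)
    rw [hbadl, hL]
    exact h3
  obtain ⟨Pi, hPi⟩ : ∃ Pi : Finset (Fin K → ℕ), Pi = Fintype.piFinset (fun i : Fin K => range (H i)) := ⟨_, rfl⟩
  obtain ⟨PH, hPH⟩ : ∃ PH : ℝ, PH = ∏ i, (H i : ℝ) := ⟨_, rfl⟩
  have hPiC : (Pi.card : ℝ) = PH := by
    rw [hPi, hPH, Fintype.card_piFinset]
    simp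
  have hPH0 : 0 ≤ PH := by rw [hPH]; exact prod_nonneg fun i _ => Nat.cast_nonneg _
  -- good shifts
  have hgood : ∀ h < H0, h ∉ badl → ((Pi.filter (fun x => ∃ y ≤ X, (X : ℝ) / L ^ (A + 1) <
      |∑ n ∈ range X, cw g b0 h y n * ∏ i, ArithmeticFunction.vonMangoldt (n + (b i + 1 + x i))|)).card : ℝ) ≤ PH / L ^ (A + 1) := by
    intro h hh hbad
    have h3 := h1 X hX1 K hK hKB b H hb (fun i => by
      refine le_trans ?_ (hH1 i)
      rw [← hL]
      exact mul_le_mul_of_nonneg_left (hpw (by omega)) hX3pos) hH2 (fun n => g (n + 1) * lio (n + 1 + b0 + h)) (fun n => by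
      rw [abs_mul]
      exact mul_le_one₀ (hg _) (abs_nonneg _) (Pool.Agent.Run7.h458.MK.abs_lio_le _)) (by
      intro y hy m hm1 hm2 r hr
      rw [← hL] at hm2 ⊢
      obtain ⟨yj, hyj⟩ : ∃ yj : ℕ, yj = s * (y / s) := ⟨_, rfl⟩
      have hyj0 : yj ∈ ys := by rw [hyj]; exact hysm y hy
      have hj1 : yj ≤ y := by rw [hyj]; exact Nat.mul_div_le y s
      have hj2 : y < yj + s := by
        have := Nat.lt_mul_div_succ y hs1'
        rw [Nat.mul_add, mul_one] at this
        rw [hyj]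
        exact this
      have g1 : |∑ n ∈ (range X).filter (fun n => n % m = r), cw g b0 h yj n| ≤ X / L ^ (D + 1) := by
        by_contra hcon
        push Not at hcon
        apply hbad
        rw [hbadl, mem_filter]
        refine ⟨mem_range.2 hh, yj, hyj0, m, hm1, ?_, r, hr, ?_⟩
        · rw [← hL]
          exact hm2.trans (hpw (by omega))
        · rw [← hL]
          exact hcon
      have g2 : |∑ n ∈ (range X).filter (fun n => n % m = r), cw g b0 h y n - ∑ n ∈ (range X).filter (fun n => n % m = r), cw g b0 h yj n| ≤ s := by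
        rw [← sum_sub_distrib]
        refine (abs_sum_le_sum_abs _ _).trans ?_
        have g3 : ∀ n ∈ (range X).filter (fun n => n % m = r), |cw g b0 h y n - cw g b0 h yj n| ≤ if yj ≤ n ∧ n < y then 1 else 0 := by
          intro n _
          unfold cw
          by_cases c1 : n < yj
          · rw [if_pos (by omega), if_pos c1, sub_self, abs_zero]
            split_ifs <;> norm_num
          · by_cases c2 : n < y
            · rw [if_pos c2, if_neg c1, sub_zero, if_pos ⟨by omega, c2⟩, abs_mul]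
              exact mul_le_one₀ (hg _) (abs_nonneg _) (Pool.Agent.Run7.h458.MK.abs_lio_le _)
            · rw [if_neg c2, if_neg c1, sub_self, abs_zero]
              split_ifs <;> norm_num
        refine (sum_le_sum g3).trans ?_
        rw [← sum_filter, sum_const, nsmul_eq_mul, mul_one]
        have g4 : (((range X).filter (fun n => n % m = r)).filter (fun n => yj ≤ n ∧ n < y)).card ≤ (Ico yj y).card := by
          apply card_le_card
          intro n hn
          rw [mem_filter] at hn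
          rw [mem_Ico]
          exact hn.2
        rw [Nat.card_Ico] at g4
        exact_mod_cast g4.trans (by omega : y - yj ≤ s)
      have g5 : |∑ n ∈ (range X).filter (fun n => n % m = r), cw g b0 h y n| ≤ 3 * (X / L ^ (D + 1)) := by
        have e1 : ∀ p q : ℝ, |p| ≤ |p - q| + |q| := fun p q => by
          have := abs_add_le (p - q) q
          rwa [sub_add_cancel] at this
        refine (e1 _ (∑ n ∈ (range X).filter (fun n => n % m = r), cw g b0 h yj n)).trans ?_
        linarith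
      refine le_trans (le_trans (le_of_eq ?_) g5) ?_
      · rfl
      · rw [pow_succ]
        rw [mul_div_assoc', div_le_div_iff₀ (by positivity) (by positivity)]
        have : 0 < X * L ^ D := by positivity
        nlinarith)
    rw [← hL, ← hPi, ← hPH] at h3
    exact h3
  rw [← hL, ← hPi, ← hPH]
  -- the count
  have hsub : (Pi ×ˢ range H0).filter (fun x => ∃ y ≤ X, (X : ℝ) / L ^ A <
      |∑ n ∈ range X, cw g b0 x.2 y n * ∏ i, ArithmeticFunction.vonMangoldt (n + (b i + 1 + x.1 i))|) ⊆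
      (Pi ×ˢ badl) ∪ (range H0 \ badl).biUnion (fun h => (Pi.filter (fun x => ∃ y ≤ X, (X : ℝ) / L ^ (A + 1) <
        |∑ n ∈ range X, cw g b0 h y n * ∏ i, ArithmeticFunction.vonMangoldt (n + (b i + 1 + x i))|)).image (fun m => (m, h))) := by
    intro x hx
    rw [mem_filter, mem_product] at hx
    obtain ⟨⟨hx1, hx2⟩, y, hy, hbigs⟩ := hx
    rw [mem_union, mem_product]
    by_cases hbad : x.2 ∈ badl
    · exact Or.inl ⟨hx1, hbad⟩
    · right
      rw [mem_biUnion]
      refine ⟨x.2, mem_sdiff.2 ⟨hx2, hbad⟩, ?_⟩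
      rw [mem_image]
      refine ⟨x.1, mem_filter.2 ⟨hx1, y, hy, lt_of_le_of_lt ?_ hbigs⟩, rfl⟩
      exact div_le_div_of_nonneg_left hX0.le (by positivity) (hpw (by omega))
  have hcc := (card_le_card hsub).trans (card_union_le _ _)
  have hH00 : (0 : ℝ) ≤ H0 := Nat.cast_nonneg H0
  have hc1 : (((range H0 \ badl).biUnion (fun h => (Pi.filter (fun x => ∃ y ≤ X, (X : ℝ) / L ^ (A + 1) <
        |∑ n ∈ range X, cw g b0 h y n * ∏ i, ArithmeticFunction.vonMangoldt (n + (b i + 1 + x i))|)).image (fun m => (m, h)))).card : ℝ) ≤ H0 * (PH / L ^ (A + 1)) := by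
    have h3 : ((range H0 \ badl).biUnion (fun h => (Pi.filter (fun x => ∃ y ≤ X, (X : ℝ) / L ^ (A + 1) <
        |∑ n ∈ range X, cw g b0 h y n * ∏ i, ArithmeticFunction.vonMangoldt (n + (b i + 1 + x i))|)).image (fun m => (m, h)))).card ≤
        ∑ h ∈ range H0 \ badl, (Pi.filter (fun x => ∃ y ≤ X, (X : ℝ) / L ^ (A + 1) <
        |∑ n ∈ range X, cw g b0 h y n * ∏ i, ArithmeticFunction.vonMangoldt (n + (b i + 1 + x i))|)).card := by
      refine card_biUnion_le.trans (sum_le_sum fun h _ => ?_)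
      exact card_image_le
    have h4 : (((range H0 \ badl).biUnion (fun h => (Pi.filter (fun x => ∃ y ≤ X, (X : ℝ) / L ^ (A + 1) <
        |∑ n ∈ range X, cw g b0 h y n * ∏ i, ArithmeticFunction.vonMangoldt (n + (b i + 1 + x i))|)).image (fun m => (m, h)))).card : ℝ) ≤
        ((∑ h ∈ range H0 \ badl, (Pi.filter (fun x => ∃ y ≤ X, (X : ℝ) / L ^ (A + 1) <
        |∑ n ∈ range X, cw g b0 h y n * ∏ i, ArithmeticFunction.vonMangoldt (n + (b i + 1 + x i))|)).card : ℕ) : ℝ) := by exact_mod_cast h3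
    refine h4.trans ?_
    push_cast
    calc _ ≤ ∑ _h ∈ range H0 \ badl, PH / L ^ (A + 1) := sum_le_sum fun h hh => hgood h (mem_range.1 (mem_sdiff.1 hh).1) (mem_sdiff.1 hh).2
      _ = ((range H0 \ badl).card : ℝ) * (PH / L ^ (A + 1)) := by rw [sum_const, nsmul_eq_mul]
      _ ≤ _ := by
          apply mul_le_mul_of_nonneg_right _ (by positivity)
          have h5 : (range H0 \ badl).card ≤ (range H0).card := card_le_card sdiff_subset
          rw [card_range] at h5
          exact_mod_cast h5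
  have hc2 : ((Pi ×ˢ badl).card : ℝ) ≤ PH * (H0 / L ^ (A + 1)) := by
    rw [card_product]
    push_cast
    rw [hPiC]
    exact mul_le_mul_of_nonneg_left hc0 hPH0
  calc _ ≤ ((Pi ×ˢ badl).card : ℝ) + (((range H0 \ badl).biUnion (fun h => (Pi.filter (fun x => ∃ y ≤ X, (X : ℝ) / L ^ (A + 1) <
        |∑ n ∈ range X, cw g b0 h y n * ∏ i, ArithmeticFunction.vonMangoldt (n + (b i + 1 + x i))|)).image (fun m => (m, h)))).card : ℝ) := by exact_mod_cast hcc
    _ ≤ PH * (H0 / L ^ (A + 1)) + H0 * (PH / L ^ (A + 1)) := add_le_add hc2 hc1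
    _ = (PH * H0 / L ^ A) * (2 / L) := by
        field_simp
        ring
    _ ≤ (PH * H0 / L ^ A) * 1 := by
        apply mul_le_mul_of_nonneg_left _ (by positivity)
        rw [div_le_one hL0]
        linarith
    _ = _ := mul_one _

end

end Run7.h402.PC
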